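import Pool.Agent.W80.GB.Many
import Pool.Agent.H304R2.Sqf3

/-!
Project GB (helper80): the version with the Moebius function.
-/

set_option autoImplicit false

namespace Pool.Agent.W80.GB

open Finset Filter
open Pool.Agent.H376R2.MR
open Pool.Agent.W78.GA
open Pool.Agent.H304R2 (ev_pow sqf_exc)

open Classical in
theorem many_mu {a : ℕ} (ha : 1 ≤ a) {b c₀ : ℤ} (hD : b ^ 2 < 4 * (a * c₀)) (e : ℤ)
    (he : e = 1 ∨ e = -1) (ε : ℝ) (hε : 0 < ε) :
    ∃ N₀ : ℕ, ∀ N : ℕ, N₀ ≤ N → (N : ℝ) ^ (1 - ε) ≤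
      (((Finset.Icc (-(N : ℤ)) N).filter (fun n : ℤ => ∃ s m : ℕ,
        (a * n ^ 2 + b * n + c₀).natAbs = s ^ 2 * m ∧ (s : ℝ) ≤ (N : ℝ) ^ ε ∧
          ArithmeticFunction.moebius m = e)).card : ℝ) := by
  have haz : (1 : ℤ) ≤ a := by exact_mod_cast ha
  set δ := min ε 1 / 2 with hδ
  have hm0 : 0 < min ε 1 := lt_min hε one_pos
  have hδ0 : 0 < δ := by rw [hδ]; linarith
  have hδ1 : δ ≤ 1 := by have := min_le_right ε 1; rw [hδ]; linarith
  have hδε : 2 * δ ≤ ε := by have := min_le_left ε 1; rw [hδ]; linarith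
  have hsq : ¬ IsSquare (b ^ 2 - 4 * (a * c₀)) := by
    rintro ⟨r, hr⟩
    have := mul_self_nonneg r
    linarith
  obtain ⟨N1, hN1⟩ := many ha hD e he (δ / 32) (by positivity)
  have hexc := sqf_exc (b ^ 2 - 4 * (a * c₀)) hsq δ hδ0 hδ1
  have hexc' : ∀ᶠ N : ℕ in atTop, (((Icc (-((3 * (a * N) : ℕ) : ℤ)) ((3 * (a * N) : ℕ) : ℤ)).filter
      (fun m => ∃ s : ℕ, ((a * N : ℕ) : ℝ) ^ δ < s ∧ (s : ℤ) ^ 2 ∣ m ^ 2 - (b ^ 2 - 4 * (a * c₀)))).card : ℝ) ≤
      ((a * N : ℕ) : ℝ) ^ (1 - δ / 16) := by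
    have ht : Tendsto (fun N : ℕ => a * N) atTop atTop :=
      tendsto_atTop_mono (fun N => Nat.le_mul_of_pos_left N (by omega)) tendsto_id
    exact ht.eventually hexc
  have hev := ev_pow (a + 1) (1 - δ / 16) (1 - δ / 32) (by linarith)
  have key : ∀ᶠ N : ℕ in atTop, (N : ℝ) ^ (1 - ε) ≤
      (((Finset.Icc (-(N : ℤ)) N).filter (fun n : ℤ => ∃ s m : ℕ,
        (a * n ^ 2 + b * n + c₀).natAbs = s ^ 2 * m ∧ (s : ℝ) ≤ (N : ℝ) ^ ε ∧
          ArithmeticFunction.moebius m = e)).card : ℝ) := by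
    filter_upwards [hexc', hev, eventually_ge_atTop N1, eventually_ge_atTop 1,
      eventually_ge_atTop b.natAbs, eventually_ge_atTop a] with N hx1 hx2 hx3 hx4 hx5 hx6
    have hNr : (1 : ℝ) ≤ N := by exact_mod_cast hx4
    have hN0 : (0 : ℝ) < N := by linarith
    have haR : (1 : ℝ) ≤ a := by exact_mod_cast ha
    have hl := hN1 N hx3
    set G := (Icc (-(N : ℤ)) N).filter (fun n => lz (a * n ^ 2 + b * n + c₀) = e) with hG
    set Bd := G.filter (fun n : ℤ => ∃ s : ℕ, ((a * N : ℕ) : ℝ) ^ δ < s ∧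
      (s : ℤ) ^ 2 ∣ a * n ^ 2 + b * n + c₀) with hBd
    set T := (Finset.Icc (-(N : ℤ)) N).filter (fun n : ℤ => ∃ s m : ℕ,
        (a * n ^ 2 + b * n + c₀).natAbs = s ^ 2 * m ∧ (s : ℝ) ≤ (N : ℝ) ^ ε ∧
          ArithmeticFunction.moebius m = e) with hT
    have hb1 : (Bd.card : ℝ) ≤ a * (N : ℝ) ^ (1 - δ / 16) := by
      have hb2 : (Bd.card : ℝ) ≤ ((a * N : ℕ) : ℝ) ^ (1 - δ / 16) := by
        refine le_trans ?_ hx1
        have hinj : Set.InjOn (fun n : ℤ => 2 * a * n + b) (Bd : Set ℤ) := by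
          intro x _ y _ hxy
          simp only at hxy
          have h2a : (2 * (a : ℤ)) ≠ 0 := by linarith
          apply mul_left_cancel₀ h2a
          linarith
        rw [← card_image_of_injOn hinj]
        have hsub : Bd.image (fun n : ℤ => 2 * a * n + b) ⊆
            (Icc (-((3 * (a * N) : ℕ) : ℤ)) ((3 * (a * N) : ℕ) : ℤ)).filter
              (fun m => ∃ s : ℕ, ((a * N : ℕ) : ℝ) ^ δ < s ∧
                (s : ℤ) ^ 2 ∣ m ^ 2 - (b ^ 2 - 4 * (a * c₀))) := by
          intro m hm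
          rw [mem_image] at hm
          obtain ⟨n, hn, rfl⟩ := hm
          rw [hBd, mem_filter, hG, mem_filter, mem_Icc] at hn
          obtain ⟨⟨⟨hn1, hn2⟩, _⟩, s, hs1, hs2⟩ := hn
          have hbN : |b| ≤ N := by
            rw [← Int.natCast_natAbs]; exact_mod_cast hx5
          have hb' := abs_le.1 hbN
          have hNz : (0 : ℤ) ≤ N := Nat.cast_nonneg _
          have hNa : (N : ℤ) ≤ a * N := by nlinarith
          rw [mem_filter, mem_Icc]
          refine ⟨⟨?_, ?_⟩, s, hs1, ?_⟩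
          · push_cast
            have : (a : ℤ) * (-(N : ℤ)) ≤ a * n := mul_le_mul_of_nonneg_left hn1 (by linarith)
            linarith [hb'.1]
          · push_cast
            have : (a : ℤ) * n ≤ a * N := mul_le_mul_of_nonneg_left hn2 (by linarith)
            linarith [hb'.2]
          · have e1 : (2 * (a : ℤ) * n + b) ^ 2 - (b ^ 2 - 4 * (a * c₀)) =
                (a * n ^ 2 + b * n + c₀) * (4 * a) := by ring
            rw [e1]
            exact Dvd.dvd.mul_right hs2 _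
        exact_mod_cast card_le_card hsub
      refine hb2.trans ?_
      push_cast
      rw [Real.mul_rpow (by linarith) (by linarith)]
      apply mul_le_mul_of_nonneg_right _ (by positivity)
      calc (a : ℝ) ^ (1 - δ / 16) ≤ (a : ℝ) ^ (1 : ℝ) :=
            Real.rpow_le_rpow_of_exponent_le haR (by linarith)
        _ = a := Real.rpow_one _
    have haN : ((a * N : ℕ) : ℝ) ^ δ ≤ (N : ℝ) ^ ε := by
      have h1 : ((a * N : ℕ) : ℝ) ≤ (N : ℝ) ^ (2 : ℝ) := by
        have h2 : (a : ℝ) ≤ N := by exact_mod_cast hx6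
        push_cast
        rw [Real.rpow_two]
        nlinarith
      calc ((a * N : ℕ) : ℝ) ^ δ ≤ ((N : ℝ) ^ (2 : ℝ)) ^ δ :=
            Real.rpow_le_rpow (Nat.cast_nonneg _) h1 hδ0.le
        _ = (N : ℝ) ^ (2 * δ) := by rw [← Real.rpow_mul hN0.le]
        _ ≤ (N : ℝ) ^ ε := Real.rpow_le_rpow_of_exponent_le hNr hδε
    have hsubT : G \ Bd ⊆ T := by
      intro n hn
      rw [Finset.mem_sdiff] at hn
      obtain ⟨hnG, hnB⟩ := hn
      have hnG' := hnG
      rw [hG, mem_filter] at hnG'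
      obtain ⟨hn1, hn2⟩ := hnG'
      rw [hT, mem_filter]
      refine ⟨hn1, ?_⟩
      have hf0 : (a * n ^ 2 + b * n + c₀).natAbs ≠ 0 := by
        rw [Int.natAbs_ne_zero]
        intro h0
        have h3 : 4 * (a : ℤ) * (a * n ^ 2 + b * n + c₀) = (2 * a * n + b) ^ 2 + (4 * (a * c₀) - b ^ 2) := by ring
        rw [h0] at h3
        have := sq_nonneg (2 * (a : ℤ) * n + b)
        linarith
      obtain ⟨m, s, hms, hsq⟩ := Nat.sq_mul_squarefree (a * n ^ 2 + b * n + c₀).natAbs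
      refine ⟨s, m, hms.symm, ?_, ?_⟩
      · by_contra hc
        push Not at hc
        apply hnB
        rw [hBd, mem_filter]
        refine ⟨hnG, s, haN.trans_lt hc, ?_⟩
        have h1 : s ^ 2 ∣ (a * n ^ 2 + b * n + c₀).natAbs := ⟨m, hms.symm⟩
        have h2 := Int.natCast_dvd.mpr h1
        push_cast at h2
        exact h2
      · have hm0 : m ≠ 0 := hsq.ne_zero
        have hs0 : s ≠ 0 := by
          rintro rfl
          simp at hms
          exact hf0 (by rw [← hms])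
        rw [ArithmeticFunction.moebius_apply_of_squarefree hsq]
        unfold lz at hn2
        rw [← hms, lam_sq_mul hs0 hm0] at hn2
        exact hn2
    have hc1 : G.card ≤ T.card + Bd.card := by
      have h1 := card_le_card hsubT
      have h2 := Finset.le_card_sdiff Bd G
      omega
    have hc2 : (G.card : ℝ) ≤ T.card + Bd.card := by exact_mod_cast hc1
    have h3 : (N : ℝ) ^ (1 - ε) ≤ (N : ℝ) ^ (1 - δ / 16) :=
      Real.rpow_le_rpow_of_exponent_le hNr (by linarith)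
    linarith
  exact eventually_atTop.mp key

end Pool.Agent.W80.GB
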