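import Pool.Agent.W80.GB.Scp
import Pool.Agent.W240.GA.A0

/-!
Project GB (helper80): the main frequency for norms prime to `a`.
-/

set_option autoImplicit false

namespace Pool.Agent.W80.GB

open Finset Filter
open Pool.Agent.H376R2.MR
open Pool.Agent.W78.GA

variable {t c : ℤ}

lemma card_class {q : ℕ} (hq : q.Prime) {a : ℕ} (hqa : ¬ q ∣ a) (M : ℤ) (L : ℕ) :
    (((Ico M (M + L)).filter (fun x => (q : ℤ) ∣ 1 + a * x)).card : ℝ) ≤ L / q + 1 := by
  have hq0 : (0 : ℤ) < q := by exact_mod_cast hq.pos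
  have hqR : (0 : ℝ) < q := by exact_mod_cast hq.pos
  by_cases hne : ((Ico M (M + L)).filter (fun x => (q : ℤ) ∣ 1 + a * x)).Nonempty
  · obtain ⟨v, hv⟩ := hne
    rw [mem_filter] at hv
    have hsub : (Ico M (M + L)).filter (fun x => (q : ℤ) ∣ 1 + a * x) ⊆
        (Ico M (M + L)).filter (fun x => x ≡ v [ZMOD q]) := by
      intro x hx
      rw [mem_filter] at hx ⊢
      refine ⟨hx.1, ?_⟩
      rw [Int.modEq_iff_dvd]
      have h1 : (q : ℤ) ∣ a * (v - x) := by
        have := dvd_sub hv.2 hx.2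
        have e : 1 + (a : ℤ) * v - (1 + a * x) = a * (v - x) := by ring
        rwa [e] at this
      rcases (Nat.prime_iff_prime_int.1 hq).dvd_or_dvd h1 with h | h
      · exact absurd (by exact_mod_cast h) hqa
      · exact h
    have h1 := Int.Ico_filter_modEq_card M (M + L) hq0 v
    have h2 : (((Ico M (M + L)).filter (fun x => x ≡ v [ZMOD q])).card : ℝ) ≤ L / q + 1 := by
      have h3 : (((Ico M (M + L)).filter (fun x => x ≡ v [ZMOD q])).card : ℤ) ≤
          max (⌈((M + L : ℤ) - v : ℚ) / (q : ℤ)⌉ - ⌈((M : ℤ) - v : ℚ) / (q : ℤ)⌉) 0 := by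
        rw [← h1]
      have h4 : ((⌈((M + L : ℤ) - v : ℚ) / (q : ℤ)⌉ - ⌈((M : ℤ) - v : ℚ) / (q : ℤ)⌉ : ℤ) : ℚ) ≤ L / q + 1 := by
        have a1 := Int.ceil_lt_add_one (((M + L : ℤ) - v : ℚ) / (q : ℤ))
        have a2 := Int.le_ceil (((M : ℤ) - v : ℚ) / (q : ℤ))
        push_cast at a1 a2 ⊢
        have a3 : ((M : ℚ) + L - v) / q = ((M : ℚ) - v) / q + L / q := by ring
        linarith
      have h5 : ((max (⌈((M + L : ℤ) - v : ℚ) / (q : ℤ)⌉ - ⌈((M : ℤ) - v : ℚ) / (q : ℤ)⌉) 0 : ℤ) : ℚ) ≤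
          L / q + 1 := by
        push_cast at h4 ⊢
        exact max_le h4 (by positivity)
      have h6 : ((((Ico M (M + L)).filter (fun x => x ≡ v [ZMOD q])).card : ℤ) : ℚ) ≤ L / q + 1 :=
        le_trans (by exact_mod_cast h3) h5
      have h7 : (((((Ico M (M + L)).filter (fun x => x ≡ v [ZMOD q])).card : ℚ)) : ℝ) ≤
          ((L / q + 1 : ℚ) : ℝ) := by exact_mod_cast h6
      push_cast at h7
      exact h7
    exact le_trans (by exact_mod_cast card_le_card hsub) h2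
  · rw [not_nonempty_iff_eq_empty] at hne
    rw [hne]
    simp
    positivity

lemma card_mult {q : ℕ} (L : ℕ) :
    (((Icc 1 L).filter (fun y => q ∣ y)).card : ℝ) ≤ L / q := by
  have h : (Icc 1 L).filter (fun y => q ∣ y) = (Ioc 0 L).filter (fun y => q ∣ y) := by
    ext y; simp only [mem_filter, mem_Icc, mem_Ioc]; constructor <;> rintro ⟨h1, h2⟩ <;>
    exact ⟨by omega, h2⟩
  rw [h, Nat.Ioc_filter_dvd_card_eq_div]
  exact Nat.cast_div_le

lemma sum_recip_le (L : ℕ) (hL : 90000 ≤ L) :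
    ∑ q ∈ (range (L + 1)).filter Nat.Prime, 1 / (q : ℝ) ≤ 0.01 * L := by
  have h1 : ∑ q ∈ (range (L + 1)).filter Nat.Prime, 1 / (q : ℝ) ≤ ∑ i ∈ range L, 1 / ((i : ℝ) + 1) := by
    have h2 : ∑ i ∈ range L, 1 / ((i : ℝ) + 1) = ∑ q ∈ Ioc 0 L, 1 / (q : ℝ) := by
      rw [show Ioc 0 L = (range L).image (fun i => i + 1) by
        ext x; simp only [mem_Ioc, mem_image, mem_range]
        constructor
        · rintro ⟨h1, h2⟩; exact ⟨x - 1, by omega, by omega⟩
        · rintro ⟨y, h1, rfl⟩; omega]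
      rw [sum_image (by intro x _ y _ h; simpa using h)]
      push_cast
      rfl
    rw [h2]
    apply sum_le_sum_of_subset_of_nonneg
    · intro q hq
      rw [mem_filter, mem_range] at hq
      rw [mem_Ioc]
      exact ⟨hq.2.pos, by omega⟩
    · intro _ _ _; positivity
  have h3 : ∑ i ∈ range L, 1 / ((i : ℝ) + 1) ≤ 1 + Real.log L := by
    have := harmonic_le_one_add_log L
    refine le_trans (le_of_eq ?_) this
    unfold harmonic
    push_cast
    refine sum_congr rfl fun i _ => ?_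
    rw [one_div]
  have h4 : Real.log L ≤ 2 * Real.sqrt L := by
    have hLp : (0 : ℝ) < L := by positivity
    have h5 : Real.log L = 2 * Real.log (Real.sqrt L) := by
      rw [Real.log_sqrt hLp.le]; ring
    have h6 := Real.log_le_sub_one_of_pos (Real.sqrt_pos.2 hLp)
    rw [h5]; linarith
  have h7 : (300 : ℝ) ≤ Real.sqrt L := by
    apply Real.le_sqrt_of_sq_le
    have : (90000 : ℝ) ≤ L := by exact_mod_cast hL
    linarith
  have h8 : Real.sqrt L * Real.sqrt L = L := Real.mul_self_sqrt (by positivity)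
  nlinarith

lemma cop_pairs (a L : ℕ) (M : ℤ) (hL : 90000 ≤ L) :
    (L : ℝ) ^ 2 / 2 ≤ (((Ico M (M + L) ×ˢ Icc 1 L).filter
      (fun p : ℤ × ℕ => Int.gcd (1 + a * p.1) (a * p.2) = 1)).card : ℝ) := by
  classical
  have hLR : (90000 : ℝ) ≤ L := by exact_mod_cast hL
  set S := (Ico M (M + L) ×ˢ Icc 1 L) with hS
  have hcard : (S.card : ℝ) = (L : ℝ) ^ 2 := by
    rw [hS, card_product, Int.card_Ico, Nat.card_Icc]
    simp
    ring
  have hsplit := Finset.card_filter_add_card_filter_not (s := S)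
    (fun p : ℤ × ℕ => Int.gcd (1 + a * p.1) (a * p.2) = 1)
  have hbad : ((S.filter (fun p : ℤ × ℕ => ¬ Int.gcd (1 + a * p.1) (a * p.2) = 1)).card : ℝ) ≤
      (L : ℝ) ^ 2 / 2 := by
    have hsub : S.filter (fun p : ℤ × ℕ => ¬ Int.gcd (1 + a * p.1) (a * p.2) = 1) ⊆
        ((range (L + 1)).filter (fun q => q.Prime ∧ ¬ q ∣ a)).biUnion (fun q =>
          ((Ico M (M + L)).filter (fun x => (q : ℤ) ∣ 1 + a * x)) ×ˢ
            ((Icc 1 L).filter (fun y => q ∣ y))) := by
      rintro ⟨x, y⟩ hp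
      rw [mem_filter, hS, mem_product] at hp
      obtain ⟨⟨hx, hy⟩, hg⟩ := hp
      simp only at hx hy hg
      obtain ⟨q, hq, hqg⟩ := Nat.exists_prime_and_dvd hg
      have h1 : (q : ℤ) ∣ 1 + a * x := (Int.natCast_dvd_natCast.2 hqg).trans (Int.gcd_dvd_left _ _)
      have h2 : (q : ℤ) ∣ a * y := (Int.natCast_dvd_natCast.2 hqg).trans (Int.gcd_dvd_right _ _)
      have hqi := Nat.prime_iff_prime_int.1 hq
      have h3 : ¬ q ∣ a := by
        intro h
        have h4 : (q : ℤ) ∣ a := by exact_mod_cast h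
        have h5 : (q : ℤ) ∣ 1 := by
          have := dvd_sub h1 (h4.mul_right x)
          simpa using this
        exact hqi.not_isUnit (isUnit_of_dvd_one h5)
      have h4 : q ∣ y := by
        rcases hqi.dvd_or_dvd h2 with h | h
        · exact absurd (by exact_mod_cast h) h3
        · exact_mod_cast h
      rw [mem_Icc] at hy
      rw [mem_biUnion]
      refine ⟨q, ?_, ?_⟩
      · rw [mem_filter, mem_range]
        have := Nat.le_of_dvd (by omega) h4
        exact ⟨by omega, hq, h3⟩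
      · rw [mem_product, mem_filter, mem_filter]
        exact ⟨⟨hx, h1⟩, mem_Icc.2 hy, h4⟩
    have h1 : ((S.filter (fun p : ℤ × ℕ => ¬ Int.gcd (1 + a * p.1) (a * p.2) = 1)).card : ℝ) ≤
        ∑ q ∈ (range (L + 1)).filter (fun q => q.Prime ∧ ¬ q ∣ a), ((L : ℝ) / q + 1) * (L / q) := by
      have h0 := (card_le_card hsub).trans card_biUnion_le
      refine le_trans (Nat.cast_le.2 h0) ?_
      push_cast
      apply sum_le_sum
      intro q hq
      rw [mem_filter] at hq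
      rw [card_product]
      push_cast
      exact mul_le_mul (card_class hq.2.1 hq.2.2 M L) (card_mult L) (Nat.cast_nonneg _)
        (by positivity)
    have h2 : ∑ q ∈ (range (L + 1)).filter (fun q => q.Prime ∧ ¬ q ∣ a), ((L : ℝ) / q + 1) * (L / q) ≤
        ∑ q ∈ (range (L + 1)).filter Nat.Prime, ((L : ℝ) / q + 1) * (L / q) := by
      apply sum_le_sum_of_subset_of_nonneg
      · intro q hq
        rw [mem_filter] at hq ⊢
        exact ⟨hq.1, hq.2.1⟩
      · intro _ _ _; positivity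
    have h3 : ∑ q ∈ (range (L + 1)).filter Nat.Prime, ((L : ℝ) / q + 1) * (L / q) =
        (L : ℝ) ^ 2 * ∑ q ∈ (range (L + 1)).filter Nat.Prime, 1 / (q : ℝ) ^ 2 +
          L * ∑ q ∈ (range (L + 1)).filter Nat.Prime, 1 / (q : ℝ) := by
      rw [mul_sum, mul_sum, ← sum_add_distrib]
      refine sum_congr rfl fun q hq => ?_
      rw [mem_filter] at hq
      have : (q : ℝ) ≠ 0 := by exact_mod_cast hq.2.ne_zero
      field_simp
    have h4 := Pool.Agent.W240.GA.A0.prime_sum (L + 1)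
    have h5 := sum_recip_le L hL
    have h6 : (L : ℝ) ^ 2 * ∑ q ∈ (range (L + 1)).filter Nat.Prime, 1 / (q : ℝ) ^ 2 ≤
        (L : ℝ) ^ 2 * 0.4862 := mul_le_mul_of_nonneg_left h4 (by positivity)
    have h7 : L * ∑ q ∈ (range (L + 1)).filter Nat.Prime, 1 / (q : ℝ) ≤ L * (0.01 * L) :=
      mul_le_mul_of_nonneg_left h5 (by positivity)
    nlinarith
  have h8 : (S.card : ℝ) = ((S.filter (fun p : ℤ × ℕ => Int.gcd (1 + a * p.1) (a * p.2) = 1)).card : ℝ) +
      ((S.filter (fun p : ℤ × ℕ => ¬ Int.gcd (1 + a * p.1) (a * p.2) = 1)).card : ℝ) := by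
    exact_mod_cast hsplit.symm
  rw [hcard] at h8
  linarith

theorem a0c (hD : t ^ 2 < 4 * c) {a : ℕ} (ha : 1 ≤ a) : S_A0c t c a := by
  classical
  set κ : ℝ := |(t : ℝ)| + |(c : ℝ)| + 1 with hκ
  have hκ1 : 1 ≤ κ := by
    have := abs_nonneg (t : ℝ); have := abs_nonneg (c : ℝ); rw [hκ]; linarith
  have hκ0 : 0 < κ := by linarith
  set δ : ℝ := 1 / (100 * κ) with hδ
  have hδ0 : 0 < δ := by positivity
  have hκδ : κ * δ = 0.01 := by rw [hδ]; field_simp; norm_num
  have hδ1 : δ ≤ 0.01 := by nlinarith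
  have haR : (1 : ℝ) ≤ a := by exact_mod_cast ha
  have ha0 : (0 : ℝ) < a := by linarith
  refine ⟨δ ^ 2 / (20 * a ^ 2), by positivity, (90001 * a / δ) ^ 2, fun Y hY => ?_⟩
  set R : ℝ := Real.sqrt Y with hR
  have hY0 : 0 < Y := lt_of_lt_of_le (by positivity) hY
  have hR2 : R ^ 2 = Y := Real.sq_sqrt hY0.le
  have hRbig : 90001 * a / δ ≤ R := Real.le_sqrt_of_sq_le hY
  have hR0 : 0 < R := Real.sqrt_pos.2 hY0
  have hRa : 90001 ≤ δ * R / a := by
    rw [le_div_iff₀ ha0]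
    rw [div_le_iff₀ hδ0] at hRbig
    linarith
  have hδR : 1 ≤ δ * R := by
    rw [le_div_iff₀ ha0] at hRa
    linarith
  set M : ℤ := ⌈R / a⌉ with hM
  set L : ℕ := ⌊δ * R / a⌋₊ with hL
  have hM1 : R / a ≤ M := Int.le_ceil _
  have hM2 : (M : ℝ) < R / a + 1 := Int.ceil_lt_add_one _
  have hL1 : (L : ℝ) ≤ δ * R / a := Nat.floor_le (by positivity)
  have hL2 : δ * R / a - 1 < L := Nat.sub_one_lt_floor _
  have hL90 : 90000 ≤ L := by
    have : (90000 : ℝ) < L := by linarith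
    exact_mod_cast this.le
  have hcop := cop_pairs a L M hL90
  set S := (Ico M (M + L) ×ˢ Icc 1 L).filter
      (fun p : ℤ × ℕ => Int.gcd (1 + a * p.1) (a * p.2) = 1) with hS
  set F : ℤ × ℕ → Qd t c := fun p => ⟨1 + a * p.1, a * p.2⟩ with hF
  have hinj : Set.InjOn F S := by
    rintro ⟨x, y⟩ _ ⟨x', y'⟩ _ h
    have h1 := congrArg QuadraticAlgebra.re h
    have h2 := congrArg QuadraticAlgebra.im h
    simp only [hF] at h1 h2
    have haz : (a : ℤ) ≠ 0 := by exact_mod_cast (by omega : a ≠ 0)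
    have h3 : x = x' := by
      apply mul_left_cancel₀ haz; linarith
    have h4 : (y : ℤ) = y' := mul_left_cancel₀ haz h2
    rw [h3]
    congr 1
    exact_mod_cast h4
  have key : ∀ p ∈ S, F p ∈ pball t c (Real.exp 1 * Y) ∧ 0.4 / Y ≤ (ca a (F p) : ℝ) * bg Y (F p) := by
    rintro ⟨x₁, y₁⟩ hp
    rw [hS, mem_filter, mem_product, mem_Ico, mem_Icc] at hp
    obtain ⟨⟨⟨hx1, hx2⟩, hy1, hy2⟩, hg⟩ := hp
    simp only at hx1 hx2 hy1 hy2 hg
    have hprim : prim (F (x₁, y₁)) := hg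
    have hz0 := prim_ne_zero hprim
    set x : ℝ := 1 + a * (x₁ : ℝ) with hx
    set y : ℝ := a * (y₁ : ℝ) with hy
    have hnm : (nm (F (x₁, y₁)) : ℝ) = x ^ 2 + t * x * y + c * y ^ 2 := by
      rw [nm_castR hD]
      simp only [hF]
      push_cast
      rw [hx, hy]
    have hx1R : (M : ℝ) ≤ x₁ := by exact_mod_cast hx1
    have hx2R : (x₁ : ℝ) + 1 ≤ M + L := by exact_mod_cast hx2
    have hy2R : (y₁ : ℝ) ≤ L := by exact_mod_cast hy2
    have hxl : R ≤ x := by
      have h1 : R / a ≤ x₁ := hM1.trans hx1R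
      rw [div_le_iff₀ ha0] at h1
      rw [hx]; linarith
    have hxu : x ≤ (1 + 2 * δ) * R := by
      have h1 : (x₁ : ℝ) ≤ R / a + δ * R / a := by linarith
      have h2 : a * (x₁ : ℝ) ≤ a * (R / a + δ * R / a) := mul_le_mul_of_nonneg_left h1 ha0.le
      have h3 : a * (R / a + δ * R / a) = R + δ * R := by field_simp
      rw [hx]; linarith
    have hy0 : 0 ≤ y := by positivity
    have hyu : y ≤ δ * R := by
      have h1 : (y₁ : ℝ) ≤ δ * R / a := hy2R.trans hL1
      rw [le_div_iff₀ ha0] at h1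
      rw [hy]; linarith
    have hx0 : 0 ≤ x := by linarith
    have hxu' : x ≤ 1.02 * R := by
      have : (1 + 2 * δ) * R ≤ 1.02 * R := mul_le_mul_of_nonneg_right (by linarith) hR0.le
      linarith
    have hyx : y ≤ R := by
      have : δ * R ≤ 1 * R := mul_le_mul_of_nonneg_right (by linarith) hR0.le
      linarith
    have b1 : |(t : ℝ) * x * y| ≤ |(t : ℝ)| * (1.02 * δ * R ^ 2) := by
      rw [abs_mul, abs_mul, abs_of_nonneg hx0, abs_of_nonneg hy0, mul_assoc]
      apply mul_le_mul_of_nonneg_left _ (abs_nonneg _)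
      calc x * y ≤ (1.02 * R) * (δ * R) := mul_le_mul hxu' hyu hy0 (by positivity)
        _ = 1.02 * δ * R ^ 2 := by ring
    have b2 : |(c : ℝ) * y ^ 2| ≤ |(c : ℝ)| * (1.02 * δ * R ^ 2) := by
      rw [abs_mul, abs_of_nonneg (sq_nonneg y)]
      apply mul_le_mul_of_nonneg_left _ (abs_nonneg _)
      calc y ^ 2 = y * y := by ring
        _ ≤ (δ * R) * (1.02 * R) := mul_le_mul hyu (by linarith) hy0 (by positivity)
        _ = 1.02 * δ * R ^ 2 := by ring
    have b3 : |(t : ℝ) * x * y + c * y ^ 2| ≤ 0.02 * Y := by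
      refine (abs_add_le _ _).trans ?_
      have h1 : |(t : ℝ)| * (1.02 * δ * R ^ 2) + |(c : ℝ)| * (1.02 * δ * R ^ 2) ≤
          κ * (1.02 * δ * R ^ 2) := by
        have : 0 ≤ 1.02 * δ * R ^ 2 := by positivity
        have e : κ * (1.02 * δ * R ^ 2) = |(t : ℝ)| * (1.02 * δ * R ^ 2) + |(c : ℝ)| * (1.02 * δ * R ^ 2) +
            1.02 * δ * R ^ 2 := by rw [hκ]; ring
        linarith
      have h2 : κ * (1.02 * δ * R ^ 2) = 1.02 * (κ * δ) * R ^ 2 := by ring
      rw [h2, hκδ, hR2] at h1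
      rw [hR2] at b1 b2
      linarith
    have b3' := abs_le.1 b3
    have b4 : Y ≤ x ^ 2 := by rw [← hR2]; exact pow_le_pow_left₀ hR0.le hxl 2
    have b5 : x ^ 2 ≤ 1.0404 * Y := by
      have := pow_le_pow_left₀ hx0 hxu' 2
      rw [mul_pow, hR2] at this
      linarith
    have n1 : 0.98 * Y ≤ (nm (F (x₁, y₁)) : ℝ) := by rw [hnm]; linarith
    have n2 : (nm (F (x₁, y₁)) : ℝ) ≤ 1.0604 * Y := by rw [hnm]; linarith
    have hn0 : (0 : ℝ) < nm (F (x₁, y₁)) := by linarith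
    refine ⟨(mem_pball hD).2 ⟨hprim, ?_⟩, ?_⟩
    · have he : (2 : ℝ) ≤ Real.exp 1 := by
        have := Real.add_one_le_exp (1 : ℝ); linarith
      have h1 := mul_le_mul_of_nonneg_right he hY0.le
      linarith
    · have hcop' : (nm (F (x₁, y₁))).Coprime a := by
        rw [← Nat.isCoprime_iff_coprime, nm_cast hD]
        refine ⟨1, -(2 * x₁ + a * x₁ ^ 2 + t * (1 + a * x₁) * y₁ + c * a * y₁ ^ 2), ?_⟩
        simp only [hF]
        ring
      have hca1 : (ca a (F (x₁, y₁)) : ℝ) = 1 := by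
        unfold ca; rw [if_pos hcop']; norm_num
      rw [hca1, one_mul]
      unfold bg
      have hw : (0.5 : ℝ) ≤ w (Real.log (nm (F (x₁, y₁))) - Real.log Y) := by
        rw [← Real.log_div hn0.ne' hY0.ne']
        have hq0 : 0 < (nm (F (x₁, y₁)) : ℝ) / Y := by positivity
        have l1 := Real.log_le_sub_one_of_pos hq0
        have l2 := Real.one_sub_inv_le_log_of_pos hq0
        have l3 : (nm (F (x₁, y₁)) : ℝ) / Y ≤ 1.0604 := by rw [div_le_iff₀ hY0]; exact n2
        have l4 : ((nm (F (x₁, y₁)) : ℝ) / Y)⁻¹ ≤ 1.1 := by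
          rw [inv_div, div_le_iff₀ hn0]
          linarith
        have l5 : |Real.log ((nm (F (x₁, y₁)) : ℝ) / Y)| ≤ 0.5 := by
          rw [abs_le]; constructor <;> linarith
        unfold w
        refine le_trans ?_ (le_max_right _ _)
        linarith
      calc 0.4 / Y ≤ 0.5 / (nm (F (x₁, y₁)) : ℝ) := by
            rw [div_le_div_iff₀ hY0 hn0]; linarith
        _ ≤ _ := div_le_div_of_nonneg_right hw hn0.le
  calc δ ^ 2 / (20 * a ^ 2) ≤ (S.card : ℝ) * (0.4 / Y) := by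
        have h1 : δ * R / (2 * a) ≤ L := by
          have : δ * R / (2 * a) = (δ * R / a) / 2 := by field_simp
          rw [this]; linarith
        have h2 : (δ * R / (2 * a)) ^ 2 ≤ (L : ℝ) ^ 2 := pow_le_pow_left₀ (by positivity) h1 2
        have h3 : (δ * R / (2 * a)) ^ 2 = δ ^ 2 * Y / (4 * a ^ 2) := by
          rw [div_pow, mul_pow, hR2]; ring
        rw [h3] at h2
        have h4 : δ ^ 2 * Y / (4 * a ^ 2) / 2 ≤ (S.card : ℝ) := by linarith
        have h5 : δ ^ 2 * Y / (4 * a ^ 2) / 2 * (0.4 / Y) = δ ^ 2 / (20 * a ^ 2) := by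
          field_simp
          norm_num
        rw [← h5]
        exact mul_le_mul_of_nonneg_right h4 (by positivity)
    _ = ∑ p ∈ S, 0.4 / Y := by rw [sum_const, nsmul_eq_mul]
    _ ≤ ∑ p ∈ S, (ca a (F p) : ℝ) * bg Y (F p) := sum_le_sum fun p hp => (key p hp).2
    _ = ∑ z ∈ S.image F, (ca a z : ℝ) * bg Y z := by rw [sum_image hinj]
    _ ≤ ∑ z ∈ pball t c (Real.exp 1 * Y), (ca a z : ℝ) * bg Y z := by
        apply sum_le_sum_of_subset_of_nonneg
        · intro z hz
          rw [mem_image] at hz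
          obtain ⟨p, hp, rfl⟩ := hz
          exact (key p hp).1
        · intro z _ _
          apply mul_nonneg _ (bg_nonneg _ _)
          unfold ca; split_ifs <;> simp

end Pool.Agent.W80.GB
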