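import Pool.Agent.W80.GB.Rich

/-!
Project GB (helper80): almost all elements are rich.
-/

set_option autoImplicit false

namespace Pool.Agent.W80.GB

open Finset Filter
open Pool.Agent.H376R2.MR
open Pool.Agent.W78.GA

variable {t c : ℤ}

/-- the norm of `z` has a prime factor `q ≤ P` in every residue class modulo `A`, up to sign -/
def Rich (A P : ℕ) (z : Qd t c) : Prop := ∀ r : ℤ, IsCoprime r A → ∃ σ : ℤ, (σ = 1 ∨ σ = -1) ∧
  ∃ q : ℕ, q.Prime ∧ q ≤ P ∧ q ∣ nm z ∧ (A : ℤ) ∣ q - σ * r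

lemma class_primes (hD : t ^ 2 < 4 * c) {d : ℕ} (hd : (d : ℤ) = 4 * c - t ^ 2) {A : ℕ}
    (hA : 4 * d ∣ A) (hA0 : 0 < A) (r : ℤ) (hr : IsCoprime r A) :
    ∃ σ : ℤ, (σ = 1 ∨ σ = -1) ∧ ∀ W₀ : ℝ, ∃ (T : Finset ℕ) (ρ : ℕ → ℤ),
      (∀ q ∈ T, q.Prime ∧ (A : ℤ) ∣ q - σ * r ∧ (q : ℤ) ∣ ρ q ^ 2 - t * ρ q + c) ∧
      W₀ ≤ ∑ q ∈ T, 1 / (q : ℝ) := by
  classical
  have hd0 : 0 < d := by
    have : (0 : ℤ) < d := by rw [hd]; linarith
    exact_mod_cast this
  obtain ⟨σ, hσ, h⟩ := class_sign d hd0 A hA hA0 r hr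
  refine ⟨σ, hσ, fun W₀ => ?_⟩
  have : NeZero A := ⟨hA0.ne'⟩
  have hunit : IsUnit (((σ * r : ℤ)) : ZMod A) := by
    have h1 : IsCoprime (σ * r) (A : ℤ) := by
      rcases hσ with rfl | rfl
      · simpa using hr
      · have := hr.neg_left
        simpa using this
    obtain ⟨u, v, huv⟩ := h1
    rw [isUnit_iff_exists_inv]
    refine ⟨(u : ZMod A), ?_⟩
    have h2 := congrArg (fun x : ℤ => (x : ZMod A)) huv
    push_cast at h2
    simp only [ZMod.natCast_self, mul_zero, add_zero] at h2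
    push_cast
    rw [mul_comm]
    exact h2
  have hns := Pool.Agent.H98R3.OM.not_summable_class hunit
  rw [not_summable_iff_tendsto_nat_atTop_of_nonneg (fun n => by split_ifs <;> positivity)] at hns
  obtain ⟨n, hn⟩ := (hns.eventually_ge_atTop W₀).exists
  have hroot : ∀ q : ℕ, q.Prime → (A : ℤ) ∣ q - σ * r →
      ∃ ρ : ℤ, (q : ℤ) ∣ ρ ^ 2 - t * ρ + c := by
    intro q hq hqr
    apply split_root hD hd hq ?_ (h q hq hqr)
    -- `q` is odd
    by_contra hcon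
    rw [Nat.not_odd_iff_even] at hcon
    have h2q : q = 2 := (hq.eq_one_or_self_of_dvd 2 hcon.two_dvd).resolve_left (by norm_num) |>.symm
    have h2A : (2 : ℤ) ∣ A := by
      have : 2 ∣ A := ((by norm_num : 2 ∣ 4).trans (Dvd.intro _ rfl)).trans hA
      exact_mod_cast this
    have h3 : (2 : ℤ) ∣ σ * r := by
      have h4 := h2A.trans hqr
      rw [h2q] at h4
      have h5 : σ * r = 2 - ((2 : ℕ) - σ * r) := by push_cast; ring
      rw [h5]
      exact dvd_sub (dvd_refl _) h4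
    have h4 : (2 : ℤ) ∣ r := by
      rcases hσ with rfl | rfl
      · simpa using h3
      · simpa using h3
    obtain ⟨u, v, huv⟩ := hr
    have h5 : (2 : ℤ) ∣ 1 := by
      rw [← huv]
      exact dvd_add (Dvd.dvd.mul_left h4 _) (Dvd.dvd.mul_left h2A _)
    norm_num at h5
  have hcls : ∀ q : ℕ, (q : ZMod A) = ((σ * r : ℤ) : ZMod A) → (A : ℤ) ∣ q - σ * r := by
    intro q hq
    rw [← ZMod.intCast_zmod_eq_zero_iff_dvd _ A]
    push_cast at hq ⊢
    rw [hq, sub_self]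
  choose! ρ hρ using hroot
  refine ⟨(range n).filter (fun q => q.Prime ∧ (q : ZMod A) = ((σ * r : ℤ) : ZMod A)), ρ, ?_, ?_⟩
  · intro q hq
    rw [mem_filter] at hq
    exact ⟨hq.2.1, hcls q hq.2.2, hρ q hq.2.1 (hcls q hq.2.2)⟩
  · rw [sum_filter]
    exact hn

lemma avoid_small (hD : t ^ 2 < 4 * c) (hlat : S_LAT t c) {δ : ℝ} (hδ : 0 < δ) (T : Finset ℕ)
    (hT : ∀ q ∈ T, q.Prime) (ρ : ℕ → ℤ) (hW : 2 * kap t c / δ + 1 ≤ ∑ q ∈ T, 1 / (q : ℝ)) :
    ∃ X₀ : ℝ, ∀ X : ℝ, X₀ ≤ X → (open scoped Classical in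
      (((ball t c X).filter (fun z => ∀ q ∈ T, ¬ lat q (ρ q) z)).card : ℝ)) ≤ δ * X := by
  classical
  obtain ⟨C, hC, hball, -⟩ := hlat
  have hk := kap_pos' hD
  set W : ℝ := ∑ q ∈ T, 1 / (q : ℝ) with hWdef
  have hW1 : 1 ≤ W := by
    have : 0 ≤ 2 * kap t c / δ := by positivity
    linarith
  set B : ℝ := 4 * C * ((T.card : ℝ) + 1) ^ 2 with hB
  have hB0 : 0 ≤ B := by positivity
  refine ⟨max 1 ((2 * B / δ) ^ 2), fun X hX => ?_⟩
  have hX1 : 1 ≤ X := (le_max_left _ _).trans hX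
  have hX2 : (2 * B / δ) ^ 2 ≤ X := (le_max_right _ _).trans hX
  have hX0 : 0 < X := by linarith
  have h1 := avoid_le hD hX1 hC (fun d r hd => hball X d r hX1 hd) T hT ρ
  rw [← hWdef] at h1
  set N : ℝ := (((ball t c X).filter (fun z => ∀ q ∈ T, ¬ lat q (ρ q) z)).card : ℝ) with hN
  have hN0 : 0 ≤ N := by rw [hN]; positivity
  have hs : 2 * B / δ ≤ Real.sqrt X := Real.le_sqrt_of_sq_le hX2
  have hsX : Real.sqrt X * Real.sqrt X = X := Real.mul_self_sqrt hX0.le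
  have h2 : B * Real.sqrt X ≤ δ / 2 * X := by
    rw [div_le_iff₀ hδ] at hs
    have : 0 ≤ Real.sqrt X := Real.sqrt_nonneg _
    nlinarith
  have h3 : kap t c * X ≤ δ / 2 * X * W := by
    have h4 : 2 * kap t c ≤ δ * W := by
      have : 2 * kap t c / δ ≤ W := by linarith
      rw [div_le_iff₀ hδ] at this
      linarith
    nlinarith
  have h5 : N * W ^ 2 ≤ δ / 2 * X * W ^ 2 + δ / 2 * X := by
    calc N * W ^ 2 ≤ kap t c * X * W + 4 * (C * Real.sqrt X) * ((T.card : ℝ) + 1) ^ 2 := h1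
      _ = kap t c * X * W + B * Real.sqrt X := by rw [hB]; ring
      _ ≤ δ / 2 * X * W * W + δ / 2 * X := by
          apply add_le_add _ h2
          exact mul_le_mul_of_nonneg_right h3 (by linarith)
      _ = _ := by ring
  have h6 : N * W ^ 2 ≤ (δ * X) * W ^ 2 := by
    have h7 : (1 : ℝ) ≤ W ^ 2 := one_le_pow₀ hW1
    have h8 : 0 ≤ δ / 2 * X := by positivity
    nlinarith
  exact le_of_mul_le_mul_right h6 (by positivity)

theorem rich_all (hD : t ^ 2 < 4 * c) (hlat : S_LAT t c) {d : ℕ} (hd : (d : ℤ) = 4 * c - t ^ 2)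
    {A : ℕ} (hA : 4 * d ∣ A) (hA0 : 0 < A) {δ : ℝ} (hδ : 0 < δ) :
    ∃ (P : ℕ) (X₀ : ℝ), ∀ X : ℝ, X₀ ≤ X → (open scoped Classical in
      (((ball t c X).filter (fun z => ¬ Rich A P z)).card : ℝ)) ≤ δ * X := by
  classical
  have hAR : (0 : ℝ) < A := by exact_mod_cast hA0
  have hAz : (0 : ℤ) < A := by exact_mod_cast hA0
  -- one class
  have hone : ∀ b : ℕ, ∃ (P : ℕ) (X₀ : ℝ), IsCoprime (b : ℤ) A → ∀ X : ℝ, X₀ ≤ X →
      (((ball t c X).filter (fun z => ¬ ∃ σ : ℤ, (σ = 1 ∨ σ = -1) ∧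
        ∃ q : ℕ, q.Prime ∧ q ≤ P ∧ q ∣ nm z ∧ (A : ℤ) ∣ q - σ * b)).card : ℝ) ≤ δ / A * X := by
    intro b
    by_cases hb : IsCoprime (b : ℤ) A
    · obtain ⟨σ, hσ, h⟩ := class_primes hD hd hA hA0 b hb
      obtain ⟨T, ρ, hT, hW⟩ := h (2 * kap t c / (δ / A) + 1)
      obtain ⟨X₀, hX₀⟩ := avoid_small hD hlat (by positivity : 0 < δ / A) T
        (fun q hq => (hT q hq).1) ρ hW
      refine ⟨T.sup id, X₀, fun _ X hX => ?_⟩
      refine le_trans ?_ (hX₀ X hX)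
      have : ((ball t c X).filter (fun z => ¬ ∃ σ : ℤ, (σ = 1 ∨ σ = -1) ∧
        ∃ q : ℕ, q.Prime ∧ q ≤ T.sup id ∧ q ∣ nm z ∧ (A : ℤ) ∣ q - σ * b)) ⊆
        (ball t c X).filter (fun z => ∀ q ∈ T, ¬ lat q (ρ q) z) := by
        intro z hz
        rw [mem_filter] at hz ⊢
        refine ⟨hz.1, fun q hq hl => hz.2 ⟨σ, hσ, q, (hT q hq).1, Finset.le_sup (f := id) hq, ?_,
          (hT q hq).2.1⟩⟩
        exact nm_mod_lat hD (hT q hq).2.2 hl
      exact_mod_cast card_le_card this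
    · exact ⟨0, 0, fun h => absurd h hb⟩
  choose P X₀ hP using hone
  refine ⟨(range A).sup P, ∑ b ∈ range A, |X₀ b|, fun X hX => ?_⟩
  have hsub : (ball t c X).filter (fun z => ¬ Rich A ((range A).sup P) z) ⊆
      ((range A).filter (fun b : ℕ => IsCoprime (b : ℤ) A)).biUnion (fun b : ℕ =>
        (ball t c X).filter (fun z => ¬ ∃ σ : ℤ, (σ = 1 ∨ σ = -1) ∧
        ∃ q : ℕ, q.Prime ∧ q ≤ P b ∧ q ∣ nm z ∧ (A : ℤ) ∣ q - σ * b)) := by
    intro z hz
    rw [mem_filter] at hz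
    obtain ⟨hz1, hz2⟩ := hz
    unfold Rich at hz2
    push Not at hz2
    obtain ⟨r, hr, h⟩ := hz2
    obtain ⟨b, hb⟩ : ∃ b : ℕ, (b : ℤ) = r % A :=
      ⟨(r % A).toNat, Int.toNat_of_nonneg (Int.emod_nonneg _ hAz.ne')⟩
    have hbr : (A : ℤ) ∣ r - b := by
      rw [hb]
      exact Int.dvd_self_sub_emod
    have hblt : b < A := by
      have : (b : ℤ) < A := by rw [hb]; exact Int.emod_lt_of_pos _ hAz
      exact_mod_cast this
    have hbc : IsCoprime (b : ℤ) A := by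
      rw [hb]
      have h1 : r % A = r + A * (-(r / A)) := by
        have := Int.emod_add_mul_ediv r A
        linarith
      rw [h1]
      exact IsCoprime.add_mul_left_left hr _
    rw [mem_biUnion]
    refine ⟨b, by rw [mem_filter, mem_range]; exact ⟨hblt, hbc⟩, ?_⟩
    rw [mem_filter]
    refine ⟨hz1, ?_⟩
    rintro ⟨σ, hσ, q, hq, hqP, hqn, hqb⟩
    refine h σ hσ q hq (hqP.trans (Finset.le_sup (mem_range.2 hblt))) hqn ?_
    have e : (q : ℤ) - σ * r = (q - σ * b) - σ * (r - b) := by ring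
    rw [e]
    exact dvd_sub hqb (Dvd.dvd.mul_left hbr _)
  calc (((ball t c X).filter (fun z => ¬ Rich A ((range A).sup P) z)).card : ℝ)
      ≤ ((((range A).filter (fun b : ℕ => IsCoprime (b : ℤ) A)).biUnion (fun b : ℕ =>
        (ball t c X).filter (fun z => ¬ ∃ σ : ℤ, (σ = 1 ∨ σ = -1) ∧
        ∃ q : ℕ, q.Prime ∧ q ≤ P b ∧ q ∣ nm z ∧ (A : ℤ) ∣ q - σ * b))).card : ℝ) := by
        exact_mod_cast card_le_card hsub
    _ ≤ ∑ b ∈ (range A).filter (fun b : ℕ => IsCoprime (b : ℤ) A),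
        (((ball t c X).filter (fun z => ¬ ∃ σ : ℤ, (σ = 1 ∨ σ = -1) ∧
        ∃ q : ℕ, q.Prime ∧ q ≤ P b ∧ q ∣ nm z ∧ (A : ℤ) ∣ q - σ * b)).card : ℝ) := by
        exact_mod_cast card_biUnion_le
    _ ≤ ∑ b ∈ (range A).filter (fun b : ℕ => IsCoprime (b : ℤ) A), δ / A * X := by
        refine sum_le_sum fun b hb => ?_
        rw [mem_filter, mem_range] at hb
        apply hP b hb.2 X
        refine le_trans ?_ hX
        refine (le_abs_self _).trans ?_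
        exact single_le_sum (f := fun b => |X₀ b|) (fun _ _ => abs_nonneg _) (mem_range.2 hb.1)
    _ ≤ ∑ _b ∈ range A, δ / A * X := by
        apply sum_le_sum_of_subset_of_nonneg (filter_subset _ _)
        intro b _ _
        have : 0 ≤ X := le_trans (sum_nonneg fun _ _ => abs_nonneg _) hX
        positivity
    _ = δ * X := by
        rw [sum_const, card_range, nsmul_eq_mul]
        field_simp

end Pool.Agent.W80.GB
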