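import Pool.Agent.W80.GB.Scp
import Pool.Agent.H304R2.Legendre

/-!
Project GB (helper80): an element whose norm is prime to `a` and has an odd number of prime factors.
-/

set_option autoImplicit false

namespace Pool.Agent.W80.GB

open Finset Filter
open Pool.Agent.H304R2 (exists_prime_root box_pigeon no_sol)
open Pool.Agent.W78.GA
open Pool.Agent.W803.GA (exists_primpart)

theorem exists_norm_prime' (D : ℤ) (hD : ¬ IsSquare D) :
    ∃ p : ℕ, p.Prime ∧ (4 * D) ∣ (p : ℤ) - 1 ∧ ∃ x y w : ℤ, 0 < x ∧ 0 < y ∧ 0 < w ∧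
      x ^ 2 - D * y ^ 2 = p * w ^ 2 := by
  have hD0 : D ≠ 0 := by rintro rfl; exact hD ⟨0, by simp⟩
  have hpos := Int.natAbs_pos.mpr hD0
  obtain ⟨p, hp, hmod, hgt, ν, hν⟩ := exists_prime_root D hD0
  have hp0 : (0 : ℤ) < p := by exact_mod_cast hp.pos
  obtain ⟨x, y, z, hne, hx, hy, hz, d1, d2, d3⟩ := box_pigeon D.natAbs hpos p hp.pos ν
  have hpi : Prime (p : ℤ) := Nat.prime_iff_prime_int.mp hp
  have hpD : ¬ (p : ℤ) ∣ D := by
    intro h
    have h2 := Int.natAbs_dvd_natAbs.mpr h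
    rw [Int.natAbs_natCast] at h2
    have := Nat.le_of_dvd hpos h2
    omega
  have hm1 : (4 * D) ∣ (p : ℤ) - 1 := by
    have h1 := (Nat.modEq_iff_dvd.mp hmod.symm)
    push_cast at h1
    have h2 : |4 * D| ∣ (p : ℤ) - 1 := by
      rw [abs_mul]; simpa using h1
    exact (abs_dvd _ _).mp h2
  -- reduce to a statement with nonzero coordinates
  suffices h : ∃ x y w : ℤ, w ≠ 0 ∧ x ^ 2 - D * y ^ 2 = p * w ^ 2 by
    obtain ⟨x, y, w, hw, h⟩ := h
    have hx0 : x ≠ 0 := by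
      rintro rfl
      apply no_sol (-D) p hp (by rwa [dvd_neg]) y w hw
      linarith
    have hy0 : y ≠ 0 := by
      rintro rfl
      apply no_sol 1 p hp (fun h => hpi.not_isUnit (isUnit_of_dvd_one h)) x w hw
      linarith
    exact ⟨p, hp, hm1, |x|, |y|, |w|, abs_pos.mpr hx0, abs_pos.mpr hy0, abs_pos.mpr hw, by
      rw [sq_abs, sq_abs, sq_abs]; exact h⟩
  set F := x ^ 2 - D * y ^ 2 - p * z ^ 2 with hF
  have hDa : (D.natAbs : ℤ) = |D| := Int.natCast_natAbs D
  rw [hDa] at hx hz d2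
  -- divisibility by 4 |D|
  have hm2 : (2 * D) ∣ x - z := by
    have h2 : |2 * D| ∣ x - z := by
      rw [abs_mul]; simpa using d2
    exact (abs_dvd _ _).mp h2
  obtain ⟨k, hk⟩ := hm2
  obtain ⟨y', hy'⟩ := d1
  obtain ⟨l, hl⟩ := hm1
  have f1 : (4 * D) ∣ F := by
    refine ⟨k * z + D * k ^ 2 - y' ^ 2 - l * z ^ 2, ?_⟩
    have hx' : x = z + 2 * D * k := by linarith
    have hp' : (p : ℤ) = 1 + 4 * D * l := by linarith
    rw [hF, hx', hy', hp']
    ring
  have f2 : (p : ℤ) ∣ F := by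
    obtain ⟨m, hm⟩ := d3
    obtain ⟨n, hn⟩ := hν
    refine ⟨p * m ^ 2 + 2 * m * ν * y + n * y ^ 2 - z ^ 2, ?_⟩
    have hx' : x = ν * y + p * m := by linarith
    have hD' : D = ν ^ 2 - p * n := by linarith
    have : F = (ν * y + p * m) ^ 2 - (ν ^ 2 - p * n) * y ^ 2 - p * z ^ 2 := by
      rw [hF, ← hx', ← hD']
    rw [this]
    ring
  have cop : IsCoprime (4 * D) (p : ℤ) := by
    refine ⟨-l, 1, ?_⟩
    linarith
  have f3 : (4 * D) * p ∣ F := cop.mul_dvd f1 f2
  obtain ⟨m, hm⟩ := f3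
  have hcase : F = 0 ∨ F = -(4 * D * p) := by
    rcases lt_or_gt_of_ne hD0 with hneg | hposD
    · rw [abs_of_neg hneg] at hx hz
      have g1 : F ≤ 6 * (-D) * p := by
        have : (-D) * y ^ 2 ≤ (-D) * (3 * p) := mul_le_mul_of_nonneg_left hy (by linarith)
        have h3 : 0 ≤ p * z ^ 2 := by positivity
        rw [hF]; linarith
      have g2 : -(3 * (-D) * p) ≤ F := by
        have : p * z ^ 2 ≤ p * (3 * -D) := mul_le_mul_of_nonneg_left hz hp0.le
        have h3 : 0 ≤ (-D) * y ^ 2 := mul_nonneg (by linarith) (sq_nonneg _)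
        have h4 := sq_nonneg x
        rw [hF]; linarith
      have hDp : 0 < (-D) * p := mul_pos (by linarith) hp0
      rw [hm] at g1 g2
      have m1 : m ≤ 0 := by
        by_contra hc
        have : (-D) * p * 1 ≤ (-D) * p * m := mul_le_mul_of_nonneg_left (by omega) hDp.le
        nlinarith
      have m2 : -1 ≤ m := by
        by_contra hc
        have : (-D) * p * m ≤ (-D) * p * (-2) := mul_le_mul_of_nonneg_left (by omega) hDp.le
        nlinarith
      have : m = 0 ∨ m = -1 := by omega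
      rcases this with h | h
      · left; rw [hm, h]; ring
      · right; rw [hm, h]; ring
    · rw [abs_of_pos hposD] at hx hz
      have g1 : F ≤ 3 * D * p := by
        have : 0 ≤ D * y ^ 2 := by positivity
        have h3 : 0 ≤ p * z ^ 2 := by positivity
        rw [hF]; linarith
      have g2 : -(6 * D * p) ≤ F := by
        have : p * z ^ 2 ≤ p * (3 * D) := mul_le_mul_of_nonneg_left hz hp0.le
        have h3 : D * y ^ 2 ≤ D * (3 * p) := mul_le_mul_of_nonneg_left hy hposD.le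
        have h4 := sq_nonneg x
        rw [hF]; linarith
      have hDp : 0 < D * p := mul_pos hposD hp0
      rw [hm] at g1 g2
      have m1 : m ≤ 0 := by
        by_contra hc
        have : D * p * 1 ≤ D * p * m := mul_le_mul_of_nonneg_left (by omega) hDp.le
        nlinarith
      have m2 : -1 ≤ m := by
        by_contra hc
        have : D * p * m ≤ D * p * (-2) := mul_le_mul_of_nonneg_left (by omega) hDp.le
        nlinarith
      have : m = 0 ∨ m = -1 := by omega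
      rcases this with h | h
      · left; rw [hm, h]; ring
      · right; rw [hm, h]; ring
  rcases hcase with h0 | h4
  · refine ⟨x, y, z, ?_, by linarith⟩
    rintro rfl
    have h5 : x ^ 2 = D * y ^ 2 := by linarith
    have hy0 : y ≠ 0 := by
      rintro rfl
      have : x = 0 := by
        have : x ^ 2 = 0 := by linarith
        exact pow_eq_zero_iff (two_ne_zero) |>.mp this
      exact hne (by rw [this])
    apply hD
    have : y ^ 2 ∣ x ^ 2 := ⟨D, by linarith⟩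
    obtain ⟨q, hq⟩ := (Int.pow_dvd_pow_iff (two_ne_zero)).mp this
    refine ⟨q, ?_⟩
    have h6 : y ^ 2 * D = y ^ 2 * (q * q) := by rw [hq] at h5; linarith
    exact mul_left_cancel₀ (pow_ne_zero 2 hy0) h6
  · refine ⟨x * z - 2 * D * y, y * z - 2 * x, z ^ 2 - 4 * D, ?_, ?_⟩
    · intro h
      apply hD
      have : (2 : ℤ) ^ 2 ∣ z ^ 2 := ⟨D, by linarith⟩
      obtain ⟨q, hq⟩ := (Int.pow_dvd_pow_iff (two_ne_zero)).mp this
      refine ⟨q, ?_⟩
      rw [hq] at h
      linarith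
    · have h5 : x ^ 2 - D * y ^ 2 = p * (z ^ 2 - 4 * D) := by linarith
      have : (x * z - 2 * D * y) ^ 2 - D * (y * z - 2 * x) ^ 2 =
          (x ^ 2 - D * y ^ 2) * (z ^ 2 - 4 * D) := by ring
      rw [this, h5]
      ring


/-- square roots modulo `4 a^k` -/
lemma sqrt_lift {p a : ℤ} (h : 4 * a ∣ p - 1) (k : ℕ) (hk : 1 ≤ k) :
    ∃ c : ℤ, 2 * a ∣ c - 1 ∧ 4 * a ^ k ∣ c ^ 2 - p := by
  induction k, hk using Nat.le_induction with
  | base =>
    refine ⟨1, by simp, ?_⟩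
    rw [pow_one, one_pow]
    rw [← dvd_neg]; simpa using h
  | succ k hk ih =>
    obtain ⟨c, hc1, e, he⟩ := ih
    obtain ⟨g, hg⟩ := hc1
    -- `c` is coprime to `a`
    have hcop : ∃ f u : ℤ, f * c = -e + a * u := by
      refine ⟨-e, e * (-2 * g), ?_⟩
      have : c = 1 + 2 * a * g := by linarith
      rw [this]; ring
    obtain ⟨f, u, hf⟩ := hcop
    obtain ⟨k', rfl⟩ : ∃ k', k = k' + 1 := ⟨k - 1, by omega⟩
    refine ⟨c + 2 * a ^ (k' + 1) * f, ?_, ?_⟩
    · refine ⟨g + a ^ k' * f, ?_⟩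
      have : c = 1 + 2 * a * g := by linarith
      rw [this]; ring
    · refine ⟨u + a ^ k' * f ^ 2, ?_⟩
      have e1 : (c + 2 * a ^ (k' + 1) * f) ^ 2 - p =
        (c ^ 2 - p) + 4 * a ^ (k' + 1) * (f * c) + 4 * a ^ (2 * (k' + 1)) * f ^ 2 := by ring
      rw [e1, he, hf]
      ring

variable {t c : ℤ}

theorem u0c (hD : t ^ 2 < 4 * c) {a : ℕ} (ha : 1 ≤ a) : S_U0c t c a := by
  set Δ : ℤ := t ^ 2 - 4 * c with hΔ
  have hΔ0 : Δ < 0 := by rw [hΔ]; linarith
  have haz : (0 : ℤ) < a := by exact_mod_cast ha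
  have hsq : ¬ IsSquare (Δ * (a : ℤ) ^ 2) := by
    rintro ⟨r, hr⟩
    have : 0 < (a : ℤ) ^ 2 := by positivity
    nlinarith [mul_self_nonneg r]
  obtain ⟨p, hp, ⟨l, hl⟩, x, y, w, hx, hy, hw, hxy⟩ := exists_norm_prime' _ hsq
  have hpi : Prime (p : ℤ) := Nat.prime_iff_prime_int.mp hp
  have hap : 4 * (a : ℤ) ∣ (p : ℤ) - 1 := ⟨Δ * a * l, by rw [hl]; ring⟩
  set y₁ : ℤ := a * y with hy₁
  have hy₁0 : 0 < y₁ := by positivity
  have hxy1 : x ^ 2 - Δ * y₁ ^ 2 = p * w ^ 2 := by rw [← hxy, hy₁]; ring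
  set E : ℤ := 4 * Δ * y₁ ^ 2 with hE
  have hE0 : E ≠ 0 := by
    rw [hE]
    have : 0 < y₁ ^ 2 := by positivity
    intro h0
    nlinarith
  have hK1 : 1 ≤ E.natAbs := Int.natAbs_pos.2 hE0
  obtain ⟨c₀, hc1, r0, hr0⟩ := sqrt_lift hap E.natAbs hK1
  -- the element
  set X : ℤ := (c₀ ^ 2 + p) * x + 2 * p * c₀ * w with hX
  set Y : ℤ := (c₀ ^ 2 - p) * y₁ with hY
  set W : ℤ := (c₀ ^ 2 + p) * w + 2 * c₀ * x with hW
  have hid : X ^ 2 - Δ * Y ^ 2 = p * W ^ 2 := by
    rw [hX, hY, hW]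
    linear_combination (c₀ ^ 2 - p) ^ 2 * hxy1
  have hY0 : Y ≠ 0 := by
    rw [hY]
    apply mul_ne_zero _ hy₁0.ne'
    intro h0
    have h1 : c₀ ^ 2 = (p : ℤ) := by linarith
    have h2 : Irreducible (p : ℤ) := hpi.irreducible
    rw [← h1, pow_two] at h2
    rcases h2.isUnit_or_isUnit rfl with h3 | h3 <;>
    · have h4 := h3.mul h3
      rw [← pow_two, h1] at h4
      exact hpi.not_unit h4
  set u : Qd t c := ⟨X - t * Y, 2 * Y⟩ with hu
  have hu0 : u ≠ 0 := by
    intro h0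
    have := congrArg QuadraticAlgebra.im h0
    rw [hu] at this
    simp at this
    exact hY0 this
  have hnu : (nm u : ℤ) = p * W ^ 2 := by
    rw [nm_cast hD, hu]
    simp only
    rw [← hid, hΔ]; ring
  have hnu' : nm u = W.natAbs ^ 2 * p := by
    have h1 : ((nm u : ℕ) : ℤ) = ((W.natAbs ^ 2 * p : ℕ) : ℤ) := by
      rw [hnu]; push_cast; rw [sq_abs]; ring
    exact_mod_cast h1
  have hW0 : W.natAbs ≠ 0 := by
    intro h0
    have := nm_pos hD hu0
    rw [hnu', h0] at this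
    simp at this
  have hglu : gl u = -1 := by
    unfold gl
    rw [hnu', lam_sq_mul hW0 hp.ne_zero, lam_prime hp]
  obtain ⟨z, n, hn, hz, huz⟩ := exists_primpart hu0
  have hz0 := prim_ne_zero hz
  refine ⟨z, hz0, ?_, ?_⟩
  · rw [← hglu, huz, gl_natCast_mul hn hD hz0]
  · by_contra hcop
    rw [Nat.Prime.not_coprime_iff_dvd] at hcop
    obtain ⟨q, hq, hqz, hqa⟩ := hcop
    have hqi : Prime (q : ℤ) := Nat.prime_iff_prime_int.mp hq
    have hqaz : (q : ℤ) ∣ a := by exact_mod_cast hqa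
    have hqp : ¬ (q : ℤ) ∣ p := by
      intro h
      have h1 : (q : ℤ) ∣ (p : ℤ) - 1 := (hqaz.trans (Dvd.intro_left 4 rfl)).trans hap
      have h2 : (q : ℤ) ∣ 1 := by
        have := dvd_sub h h1
        simpa using this
      exact hqi.not_isUnit (isUnit_of_dvd_one h2)
    have hqc : ¬ (q : ℤ) ∣ c₀ := by
      intro h
      have h1 : (q : ℤ) ∣ c₀ - 1 := (hqaz.trans (Dvd.intro_left 2 rfl)).trans hc1
      have h2 : (q : ℤ) ∣ 1 := by
        have := dvd_sub h h1
        simpa using this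
      exact hqi.not_isUnit (isUnit_of_dvd_one h2)
    -- multiplicity of `q` in `E`
    have hfE : FiniteMultiplicity (q : ℤ) E := by
      rw [Int.finiteMultiplicity_iff]
      refine ⟨?_, hE0⟩
      simpa using hq.one_lt.ne'
    obtain ⟨sE, hsE, hsE'⟩ := hfE.exists_eq_pow_mul_and_not_dvd
    set e := multiplicity (q : ℤ) E with he
    have hEe : ¬ (q : ℤ) ^ (e + 1) ∣ E := by
      intro h
      rw [hsE, pow_succ] at h
      have hqe : (q : ℤ) ^ e ≠ 0 := pow_ne_zero _ hqi.ne_zero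
      exact hsE' ((mul_dvd_mul_iff_left hqe).1 h)
    have heK : e + 1 ≤ E.natAbs := by
      have h1 : (q : ℤ) ^ e ∣ E := ⟨sE, hsE⟩
      have h2 := Int.natAbs_dvd_natAbs.2 h1
      rw [Int.natAbs_pow, Int.natAbs_natCast] at h2
      have h3 := Nat.le_of_dvd (Int.natAbs_pos.2 hE0) h2
      have h4 : e < q ^ e := Nat.lt_pow_self hq.one_lt
      omega
    have hqK : (q : ℤ) ^ (e + 1) ∣ c₀ ^ 2 - p := by
      have h1 : (q : ℤ) ^ (e + 1) ∣ (a : ℤ) ^ E.natAbs :=
        (pow_dvd_pow _ heK).trans (pow_dvd_pow_of_dvd hqaz _)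
      rw [hr0]
      exact (h1.trans (Dvd.intro_left 4 rfl)).trans (Dvd.intro _ rfl)
    have hxc : ¬ (q : ℤ) ^ (e + 1) ∣ 2 * (x + c₀ * w) := by
      intro h
      apply hEe
      have h1 : E = 2 * (x + c₀ * w) * (2 * (x - c₀ * w)) + (c₀ ^ 2 - p) * (4 * w ^ 2) := by
        rw [hE]
        linear_combination (-4) * hxy1
      rw [h1]
      exact dvd_add (h.mul_right _) (hqK.mul_right _)
    have hxc0 : 2 * (x + c₀ * w) ≠ 0 := by
      intro h0
      exact hxc (by rw [h0]; exact dvd_zero _)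
    have hfx : FiniteMultiplicity (q : ℤ) (2 * (x + c₀ * w)) := by
      rw [Int.finiteMultiplicity_iff]
      refine ⟨?_, hxc0⟩
      simpa using hq.one_lt.ne'
    obtain ⟨s, hs, hs'⟩ := hfx.exists_eq_pow_mul_and_not_dvd
    set v := multiplicity (q : ℤ) (2 * (x + c₀ * w)) with hv
    have hve : v ≤ e := by
      by_contra hcon
      push Not at hcon
      exact hxc ((pow_dvd_pow _ hcon).trans ⟨s, hs⟩)
    obtain ⟨r, hr⟩ : (q : ℤ) ^ (v + 1) ∣ c₀ ^ 2 - p := (pow_dvd_pow _ (by omega)).trans hqK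
    have e1 : X - t * Y = (q : ℤ) ^ v * (p * s + q * (r * x - t * r * y₁)) := by
      have h1 : X - t * Y = p * (2 * (x + c₀ * w)) + (c₀ ^ 2 - p) * x - t * ((c₀ ^ 2 - p) * y₁) := by
        rw [hX, hY]; ring
      rw [h1, hs, hr]; ring
    have e2 : 2 * Y = (q : ℤ) ^ v * (q * (2 * r * y₁)) := by
      rw [hY, hr]; ring
    have e3 : W = (q : ℤ) ^ v * (c₀ * s - q * (r * w)) := by
      have h1 : W = c₀ * (2 * (x + c₀ * w)) - (c₀ ^ 2 - p) * w := by
        rw [hW]; ring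
      rw [h1, hs, hr]; ring
    have g1 : X - t * Y = n * z.re := by
      have := congrArg QuadraticAlgebra.re huz
      rw [hu] at this
      simpa using this
    have g2 : 2 * Y = n * z.im := by
      have := congrArg QuadraticAlgebra.im huz
      rw [hu] at this
      simpa using this
    have hvn : (q : ℤ) ^ v ∣ n := by
      have h1 : (q : ℤ) ^ v ∣ (n : ℤ) * z.re := by rw [← g1, e1]; exact Dvd.intro _ rfl
      have h2 : (q : ℤ) ^ v ∣ (n : ℤ) * z.im := by rw [← g2, e2]; exact Dvd.intro _ rfl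
      have h3 := Int.dvd_coe_gcd h1 h2
      unfold prim at hz
      rw [Int.gcd_mul_left, hz] at h3
      simpa using h3
    obtain ⟨n', hn'⟩ := hvn
    have g3 : (n : ℤ) ^ 2 * nm z = p * W ^ 2 := by
      rw [← hnu, huz, nm_mul, nm_natCast]; push_cast; ring
    rw [hn', e3] at g3
    have g4 : (n' : ℤ) ^ 2 * nm z = p * (c₀ * s - q * (r * w)) ^ 2 := by
      have hq2 : ((q : ℤ) ^ v) ^ 2 ≠ 0 := pow_ne_zero _ (pow_ne_zero _ hqi.ne_zero)
      apply mul_left_cancel₀ hq2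
      linear_combination g3
    have g5 : (q : ℤ) ∣ p * (c₀ * s - q * (r * w)) ^ 2 := by
      rw [← g4]
      exact (Int.natCast_dvd_natCast.2 hqz).mul_left _
    rcases hqi.dvd_or_dvd g5 with h | h
    · exact hqp h
    · have h2 := hqi.dvd_of_dvd_pow h
      have h3 : (q : ℤ) ∣ c₀ * s := by
        have := dvd_add h2 (Dvd.intro (r * w) rfl : (q : ℤ) ∣ q * (r * w))
        simpa using this
      rcases hqi.dvd_or_dvd h3 with h4 | h4
      · exact hqc h4
      · exact hs' h4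

end Pool.Agent.W80.GB
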