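import Pool.Agent.W80.GB.A0
import Pool.Agent.W80.GB.U0
import Pool.Agent.W80.GB.Rich2

/-!
Project GB (helper80): from pairs of elements to values of `a n^2 + b n + c`.
-/

set_option autoImplicit false

namespace Pool.Agent.W80.GB

open Finset Filter
open Pool.Agent.H376R2.MR
open Pool.Agent.W78.GA

/-- the Liouville function on the integers -/
def lz (n : ℤ) : ℤ := lam n.natAbs

lemma lz_mul {m n : ℤ} (hm : m ≠ 0) (hn : n ≠ 0) : lz (m * n) = lz m * lz n := by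
  unfold lz
  rw [Int.natAbs_mul, lam_mul (Int.natAbs_ne_zero.2 hm) (Int.natAbs_ne_zero.2 hn)]

lemma lz_eq (n : ℤ) : lz n = 1 ∨ lz n = -1 := lam_eq _

/-- the core identity -/
lemma alg_core {a s k b c₀ m B B' N : ℤ} (hak : a * k ≠ 0)
    (hN : B * B' = N) (hNd : N = s ^ 2 + b * s * k + a * c₀ * k ^ 2)
    (hm : B = s - a * k * m) (hcop : IsCoprime B (a * k)) :
    ∃ m' : ℤ, B' = s + b * k + a * k * m' ∧
      k * (a * m ^ 2 + b * m + c₀) = (m' - m) * B ∧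
      k * (a * m' ^ 2 + b * m' + c₀) = (m' - m) * B' := by
  have h1 : B * (B' - s - b * k) = (a * k) * (c₀ * k + m * (s + b * k)) := by
    have : B * (B' - s - b * k) = N - B * (s + b * k) := by rw [← hN]; ring
    rw [this, hNd, hm]; ring
  have h2 : (a * k) ∣ B * (B' - s - b * k) := ⟨_, h1⟩
  obtain ⟨m', hm'⟩ := hcop.symm.dvd_of_dvd_mul_left h2
  rw [hm'] at h1
  have h3 : B * m' = c₀ * k + m * (s + b * k) := by
    apply mul_left_cancel₀ hak
    linear_combination h1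
  have h4 : m * B' = s * m' - c₀ * k := by
    have : B' = s + b * k + a * k * m' := by linarith
    rw [this]
    have h5 : (s - a * k * m) * m' = c₀ * k + m * (s + b * k) := by rw [← hm]; exact h3
    linear_combination -h5
  refine ⟨m', by linarith, ?_, ?_⟩
  · have : (m' - m) * B = B * m' - m * B := by ring
    rw [this, h3, hm]; ring
  · have h5 : (m' - m) * B' = m' * B' - m * B' := by ring
    rw [h5, h4]
    have h6 : a * k * m' = B' - s - b * k := hm'.symm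
    linear_combination m' * h6

lemma exists_lift {A A₀ : ℕ} (hA : A ≠ 0) (hA₀ : A₀ ≠ 0) {r : ℤ} (hr : IsCoprime r A) :
    ∃ r' : ℤ, (A : ℤ) ∣ r' - r ∧ IsCoprime r' A₀ := by
  obtain ⟨p, hp1, hp2, hp3⟩ := Nat.forall_exists_prime_gt_and_zmodEq A₀ hA hr
  refine ⟨p, ?_, ?_⟩
  · exact (Int.modEq_iff_dvd.1 hp3.symm)
  · rw [Nat.isCoprime_iff_coprime]
    rw [Nat.Prime.coprime_iff_not_dvd hp2]
    intro h
    have := Nat.le_of_dvd (by omega) h
    omega

/-- the data attached to a pair -/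
structure PD (a : ℕ) (b c₀ : ℤ) (T P : ℕ) (X : ℝ) (z z' : Qd b (a * c₀)) (m m' : ℤ) (k e g q : ℕ)
    (B B' : ℤ) : Prop where
  hk : k ∈ Icc 1 T
  he : e ∈ Icc 1 T
  hg : g ∈ Icc 1 (T ^ 2)
  hq : q ∈ Icc 1 P
  d1 : B ∣ k * (a * m ^ 2 + b * m + c₀)
  d2 : B' ∣ k * (a * m' ^ 2 + b * m' + c₀)
  w1 : star z * z' = ⟨e * (B + a * k * m), e * k⟩
  w2 : star z * z' = ⟨e * (B' - b * k - a * k * m'), e * k⟩
  n1 : nm z * g * q = e ^ 2 * B.natAbs
  n2 : nm z' = g * q * B'.natAbs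
  l : lz (a * m ^ 2 + b * m + c₀) * lz (a * m' ^ 2 + b * m' + c₀) = -1
  b1 : |(m : ℝ)| ≤ (P + 2 + 2 * |(b : ℝ)| * T) * X
  b2 : |(m' : ℝ)| ≤ (P + 2 + 2 * |(b : ℝ)| * T) * X

theorem pair_data {a : ℕ} (ha : 1 ≤ a) {b c₀ : ℤ} (hD : b ^ 2 < 4 * (a * c₀)) {T P A₀ : ℕ}
    (hA₀ : a * T.factorial ∣ A₀) (hA₀0 : A₀ ≠ 0) {X : ℝ} (hX : 1 ≤ X)
    {z z' : Qd b (a * c₀)} (hz : z ≠ 0) (hz' : z' ≠ 0) (hzX : (nm z : ℝ) ≤ X)
    (hzX' : (nm z' : ℝ) ≤ X) (hcz : (nm z).Coprime a) (hcz' : (nm z').Coprime a)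
    (hd1 : 1 ≤ dt z z') (hd2 : dt z z' ≤ T) (hgl : gl z ≠ gl z') (hR : Rich A₀ P z') :
    ∃ (m m' : ℤ) (k e g q : ℕ) (B B' : ℤ), PD a b c₀ T P X z z' m m' k e g q B B' := by
  have hn1 := nm_pos hD hz
  have hn2 := nm_pos hD hz'
  have haz : (0 : ℤ) < a := by exact_mod_cast ha
  set s := ip z z' with hs
  set κ := dt z z' with hκ
  have hip : (nm z : ℤ) * nm z' = s ^ 2 + b * s * κ + a * c₀ * κ ^ 2 := ip_dt hD z z'
  have hw : star z * z' = ⟨s, κ⟩ := star_mul_eq z z'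
  -- the content
  have he0 : 0 < Int.gcd s κ := by
    rw [Nat.pos_iff_ne_zero, ne_eq, Int.gcd_eq_zero_iff]
    rintro ⟨-, h⟩
    omega
  obtain ⟨s₁, k₁, hsk, h1, h2⟩ := Int.exists_gcd_one he0
  set e : ℕ := Int.gcd s κ with he
  have hez : (0 : ℤ) < e := by exact_mod_cast he0
  have hk₁ : 0 < k₁ := by
    by_contra hcon
    push Not at hcon
    have : k₁ * e ≤ 0 := mul_nonpos_of_nonpos_of_nonneg hcon hez.le
    omega
  lift k₁ to ℕ using hk₁.le with k hkk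
  have hk0 : 1 ≤ k := by exact_mod_cast hk₁
  have hkz : (0 : ℤ) < k := hk₁
  have hkT : k ≤ T := by
    have h3 : (k : ℤ) ≤ k * e := le_mul_of_one_le_right hkz.le (by linarith)
    have : (k : ℤ) ≤ T := by linarith
    exact_mod_cast this
  have heT : e ≤ T := by
    have h3 : (e : ℤ) ≤ k * e := le_mul_of_one_le_left hez.le (by linarith)
    have : (e : ℤ) ≤ T := by linarith
    exact_mod_cast this
  set N : ℤ := s₁ ^ 2 + b * s₁ * k + a * c₀ * k ^ 2 with hN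
  have heN : (e : ℤ) ^ 2 * N = nm z * nm z' := by
    rw [hip, h1, h2, hN]; ring
  have hN0 : 0 < N := by
    by_contra hcon
    push Not at hcon
    have h3 : (e : ℤ) ^ 2 * N ≤ 0 := mul_nonpos_of_nonneg_of_nonpos (by positivity) hcon
    have h4 : (0 : ℤ) < nm z * nm z' := by positivity
    linarith
  -- coprimality
  have hNa : IsCoprime N (a : ℤ) := by
    have h3 : IsCoprime ((nm z : ℤ) * nm z') (a : ℤ) :=
      IsCoprime.mul_left (Nat.isCoprime_iff_coprime.2 hcz) (Nat.isCoprime_iff_coprime.2 hcz')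
    rw [← heN] at h3
    exact h3.of_mul_left_right
  have hsk' : IsCoprime s₁ (k : ℤ) := Int.isCoprime_iff_gcd_eq_one.2 hsk
  have hNk : IsCoprime N (k : ℤ) := by
    have h3 : IsCoprime (s₁ ^ 2) (k : ℤ) := hsk'.pow_left
    have h4 : N = s₁ ^ 2 + k * (b * s₁ + a * c₀ * k) := by rw [hN]; ring
    rw [h4]
    exact (IsCoprime.add_mul_left_left_iff).2 h3
  have hNA : IsCoprime N ((a : ℤ) * k) := IsCoprime.mul_right hNa hNk
  have hsA : IsCoprime s₁ ((a : ℤ) * k) := by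
    have h4 : N = s₁ * (s₁ + b * k) + (a * k) * (c₀ * k) := by rw [hN]; ring
    rw [h4] at hNA
    exact ((IsCoprime.add_mul_left_left_iff).1 hNA).of_mul_left_left
  -- the factorisation of `N`
  obtain ⟨g, β', h, hg0, hβh, hgβ, hgh⟩ : ∃ g β' h : ℕ, 0 < g ∧ Nat.Coprime β' h ∧
      nm z' = β' * g ∧ e ^ 2 = h * g := by
    have hg0 : 0 < Nat.gcd (nm z') (e ^ 2) := Nat.gcd_pos_of_pos_left _ hn2
    obtain ⟨x, y, hxy, h3, h4⟩ := Nat.exists_coprime (nm z') (e ^ 2)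
    exact ⟨Nat.gcd (nm z') (e ^ 2), x, y, hg0, hxy, h3, h4⟩
  have hgT : g ≤ T ^ 2 := by
    have h3 : g ∣ e ^ 2 := Dvd.intro_left _ hgh.symm
    have h4 := Nat.le_of_dvd (by positivity) h3
    exact h4.trans (Nat.pow_le_pow_left heT 2)
  have hhN : (h : ℤ) * N = nm z * β' := by
    have h3 : ((e ^ 2 : ℕ) : ℤ) = (h : ℤ) * g := by rw [hgh]; push_cast; ring
    have h4 : ((nm z' : ℕ) : ℤ) = (β' : ℤ) * g := by rw [hgβ]; push_cast; ring
    rw [h4] at heN
    push_cast at h3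
    rw [h3] at heN
    have hg0' : (g : ℤ) ≠ 0 := by exact_mod_cast hg0.ne'
    apply mul_right_cancel₀ hg0'
    linear_combination heN
  have hβN : (β' : ℤ) ∣ N := by
    have h3 : (β' : ℤ) ∣ (h : ℤ) * N := ⟨nm z, by rw [hhN]; ring⟩
    exact (Nat.isCoprime_iff_coprime.2 hβh).dvd_of_dvd_mul_left h3
  obtain ⟨β, hβ⟩ := hβN
  have hβ'0 : 0 < β' := by
    rcases Nat.eq_zero_or_pos β' with h3 | h3
    · rw [h3] at hgβ; simp at hgβ; omega
    · exact h3
  have hβ'z : (0 : ℤ) < β' := by exact_mod_cast hβ'0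
  have hβ0 : 0 < β := by
    by_contra hcon
    push Not at hcon
    have : (β' : ℤ) * β ≤ 0 := mul_nonpos_of_nonneg_of_nonpos hβ'z.le hcon
    linarith
  have hhβ : (h : ℤ) * β = nm z := by
    apply mul_left_cancel₀ hβ'z.ne'
    rw [hβ] at hhN
    linear_combination hhN
  -- the auxiliary prime
  have hβA : IsCoprime β ((a : ℤ) * k) := by
    rw [hβ] at hNA
    exact hNA.of_mul_left_right
  have hβA' : IsCoprime (β' : ℤ) ((a : ℤ) * k) := by
    rw [hβ] at hNA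
    exact hNA.of_mul_left_left
  obtain ⟨v, v', hv⟩ := hβA
  have hr0 : IsCoprime (s₁ * v) ((a * k : ℕ) : ℤ) := by
    push_cast
    apply IsCoprime.mul_left hsA
    exact ⟨β, v', by rw [← hv]; ring⟩
  obtain ⟨r, hr1, hr2⟩ := exists_lift (A := a * k) (A₀ := A₀) (Nat.mul_pos (by omega) (by omega)).ne' hA₀0 hr0
  obtain ⟨σ, hσ, q, hq, hqP, hqz, hqr⟩ := hR r hr2
  have hσ2 : σ * σ = 1 := by rcases hσ with rfl | rfl <;> norm_num
  have hkA₀ : ((a : ℤ) * k) ∣ A₀ := by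
    have h3 : k ∣ T.factorial := Nat.dvd_factorial (by omega) hkT
    have h4 : a * k ∣ A₀ := (Nat.mul_dvd_mul_left a h3).trans hA₀
    exact_mod_cast h4
  have hqA : IsCoprime (q : ℤ) (A₀ : ℤ) := by
    have h3 : IsCoprime (σ * r) (A₀ : ℤ) := by
      apply IsCoprime.mul_left _ hr2
      exact ⟨σ, 0, by rw [hσ2]; ring⟩
    obtain ⟨y, hy⟩ := hqr
    have h4 : (q : ℤ) = σ * r + A₀ * y := by linarith
    rw [h4]
    exact (IsCoprime.add_mul_left_left_iff).2 h3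
  have hqT : T < q := by
    by_contra hcon
    push Not at hcon
    have h3 : q ∣ T.factorial := Nat.dvd_factorial hq.pos hcon
    have h4 : q ∣ A₀ := (h3.trans (Dvd.intro_left a rfl)).trans hA₀
    have h5 : (q : ℤ) ∣ 1 := by
      obtain ⟨x, y, hxy⟩ := hqA
      rw [← hxy]
      exact dvd_add (Dvd.intro_left x rfl) ((Int.natCast_dvd_natCast.2 h4).mul_left y)
    exact (Nat.prime_iff_prime_int.1 hq).not_isUnit (isUnit_of_dvd_one h5)
  have hqβ : q ∣ β' := by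
    rw [hgβ] at hqz
    rcases hq.dvd_mul.1 hqz with h3 | h3
    · exact h3
    · exfalso
      have h4 : q ∣ e ^ 2 := h3.trans (Dvd.intro_left _ hgh.symm)
      have h5 := hq.dvd_of_dvd_pow h4
      have h6 := Nat.le_of_dvd he0 h5
      omega
  obtain ⟨β₁, hβ₁⟩ := hqβ
  have hβ₁0 : 0 < β₁ := by
    rcases Nat.eq_zero_or_pos β₁ with h3 | h3
    · rw [h3] at hβ₁; simp at hβ₁; omega
    · exact h3
  -- `B` and `B'`
  have hBB : (σ * β * q) * (σ * β₁) = N := by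
    rw [hβ, hβ₁]; push_cast
    linear_combination (β * q * β₁) * hσ2
  have hBs : ((a : ℤ) * k) ∣ s₁ - σ * β * q := by
    obtain ⟨y, hy⟩ := hkA₀.trans hqr
    obtain ⟨y', hy'⟩ := hr1
    push_cast at hy'
    have h3 : (q : ℤ) = σ * r + a * k * y := by linarith
    have h4 : r = s₁ * v + a * k * y' := by linarith
    refine ⟨s₁ * v' - β * y' - σ * β * y, ?_⟩
    rw [h3, h4]
    linear_combination (-s₁) * hv - β * (s₁ * v + a * k * y') * hσ2
  obtain ⟨m, hm⟩ := hBs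
  have hBA : IsCoprime (σ * β * q) ((a : ℤ) * k) := by
    rw [← hBB] at hNA
    exact hNA.of_mul_left_left
  have hak0 : (a : ℤ) * k ≠ 0 := by positivity
  obtain ⟨m', hm', hf1, hf2⟩ := alg_core (b := b) (c₀ := c₀) hak0 hBB hN
    (by linarith : σ * β * q = s₁ - a * k * m) hBA
  have hw' : star z * z' = ⟨e * s₁, e * k⟩ := by
    rw [hw, h1, h2]
    congr 1 <;> ring
  have hσabs : σ.natAbs = 1 := by rcases hσ with rfl | rfl <;> rfl
  have hnB : (σ * β * q).natAbs = β.natAbs * q := by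
    rw [Int.natAbs_mul, Int.natAbs_mul, hσabs, one_mul, Int.natAbs_natCast]
  have hnB' : (σ * (β₁ : ℤ)).natAbs = β₁ := by
    rw [Int.natAbs_mul, hσabs, one_mul, Int.natAbs_natCast]
  have hβabs : ((β.natAbs : ℕ) : ℤ) = β := by
    rw [Int.natCast_natAbs, abs_of_pos hβ0]
  have hhβ' : h * β.natAbs = nm z := by
    have : ((h * β.natAbs : ℕ) : ℤ) = ((nm z : ℕ) : ℤ) := by
      push_cast
      rw [abs_of_pos hβ0, hhβ]
    exact_mod_cast this
  -- the values are not zero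
  have hf0 : ∀ n : ℤ, (a : ℤ) * n ^ 2 + b * n + c₀ ≠ 0 := by
    intro n h0
    have h3 : 4 * (a : ℤ) * (a * n ^ 2 + b * n + c₀) = (2 * a * n + b) ^ 2 + (4 * (a * c₀) - b ^ 2) := by ring
    rw [h0] at h3
    have h4 := sq_nonneg (2 * (a : ℤ) * n + b)
    linarith
  have hj0 : m' - m ≠ 0 := by
    intro h0
    rw [h0, zero_mul] at hf1
    rcases mul_eq_zero.1 hf1 with h3 | h3
    · exact hkz.ne' h3
    · exact hf0 m h3
  have hB0 : σ * β * (q : ℤ) ≠ 0 := by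
    intro h0
    rw [h0, zero_mul] at hBB
    linarith
  have hB0' : σ * (β₁ : ℤ) ≠ 0 := by
    intro h0
    rw [h0, mul_zero] at hBB
    linarith
  have hlz : lz (a * m ^ 2 + b * m + c₀) * lz (a * m' ^ 2 + b * m' + c₀) = -1 := by
    have l1 := congrArg lz hf1
    have l2 := congrArg lz hf2
    rw [lz_mul hkz.ne' (hf0 m), lz_mul hj0 hB0] at l1
    rw [lz_mul hkz.ne' (hf0 m'), lz_mul hj0 hB0'] at l2
    have l3 : lz (σ * β * q) * lz (σ * β₁) = -1 := by
      rw [← lz_mul hB0 hB0', hBB]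
      have l4 := congrArg lz heN
      rw [lz_mul (by positivity) hN0.ne', lz_mul (by positivity) (by positivity)] at l4
      have l5 : lz ((e : ℤ) ^ 2) = 1 := by
        rw [pow_two, lz_mul hez.ne' hez.ne']
        rcases lz_eq e with h | h <;> rw [h] <;> norm_num
      rw [l5, one_mul] at l4
      rw [l4]
      have l6 : lz (nm z : ℤ) = gl z := by unfold lz gl; rw [Int.natAbs_natCast]
      have l7 : lz (nm z' : ℤ) = gl z' := by unfold lz gl; rw [Int.natAbs_natCast]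
      rw [l6, l7]
      rcases gl_eq z with h | h <;> rcases gl_eq z' with h' | h' <;> rw [h, h'] at hgl ⊢ <;> simp at hgl ⊢
    have l8 : lz (k : ℤ) * lz k = 1 := by
      rcases lz_eq k with h | h <;> rw [h] <;> norm_num
    have l9 : lz (m' - m) * lz (m' - m) = 1 := by
      rcases lz_eq (m' - m) with h | h <;> rw [h] <;> norm_num
    calc lz (a * m ^ 2 + b * m + c₀) * lz (a * m' ^ 2 + b * m' + c₀)
        = (lz (k : ℤ) * lz k) * (lz (a * m ^ 2 + b * m + c₀) * lz (a * m' ^ 2 + b * m' + c₀)) := by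
          rw [l8, one_mul]
      _ = (lz (k : ℤ) * lz (a * m ^ 2 + b * m + c₀)) * (lz k * lz (a * m' ^ 2 + b * m' + c₀)) := by ring
      _ = (lz (m' - m) * lz (m' - m)) * (lz (σ * β * q) * lz (σ * β₁)) := by rw [l1, l2]; ring
      _ = -1 := by rw [l9, l3]; norm_num
  -- bounds
  have hX0 : 0 ≤ X := by linarith
  have hbT : 0 ≤ |(b : ℝ)| * T := by positivity
  have hkTR : (k : ℝ) ≤ T := by exact_mod_cast hkT
  have hsb : |(s₁ : ℝ)| ≤ X + |(b : ℝ)| * T := by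
    have h3 : (2 * (s : ℝ) + b * κ) ^ 2 ≤ (2 * X) ^ 2 := by
      have h4 : (2 * (s : ℝ) + b * κ) ^ 2 ≤ 4 * ((nm z : ℝ) * nm z') := by
        have h5 : (2 * s + b * κ) ^ 2 ≤ 4 * ((nm z : ℤ) * nm z') := by
          rw [hip]
          have h6 := mul_nonneg (by linarith : 0 ≤ 4 * ((a : ℤ) * c₀) - b ^ 2) (sq_nonneg κ)
          linarith
        exact_mod_cast h5
      have h5 : (nm z : ℝ) * nm z' ≤ X * X := mul_le_mul hzX hzX' (Nat.cast_nonneg _) hX0
      have h6 : (2 * X) ^ 2 = 4 * (X * X) := by ring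
      linarith
    have h4' : |2 * (s : ℝ) + b * κ| ≤ 2 * X := abs_le_of_sq_le_sq h3 (by linarith)
    have h5 : |(κ : ℝ)| ≤ T := by
      rw [abs_of_nonneg (by exact_mod_cast (by omega : 0 ≤ κ))]
      exact_mod_cast hd2
    have h6 : |(s : ℝ)| ≤ X + |(b : ℝ)| * T / 2 := by
      have h7 : |2 * (s : ℝ)| ≤ |2 * (s : ℝ) + b * κ| + |(b : ℝ) * κ| := by
        have := abs_sub (2 * (s : ℝ) + b * κ) (b * κ)
        simpa using this
      rw [abs_mul, abs_mul] at h7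
      have h8 : |(2 : ℝ)| = 2 := by norm_num
      rw [h8] at h7
      have h9 : |(b : ℝ)| * |(κ : ℝ)| ≤ |(b : ℝ)| * T := mul_le_mul_of_nonneg_left h5 (abs_nonneg _)
      linarith
    have h7 : |(s₁ : ℝ)| ≤ |(s : ℝ)| := by
      have h8 : (s : ℝ) = s₁ * e := by exact_mod_cast h1
      rw [h8, abs_mul]
      have h9 : (1 : ℝ) ≤ |(e : ℝ)| := by
        rw [abs_of_nonneg (Nat.cast_nonneg _)]; exact_mod_cast he0
      exact le_mul_of_one_le_right (abs_nonneg _) h9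
    linarith
  have hBb : |((σ * β * q : ℤ) : ℝ)| ≤ P * X := by
    have h3 : ((σ * β * q).natAbs : ℝ) ≤ P * X := by
      rw [hnB]
      push_cast
      have h4 : (β.natAbs : ℝ) ≤ X := by
        refine le_trans ?_ hzX
        rw [← hhβ']
        have h0 : 0 < h := by
          rcases Nat.eq_zero_or_pos h with h5 | h5
          · rw [h5] at hhβ'; simp at hhβ'; omega
          · exact h5
        exact_mod_cast Nat.le_mul_of_pos_left _ h0
      have h5 : (q : ℝ) ≤ P := by exact_mod_cast hqP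
      calc (β.natAbs : ℝ) * q ≤ X * P := mul_le_mul h4 h5 (Nat.cast_nonneg _) hX0
        _ = P * X := by ring
    rw [Nat.cast_natAbs] at h3
    rw [← Int.cast_abs]
    exact h3
  have hBb' : |((σ * (β₁ : ℤ) : ℤ) : ℝ)| ≤ X := by
    have h3 : ((σ * (β₁ : ℤ)).natAbs : ℝ) ≤ X := by
      rw [hnB']
      refine le_trans ?_ hzX'
      have h4 : β₁ ≤ nm z' := by
        rw [hgβ, hβ₁]
        calc β₁ = 1 * β₁ * 1 := by ring
          _ ≤ q * β₁ * g := by
            apply Nat.mul_le_mul (Nat.mul_le_mul_right _ hq.one_le) hg0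
      exact_mod_cast h4
    rw [Nat.cast_natAbs] at h3
    rw [← Int.cast_abs]
    exact h3
  have hakR : (1 : ℝ) ≤ |((a : ℝ) * k)| := by
    rw [abs_of_nonneg (by positivity)]
    have h3 : (1 : ℝ) ≤ a := by exact_mod_cast ha
    have h4 : (1 : ℝ) ≤ k := by exact_mod_cast hk0
    nlinarith
  have hPR : (0 : ℝ) ≤ P := Nat.cast_nonneg _
  have hXbT : |(b : ℝ)| * T ≤ |(b : ℝ)| * T * X := le_mul_of_one_le_right hbT hX
  refine ⟨m, m', k, e, g, q, σ * β * q, σ * β₁, ?_⟩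
  refine ⟨mem_Icc.2 ⟨hk0, hkT⟩, mem_Icc.2 ⟨he0, heT⟩, mem_Icc.2 ⟨hg0, hgT⟩,
    mem_Icc.2 ⟨hq.one_le, hqP⟩, ⟨m' - m, by rw [hf1]; ring⟩, ⟨m' - m, by rw [hf2]; ring⟩,
    ?_, ?_, ?_, ?_, hlz, ?_, ?_⟩
  · rw [hw']
    congr 1
    rw [← hm]; ring
  · rw [hw']
    congr 1
    rw [hm']; ring
  · rw [hnB, ← hhβ', hgh]; ring
  · rw [hnB', hgβ, hβ₁]; ring
  · have h3 : |((a : ℝ) * k)| * |(m : ℝ)| ≤ (X + |(b : ℝ)| * T) + P * X := by
      rw [← abs_mul]
      have h4 : (a : ℝ) * k * m = s₁ - ((σ * β * q : ℤ) : ℝ) := by exact_mod_cast hm.symm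
      rw [h4]
      exact (abs_sub _ _).trans (add_le_add hsb hBb)
    have h4 : |(m : ℝ)| ≤ |((a : ℝ) * k)| * |(m : ℝ)| := le_mul_of_one_le_left (abs_nonneg _) hakR
    nlinarith
  · have h3 : |((a : ℝ) * k)| * |(m' : ℝ)| ≤ X + (X + |(b : ℝ)| * T) + |(b : ℝ)| * T := by
      rw [← abs_mul]
      have h4 : (a : ℝ) * k * m' = ((σ * (β₁ : ℤ) : ℤ) : ℝ) - s₁ - b * k := by
        have : (a : ℤ) * k * m' = (σ * (β₁ : ℤ)) - s₁ - b * k := by rw [hm']; ring
        exact_mod_cast this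
      rw [h4]
      have h5 : |(b : ℝ) * k| ≤ |(b : ℝ)| * T := by
        rw [abs_mul, abs_of_nonneg (Nat.cast_nonneg k : (0 : ℝ) ≤ k)]
        exact mul_le_mul_of_nonneg_left hkTR (abs_nonneg _)
      have h6 := abs_sub (((σ * (β₁ : ℤ) : ℤ) : ℝ) - s₁) (b * k)
      have h7 := abs_sub ((σ * (β₁ : ℤ) : ℤ) : ℝ) (s₁ : ℝ)
      linarith
    have h4 : |(m' : ℝ)| ≤ |((a : ℝ) * k)| * |(m' : ℝ)| := le_mul_of_one_le_left (abs_nonneg _) hakR
    nlinarith

end Pool.Agent.W80.GB
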