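import Pool.Agent.W78.GA.Basic
import Pool.Agent.H510R2.Div

/-!
Project GB (helper80): multiplicities.
-/

set_option autoImplicit false

namespace Pool.Agent.W80.GB

open Finset Filter
open Pool.Agent.H376R2.MR
open Pool.Agent.W78.GA

variable {t c : ℤ}

/-- the equation `(2 x + t y)^2 = r` has at most two solutions `x` -/
lemma two_sol (t y r : ℤ) (S : Finset ℤ) (hS : ∀ x ∈ S, (2 * x + t * y) ^ 2 = r) : S.card ≤ 2 := by
  by_cases h : ∃ x₀ ∈ S, True
  · obtain ⟨x₀, hx₀, -⟩ := h
    have hsub : S ⊆ {x₀, -x₀ - t * y} := by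
      intro x hx
      have h1 := hS x hx
      have h2 := hS x₀ hx₀
      rw [← h2] at h1
      rcases sq_eq_sq_iff_eq_or_eq_neg.1 h1 with h3 | h3
      · rw [mem_insert]; left; linarith
      · rw [mem_insert, mem_singleton]; right; linarith
    exact (card_le_card hsub).trans card_le_two
  · push Not at h
    have : S = ∅ := by
      rw [eq_empty_iff_forall_notMem]
      intro x hx
      exact h x hx
    rw [this]; simp

/-- few elements of given norm `D` with `D ∣ z w`, `w` fixed with small imaginary part -/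
theorem mult_card (hD : t ^ 2 < 4 * c) (D : ℕ) (w : Qd t c) {T : ℕ} (hw0 : w.im ≠ 0)
    (hwT : |w.im| ≤ T) (S : Finset (Qd t c))
    (hS : ∀ z ∈ S, z ≠ 0 ∧ nm z = D ∧ (D : Qd t c) ∣ z * w) : S.card ≤ 2 * (4 * T + 1) := by
  classical
  rcases S.eq_empty_or_nonempty with h | ⟨z₀, hz₀⟩
  · rw [h]; simp
  obtain ⟨h0, h1, h2⟩ := hS z₀ hz₀
  have hDpos : 0 < D := by rw [← h1]; exact nm_pos hD h0
  have hDz : (0 : ℤ) < D := by exact_mod_cast hDpos
  -- the determinant with `z₀`
  have hdt : ∀ z ∈ S, ∃ l : ℤ, l ∈ Icc (-(2 * T : ℤ)) (2 * T) ∧ w.im * dt z₀ z = D * l := by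
    intro z hz
    obtain ⟨g0, g1, g2⟩ := hS z hz
    rw [natCast_dvd] at h2 g2
    have a1 := h2.2
    have a2 := g2.2
    rw [QuadraticAlgebra.im_mul] at a1 a2
    have a3 : (D : ℤ) ∣ w.im * dt z₀ z := by
      have h3 := dvd_sub (a1.mul_right z.im) (a2.mul_right z₀.im)
      have h4 : (z₀.re * w.im + z₀.im * w.re + t * z₀.im * w.im) * z.im -
          (z.re * w.im + z.im * w.re + t * z.im * w.im) * z₀.im = w.im * dt z₀ z := by
        unfold dt; ring
      rwa [h4] at h3
    obtain ⟨l, hl⟩ := a3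
    refine ⟨l, ?_, hl⟩
    -- the size of the determinant
    have h5 := ip_dt hD z₀ z
    rw [h1, g1] at h5
    have h6 : (dt z₀ z) ^ 2 ≤ (2 * (D : ℤ)) ^ 2 := by
      have h7 : 4 * ((D : ℤ) * D) = (2 * ip z₀ z + t * dt z₀ z) ^ 2 + (4 * c - t ^ 2) * dt z₀ z ^ 2 := by
        rw [h5]; ring
      have h8 : 1 * dt z₀ z ^ 2 ≤ (4 * c - t ^ 2) * dt z₀ z ^ 2 :=
        mul_le_mul_of_nonneg_right (by linarith) (sq_nonneg _)
      nlinarith [sq_nonneg (2 * ip z₀ z + t * dt z₀ z)]
    have h7 : |dt z₀ z| ≤ 2 * D := abs_le_of_sq_le_sq h6 (by positivity)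
    have h8 : (D : ℤ) * |l| ≤ D * (2 * T) := by
      have h9 : (D : ℤ) * |l| = |w.im| * |dt z₀ z| := by
        rw [← abs_mul, hl, abs_mul, abs_of_pos hDz]
      rw [h9]
      calc |w.im| * |dt z₀ z| ≤ T * (2 * D) := mul_le_mul hwT h7 (abs_nonneg _) (Nat.cast_nonneg _)
        _ = D * (2 * T) := by ring
    have h9 := le_of_mul_le_mul_left h8 hDz
    have h10 := abs_le.1 h9
    rw [mem_Icc]
    exact ⟨by linarith [h10.1], h10.2⟩
  choose! l hl1 hl2 using hdt
  have hmaps : ∀ z ∈ S, l z ∈ Icc (-(2 * T : ℤ)) (2 * T) := hl1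
  have hfib : ∀ y ∈ Icc (-(2 * T : ℤ)) (2 * T), (S.filter (fun z => l z = y)).card ≤ 2 := by
    intro y _
    -- all the elements of the fibre have the same determinant with `z₀`
    rcases (S.filter (fun z => l z = y)).eq_empty_or_nonempty with hE | ⟨z₁, hz₁⟩
    · rw [hE]; simp
    rw [mem_filter] at hz₁
    have hsame : ∀ z ∈ S.filter (fun z => l z = y), dt z₀ z = dt z₀ z₁ := by
      intro z hz
      rw [mem_filter] at hz
      have e1 := hl2 z hz.1
      have e2 := hl2 z₁ hz₁.1
      rw [hz.2] at e1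
      rw [hz₁.2] at e2
      exact mul_left_cancel₀ hw0 (e1.trans e2.symm)
    have hinj : Set.InjOn (fun z => ip z₀ z) (S.filter (fun z => l z = y)) := by
      intro z hz z' hz' hzz
      have e1 := hsame z hz
      have e2 := hsame z' hz'
      have e3 : star z₀ * z = star z₀ * z' := by
        rw [star_mul_eq, star_mul_eq, e1, e2]
        simp only at hzz
        rw [hzz]
      have e4 : z₀ * (star z₀ * z) = z₀ * (star z₀ * z') := by rw [e3]
      rw [← mul_assoc, ← mul_assoc, mul_star_self' hD] at e4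
      have hn0 : ((nm z₀ : ℕ) : ℤ) ≠ 0 := by rw [h1]; exact hDz.ne'
      apply QuadraticAlgebra.ext
      · have := congrArg QuadraticAlgebra.re e4
        simp at this
        rcases this with h | h
        · exact h
        · exact absurd (by exact_mod_cast h) hn0
      · have := congrArg QuadraticAlgebra.im e4
        simp at this
        rcases this with h | h
        · exact h
        · exact absurd (by exact_mod_cast h) hn0
    rw [← card_image_of_injOn hinj]
    apply two_sol t (dt z₀ z₁) (4 * ((D : ℤ) * D) - (4 * c - t ^ 2) * dt z₀ z₁ ^ 2)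
    intro x hx
    rw [mem_image] at hx
    obtain ⟨z, hz, rfl⟩ := hx
    have e1 := hsame z hz
    rw [mem_filter] at hz
    have h5 := ip_dt hD z₀ z
    rw [h1, (hS z hz.1).2.1] at h5
    rw [e1] at h5
    rw [h5]; ring
  have := card_le_mul_card_image_of_maps_to hmaps 2 hfib
  rw [Int.card_Icc] at this
  have e : (2 * (T : ℤ) + 1 - -(2 * T)).toNat = 4 * T + 1 := by omega
  rw [e] at this
  exact this

end Pool.Agent.W80.GB
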