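import Pool.Agent.W80.GB.Alg
import Pool.Agent.W80.GB.Mult

/-!
Project GB (helper80): counting.
-/

set_option autoImplicit false

namespace Pool.Agent.W80.GB

open Finset Filter
open Pool.Agent.H376R2.MR
open Pool.Agent.W78.GA

variable {t c : ℤ}

lemma par_mult {v u : Qd t c} (hu : prim u) (h : dt v u = 0) : ∃ l : ℤ, v = (l : Qd t c) * u := by
  unfold prim at hu
  unfold dt at h
  have hb := Int.gcd_eq_gcd_ab u.re u.im
  rw [hu] at hb
  set x := Int.gcdA u.re u.im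
  set y := Int.gcdB u.re u.im
  push_cast at hb
  refine ⟨x * v.re + y * v.im, ?_⟩
  apply QuadraticAlgebra.ext
  · simp
    linear_combination v.re * hb + y * h
  · simp
    linear_combination v.im * hb - x * h

lemma nm_sub_le (hD : t ^ 2 < 4 * c) {X : ℝ} {z u : Qd t c} (hz : (nm z : ℝ) ≤ X)
    (hu : (nm u : ℝ) ≤ X) : (nm (z - u) : ℝ) ≤ 4 * X := by
  have h1 : (nm (z - u) : ℝ) + nm (z + u) = 2 * (nm z + nm u) := by
    rw [nm_castR hD, nm_castR hD, nm_castR hD, nm_castR hD]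
    simp only [QuadraticAlgebra.re_add, QuadraticAlgebra.im_add, QuadraticAlgebra.re_sub,
      QuadraticAlgebra.im_sub]
    push_cast
    ring
  have h2 : (0 : ℝ) ≤ nm (z + u) := Nat.cast_nonneg _
  linarith

lemma line_card (hD : t ^ 2 < 4 * c) {X c₁ : ℝ} (hc : 0 < c₁) (hX : 0 < X) {u : Qd t c}
    (hu : prim u) (hnu : c₁ * X ≤ nm u) (k : ℤ) (S : Finset (Qd t c))
    (hS : ∀ z ∈ S, (nm z : ℝ) ≤ X ∧ dt z u = k) : S.card ≤ 2 * ⌈4 / c₁⌉₊ + 1 := by
  classical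
  rcases S.eq_empty_or_nonempty with h | ⟨z₀, hz₀⟩
  · rw [h]; simp
  have hu0 := prim_ne_zero hu
  have hl : ∀ z ∈ S, ∃ l : ℤ, l ∈ Icc (-(⌈4 / c₁⌉₊ : ℤ)) ⌈4 / c₁⌉₊ ∧ z - z₀ = (l : Qd t c) * u := by
    intro z hz
    have h1 : dt (z - z₀) u = 0 := by
      have a1 := (hS z hz).2
      have a2 := (hS z₀ hz₀).2
      unfold dt at a1 a2 ⊢
      simp only [QuadraticAlgebra.re_sub, QuadraticAlgebra.im_sub]
      linear_combination a1 - a2
    obtain ⟨l, hl⟩ := par_mult hu h1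
    refine ⟨l, ?_, hl⟩
    have h2 : (nm (z - z₀) : ℝ) = (l : ℝ) ^ 2 * nm u := by
      rw [hl, nm_mul, nm_intCast]
      push_cast
      rw [Nat.cast_natAbs, Int.cast_abs, sq_abs]
    have h3 := nm_sub_le hD (hS z hz).1 (hS z₀ hz₀).1
    rw [h2] at h3
    have h4 : (l : ℝ) ^ 2 ≤ 4 / c₁ := by
      rw [le_div_iff₀ hc]
      have h5 : (l : ℝ) ^ 2 * (c₁ * X) ≤ 4 * X :=
        (mul_le_mul_of_nonneg_left hnu (sq_nonneg _)).trans h3
      have h6 : ((l : ℝ) ^ 2 * c₁) * X ≤ 4 * X := by linarith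
      exact le_of_mul_le_mul_right h6 hX
    have h5 : ((l ^ 2 : ℤ) : ℝ) ≤ ((⌈4 / c₁⌉₊ : ℤ) : ℝ) := by
      push_cast
      exact h4.trans (Nat.le_ceil _)
    have h6 : l ^ 2 ≤ (⌈4 / c₁⌉₊ : ℤ) := by exact_mod_cast h5
    rw [mem_Icc]
    constructor
    · nlinarith
    · nlinarith
  choose! l hl1 hl2 using hl
  have h := Finset.card_le_card_of_injOn l hl1 (by
    intro z hz z' hz' hzz
    have e1 := hl2 z hz
    have e2 := hl2 z' hz'
    rw [hzz, ← e2] at e1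
    exact sub_left_injective e1)
  rw [Int.card_Icc] at h
  omega

lemma nonrich_card (hD : t ^ 2 < 4 * c) {a T : ℕ} {X c₁ : ℝ} (hc : 0 < c₁) (hX : 0 < X)
    (V : Finset (Qd t c)) (S : Finset (Qd t c × Qd t c)) (hS : S ⊆ spair t c a T (c₁ * X) X)
    (hV : ∀ e ∈ S, e.2 ∈ V) : S.card ≤ ((2 * ⌈4 / c₁⌉₊ + 1) * T) * V.card := by
  classical
  refine card_le_mul_card_image_of_maps_to hV _ ?_
  intro u _
  have hmem : ∀ e ∈ S.filter (fun e => e.2 = u), prim e.1 ∧ (nm e.1 : ℝ) ≤ X ∧ prim u ∧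
      c₁ * X ≤ nm u ∧ dt e.1 u ∈ Icc (1 : ℤ) T := by
    intro e he
    rw [mem_filter] at he
    have h1 := hS he.1
    unfold spair at h1
    rw [mem_filter, mem_product, mem_pball hD, mem_pball hD] at h1
    obtain ⟨⟨h2, h3⟩, -, ⟨-, h4⟩, ⟨h5, h6⟩, -⟩ := h1
    rw [he.2] at h3 h4 h5 h6
    exact ⟨h2.1, h2.2, h3.1, h4, mem_Icc.2 ⟨h5, h6⟩⟩
  have h := card_le_mul_card_image_of_maps_to (f := fun e : Qd t c × Qd t c => dt e.1 u)
    (s := S.filter (fun e => e.2 = u)) (t := Icc (1 : ℤ) T)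
    (fun e he => (hmem e he).2.2.2.2) (2 * ⌈4 / c₁⌉₊ + 1) (by
      intro k _
      have hinj : Set.InjOn (fun e : Qd t c × Qd t c => e.1)
          ((S.filter (fun e => e.2 = u)).filter (fun e => dt e.1 u = k)) := by
        intro e he e' he' hee
        simp only [coe_filter, mem_filter, Set.mem_ofPred_eq] at he he'
        exact Prod.ext hee (he.1.2.trans he'.1.2.symm)
      rw [← card_image_of_injOn hinj]
      rcases ((S.filter (fun e => e.2 = u)).filter (fun e => dt e.1 u = k)).eq_empty_or_nonempty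
        with hE | ⟨e₀, he₀⟩
      · rw [hE]; simp
      rw [mem_filter] at he₀
      have h0 := hmem e₀ he₀.1
      apply line_card hD hc hX h0.2.2.1 h0.2.2.2.1 k
      intro z hz
      rw [mem_image] at hz
      obtain ⟨e, he, rfl⟩ := hz
      rw [mem_filter] at he
      exact ⟨(hmem e he.1).2.1, he.2⟩)
  rw [Int.card_Icc] at h
  simpa using h

/-- many rich pairs -/
theorem rich_pairs (hD : t ^ 2 < 4 * c) {a : ℕ} (ha : 1 ≤ a) : ∃ (T : ℕ) (c₁ ε : ℝ), 1 ≤ T ∧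
    0 < c₁ ∧ 0 < ε ∧ ∃ A₀ P : ℕ, A₀ ≠ 0 ∧ a * T.factorial ∣ A₀ ∧ ∃ X₀ : ℝ, ∀ X : ℝ, X₀ ≤ X →
    (open scoped Classical in
      ε * X ≤ (((spair t c a T (c₁ * X) X).filter (fun e => Rich A₀ P e.2)).card : ℝ)) := by
  classical
  obtain ⟨T, c₁, ε, hc₁, hε, X₀, h⟩ := scp_of hD ha (a0c hD ha) (u0c hD ha)
  obtain ⟨d, hd⟩ : ∃ d : ℕ, (d : ℤ) = 4 * c - t ^ 2 := ⟨(4 * c - t ^ 2).toNat, by
    rw [Int.toNat_of_nonneg]; linarith⟩
  have hd0 : 0 < d := by
    have : (0 : ℤ) < d := by rw [hd]; linarith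
    exact_mod_cast this
  set A₀ : ℕ := 4 * d * (a * T.factorial) with hA₀
  have hA₀0 : 0 < A₀ := by
    have := Nat.factorial_pos T
    positivity
  set δ : ℝ := ε / (2 * ((2 * ⌈4 / c₁⌉₊ + 1) * (T + 1))) with hδ
  have hδ0 : 0 < δ := by positivity
  obtain ⟨P, X₁, hP⟩ := rich_all hD (lat_all hD) hd (Dvd.intro _ rfl : 4 * d ∣ A₀) hA₀0 hδ0
  -- `T ≥ 1`
  have hT1 : 1 ≤ T := by
    by_contra hcon
    have hT0 : T = 0 := by omega
    have h1 := h (|X₀| + 1) (by have := le_abs_self X₀; linarith)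
    have h2 : spair t c a T (c₁ * (|X₀| + 1)) (|X₀| + 1) = ∅ := by
      rw [eq_empty_iff_forall_notMem]
      intro e he
      unfold spair at he
      rw [mem_filter] at he
      have := he.2.2.2.1
      rw [hT0] at this
      push_cast at this
      omega
    rw [h2] at h1
    have := abs_nonneg X₀
    have h3 : 0 < ε * (|X₀| + 1) := by positivity
    simp at h1
    linarith
  refine ⟨T, c₁, ε / 2, hT1, hc₁, by positivity, A₀, P, hA₀0.ne', Dvd.intro_left _ rfl,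
    max 1 (max X₀ X₁), fun X hX => ?_⟩
  have hX1 : 1 ≤ X := (le_max_left _ _).trans hX
  have hX2 : X₀ ≤ X := ((le_max_left _ _).trans (le_max_right _ _)).trans hX
  have hX3 : X₁ ≤ X := ((le_max_right _ _).trans (le_max_right _ _)).trans hX
  have h1 := h X hX2
  have h2 := hP X hX3
  have h3 := nonrich_card hD (a := a) (T := T) hc₁ (by linarith : 0 < X)
    ((ball t c X).filter (fun z => ¬ Rich A₀ P z))
    ((spair t c a T (c₁ * X) X).filter (fun e => ¬ Rich A₀ P e.2)) (filter_subset _ _) (by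
      intro e he
      rw [mem_filter] at he ⊢
      refine ⟨?_, he.2⟩
      have h4 := he.1
      unfold spair at h4
      rw [mem_filter, mem_product] at h4
      exact (mem_filter.1 h4.1.2).1)
  have h4 := Finset.card_filter_add_card_filter_not (s := spair t c a T (c₁ * X) X)
    (fun e => Rich A₀ P e.2)
  have h4' : (((spair t c a T (c₁ * X) X).filter (fun e => Rich A₀ P e.2)).card : ℝ) +
      (((spair t c a T (c₁ * X) X).filter (fun e => ¬ Rich A₀ P e.2)).card : ℝ) =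
      ((spair t c a T (c₁ * X) X).card : ℝ) := by exact_mod_cast h4
  have h5 : (((spair t c a T (c₁ * X) X).filter (fun e => ¬ Rich A₀ P e.2)).card : ℝ) ≤
      ((2 * ⌈4 / c₁⌉₊ + 1) * T) * ((ball t c X).filter (fun z => ¬ Rich A₀ P z)).card := by
    exact_mod_cast h3
  have h6 : ((2 * (⌈4 / c₁⌉₊ : ℝ) + 1) * T) * ((ball t c X).filter (fun z => ¬ Rich A₀ P z)).card ≤
      ((2 * (⌈4 / c₁⌉₊ : ℝ) + 1) * (T + 1)) * (δ * X) := by
    apply mul_le_mul _ h2 (Nat.cast_nonneg _) (by positivity)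
    apply mul_le_mul_of_nonneg_left (by linarith) (by positivity)
  have h7 : ((2 * (⌈4 / c₁⌉₊ : ℝ) + 1) * (T + 1)) * (δ * X) = ε / 2 * X := by
    rw [hδ]; field_simp
  linarith

/-- fibres, first kind -/
lemma fib1 (hD : t ^ 2 < 4 * c) (D : ℕ) (w : Qd t c) {T : ℕ} (hw0 : w.im ≠ 0)
    (hwT : |w.im| ≤ T) (S : Finset (Qd t c × Qd t c))
    (hS : ∀ p ∈ S, p.1 ≠ 0 ∧ nm p.1 = D ∧ star p.1 * p.2 = w) : S.card ≤ 2 * (4 * T + 1) := by
  classical
  have hcancel : ∀ z x y : Qd t c, z ≠ 0 → z * x = z * y → x = y := by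
    intro z x y hz hxy
    have h1 : z * (x - y) = 0 := by rw [mul_sub, hxy, sub_self]
    by_contra hcon
    exact Pool.Agent.W803.GA.mul_ne_zero' hD hz (sub_ne_zero.2 hcon) h1
  have hinj : Set.InjOn (fun p : Qd t c × Qd t c => p.1) S := by
    intro p hp p' hp' hpp
    have h1 := (hS p hp).2.2
    have h2 := (hS p' hp').2.2
    simp only at hpp
    rw [← h2, hpp] at h1
    have h0 : star p'.1 ≠ 0 := by
      rw [← one_le_nm hD, nm_star]
      exact nm_pos hD (hS p' hp').1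
    exact Prod.ext hpp (hcancel _ _ _ h0 h1)
  rw [← card_image_of_injOn hinj]
  apply mult_card hD D w hw0 hwT
  intro z hz
  rw [mem_image] at hz
  obtain ⟨p, hp, rfl⟩ := hz
  obtain ⟨h1, h2, h3⟩ := hS p hp
  refine ⟨h1, h2, p.2, ?_⟩
  rw [← h3, ← mul_assoc, mul_star_self' hD, h2]

/-- fibres, second kind -/
lemma fib2 (hD : t ^ 2 < 4 * c) (D : ℕ) (w : Qd t c) {T : ℕ} (hw0 : w.im ≠ 0)
    (hwT : |w.im| ≤ T) (S : Finset (Qd t c × Qd t c))
    (hS : ∀ p ∈ S, p.2 ≠ 0 ∧ nm p.2 = D ∧ star p.1 * p.2 = w) : S.card ≤ 2 * (4 * T + 1) := by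
  classical
  have hinj : Set.InjOn (fun p : Qd t c × Qd t c => (p.2, p.1)) S := by
    intro p _ p' _ hpp
    simp only [Prod.mk.injEq] at hpp
    exact Prod.ext hpp.2 hpp.1
  rw [← card_image_of_injOn hinj]
  have him : (star w).im = - w.im := by simp [QuadraticAlgebra.im_star]
  apply fib1 hD D (star w) (by rw [him]; exact neg_ne_zero.2 hw0) (by rw [him, abs_neg]; exact hwT)
  intro q hq
  rw [mem_image] at hq
  obtain ⟨p, hp, rfl⟩ := hq
  obtain ⟨h1, h2, h3⟩ := hS p hp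
  refine ⟨h1, h2, ?_⟩
  simp only
  rw [← h3, star_mul, star_star]

end Pool.Agent.W80.GB
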