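import Pool.Agent.W80.GB.Cnt

/-!
Project GB (helper80): many values of both signs.
-/

set_option autoImplicit false

namespace Pool.Agent.W80.GB

open Finset Filter
open Pool.Agent.H376R2.MR
open Pool.Agent.W78.GA

/-- the integer divisors -/
def zdiv (N : ℤ) : Finset ℤ := N.natAbs.divisors.image (fun d : ℕ => (d : ℤ)) ∪
  N.natAbs.divisors.image (fun d : ℕ => -(d : ℤ))

lemma mem_zdiv {B N : ℤ} (hN : N ≠ 0) (h : B ∣ N) : B ∈ zdiv N := by
  unfold zdiv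
  have h1 : B.natAbs ∈ N.natAbs.divisors :=
    Nat.mem_divisors.2 ⟨Int.natAbs_dvd_natAbs.2 h, Int.natAbs_ne_zero.2 hN⟩
  rw [mem_union, mem_image, mem_image]
  rcases Int.natAbs_eq B with h2 | h2
  · left; exact ⟨B.natAbs, h1, h2.symm⟩
  · right; exact ⟨B.natAbs, h1, h2.symm⟩

lemma card_zdiv (N : ℤ) : (zdiv N).card ≤ 2 * N.natAbs.divisors.card := by
  unfold zdiv
  refine (card_union_le _ _).trans ?_
  have h1 := card_image_le (s := N.natAbs.divisors) (f := fun d : ℕ => (d : ℤ))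
  have h2 := card_image_le (s := N.natAbs.divisors) (f := fun d : ℕ => -(d : ℤ))
  omega

/-- the property of a pair -/
def FF (a : ℕ) (b c₀ : ℤ) (p : Qd b (a * c₀) × Qd b (a * c₀)) (n : ℤ)
    (δ : ((ℕ × ℕ) × (ℕ × ℕ)) × (ℤ × Bool)) : Prop :=
  (δ.2.2 = true ∧ star p.1 * p.2 = ⟨δ.1.1.2 * (δ.2.1 + a * δ.1.1.1 * n), δ.1.1.2 * δ.1.1.1⟩ ∧
    nm p.1 * δ.1.2.1 * δ.1.2.2 = δ.1.1.2 ^ 2 * δ.2.1.natAbs) ∨
  (δ.2.2 = false ∧ star p.1 * p.2 =
    ⟨δ.1.1.2 * (δ.2.1 - b * δ.1.1.1 - a * δ.1.1.1 * n), δ.1.1.2 * δ.1.1.1⟩ ∧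
    nm p.2 = δ.1.2.1 * δ.1.2.2 * δ.2.1.natAbs)

/-- the range of the data -/
def DD (a : ℕ) (b c₀ : ℤ) (T P : ℕ) (n : ℤ) : Finset (((ℕ × ℕ) × (ℕ × ℕ)) × (ℤ × Bool)) :=
  ((Icc 1 T ×ˢ Icc 1 T) ×ˢ (Icc 1 (T ^ 2) ×ˢ Icc 1 P)) ×ˢ
    (zdiv (T.factorial * (a * n ^ 2 + b * n + c₀)) ×ˢ Finset.univ)

lemma card_DD (a : ℕ) (b c₀ : ℤ) (T P : ℕ) (n : ℤ) : (DD a b c₀ T P n).card ≤
    4 * T ^ 4 * P * (T.factorial * (a * n ^ 2 + b * n + c₀)).natAbs.divisors.card := by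
  unfold DD
  rw [card_product, card_product, card_product, card_product, card_product]
  simp only [Nat.card_Icc, Nat.add_sub_cancel, Finset.card_univ, Fintype.card_bool]
  have := card_zdiv (T.factorial * (a * n ^ 2 + b * n + c₀))
  calc T * T * (T ^ 2 * P) * ((zdiv (T.factorial * (a * n ^ 2 + b * n + c₀))).card * 2)
      ≤ T * T * (T ^ 2 * P) * ((2 * (T.factorial * (a * n ^ 2 + b * n + c₀)).natAbs.divisors.card) * 2) := by
        gcongr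
    _ = _ := by ring

theorem count {a : ℕ} (ha : 1 ≤ a) {b c₀ : ℤ} (hD : b ^ 2 < 4 * (a * c₀)) (s : ℤ)
    (hs : s = 1 ∨ s = -1) : ∃ (T : ℕ) (C κ : ℝ), 1 ≤ C ∧ 0 < κ ∧ ∃ X₀ : ℝ, ∀ X : ℝ, X₀ ≤ X →
    κ * X ≤ ∑ n ∈ (Icc (-⌊C * X⌋) ⌊C * X⌋).filter (fun n => lz (a * n ^ 2 + b * n + c₀) = s),
      (((T.factorial * (a * n ^ 2 + b * n + c₀)).natAbs.divisors.card : ℕ) : ℝ) := by
  classical
  obtain ⟨T, c₁, ε, hT, hc₁, hε, A₀, P, hA₀0, hA₀, X₀, h⟩ := rich_pairs hD ha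
  set C : ℝ := P + 2 + 2 * |(b : ℝ)| * T with hC
  have hC1 : 1 ≤ C := by
    have h1 : (0 : ℝ) ≤ P := Nat.cast_nonneg _
    have h2 : 0 ≤ 2 * |(b : ℝ)| * T := by positivity
    rw [hC]; linarith
  set κ' : ℝ := 2 * (4 * (T ^ 2 : ℝ) + 1) * (4 * T ^ 4 * (P + 1)) with hκ'
  have hTR : (1 : ℝ) ≤ T := by exact_mod_cast hT
  have hκ'0 : 0 < κ' := by positivity
  refine ⟨T, C, ε / κ', hC1, by positivity, max 1 X₀, fun X hX => ?_⟩
  have hX1 : 1 ≤ X := (le_max_left _ _).trans hX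
  have h := h X ((le_max_right _ _).trans hX)
  set S := (spair b (a * c₀) a T (c₁ * X) X).filter (fun e => Rich A₀ P e.2) with hS
  set G := (Icc (-⌊C * X⌋) ⌊C * X⌋).filter (fun n => lz (a * n ^ 2 + b * n + c₀) = s) with hG
  have hf0 : ∀ n : ℤ, (a : ℤ) * n ^ 2 + b * n + c₀ ≠ 0 := by
    intro n h0
    have h3 : 4 * (a : ℤ) * (a * n ^ 2 + b * n + c₀) = (2 * a * n + b) ^ 2 + (4 * (a * c₀) - b ^ 2) := by ring
    rw [h0] at h3
    have h4 := sq_nonneg (2 * (a : ℤ) * n + b)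
    linarith
  have hbd : ∀ n : ℤ, |(n : ℝ)| ≤ C * X → n ∈ Icc (-⌊C * X⌋) ⌊C * X⌋ := by
    intro n hn
    have h1 := abs_le.1 hn
    rw [mem_Icc]
    constructor
    · rw [neg_le]
      apply Int.le_floor.2
      push_cast
      linarith [h1.1]
    · exact Int.le_floor.2 h1.2
  have hdiv : ∀ (k : ℕ) (B n : ℤ), k ∈ Icc 1 T → B ∣ k * (a * n ^ 2 + b * n + c₀) →
      B ∈ zdiv (T.factorial * (a * n ^ 2 + b * n + c₀)) := by
    intro k B n hk hB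
    rw [mem_Icc] at hk
    apply mem_zdiv
    · apply mul_ne_zero _ (hf0 n)
      exact_mod_cast (Nat.factorial_pos T).ne'
    · refine hB.trans (mul_dvd_mul_right ?_ _)
      exact_mod_cast Nat.dvd_factorial (by omega) hk.2
  have hex : ∀ p ∈ S, ∃ x : ℤ × (((ℕ × ℕ) × (ℕ × ℕ)) × (ℤ × Bool)), x.1 ∈ G ∧
      x.2 ∈ DD a b c₀ T P x.1 ∧ FF a b c₀ p x.1 x.2 := by
    intro p hp
    rw [hS, mem_filter] at hp
    obtain ⟨hp1, hp2⟩ := hp
    unfold spair at hp1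
    rw [mem_filter, mem_product, mem_pball hD, mem_pball hD] at hp1
    obtain ⟨⟨⟨g1, g2⟩, g3, g4⟩, ⟨g5, g6⟩, -, ⟨g7, g8⟩, g9⟩ := hp1
    obtain ⟨m, m', k, e, g, q, B, B', H⟩ := pair_data ha hD hA₀ hA₀0 hX1 (prim_ne_zero g1)
      (prim_ne_zero g3) g2 g4 g5 g6 g7 g8 g9 hp2
    have hcase : lz (a * m ^ 2 + b * m + c₀) = s ∨ lz (a * m' ^ 2 + b * m' + c₀) = s := by
      have := H.l
      rcases lz_eq (a * m ^ 2 + b * m + c₀) with l1 | l1 <;>
      rcases lz_eq (a * m' ^ 2 + b * m' + c₀) with l2 | l2 <;>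
      rcases hs with hs | hs <;> rw [l1, l2] at this ⊢ <;> rw [hs] <;> simp_all
    rcases hcase with hc | hc
    · refine ⟨(m, (((k, e), (g, q)), (B, true))), ?_, ?_, ?_⟩
      · rw [hG, mem_filter]; exact ⟨hbd m H.b1, hc⟩
      · unfold DD
        simp only [mem_product]
        exact ⟨⟨⟨H.hk, H.he⟩, H.hg, H.hq⟩, hdiv k B m H.hk H.d1, mem_univ _⟩
      · exact Or.inl ⟨rfl, H.w1, H.n1⟩
    · refine ⟨(m', (((k, e), (g, q)), (B', false))), ?_, ?_, ?_⟩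
      · rw [hG, mem_filter]; exact ⟨hbd m' H.b2, hc⟩
      · unfold DD
        simp only [mem_product]
        exact ⟨⟨⟨H.hk, H.he⟩, H.hg, H.hq⟩, hdiv k B' m' H.hk H.d2, mem_univ _⟩
      · exact Or.inr ⟨rfl, H.w2, H.n2⟩
  choose! φ hφ1 hφ2 hφ3 using hex
  -- the fibres
  have hfib : ∀ n ∈ G, ∀ δ ∈ DD a b c₀ T P n,
      (S.filter (fun p => φ p = (n, δ))).card ≤ 2 * (4 * T ^ 2 + 1) := by
    intro n _ δ hδ
    unfold DD at hδ
    simp only [mem_product] at hδ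
    obtain ⟨⟨⟨hk, he⟩, hg, hq⟩, -, -⟩ := hδ
    rw [mem_Icc] at hk he hg hq
    have hS0 : ∀ p ∈ S, p.1 ≠ 0 ∧ p.2 ≠ 0 := by
      intro p hp
      rw [hS, mem_filter] at hp
      have hp1 := hp.1
      unfold spair at hp1
      rw [mem_filter, mem_product, mem_pball hD, mem_pball hD] at hp1
      exact ⟨prim_ne_zero hp1.1.1.1, prim_ne_zero hp1.1.2.1⟩
    have hF : ∀ p ∈ S.filter (fun p => φ p = (n, δ)), FF a b c₀ p n δ := by
      intro p hp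
      rw [mem_filter] at hp
      have := hφ3 p hp.1
      rw [hp.2] at this
      exact this
    have hek : (0 : ℤ) < δ.1.1.2 * δ.1.1.1 := by
      have h1 : 0 < δ.1.1.2 * δ.1.1.1 := Nat.mul_pos he.1 hk.1
      exact_mod_cast h1
    have hek2 : |((δ.1.1.2 : ℤ) * δ.1.1.1)| ≤ ((T ^ 2 : ℕ) : ℤ) := by
      rw [abs_of_pos hek]
      have : δ.1.1.2 * δ.1.1.1 ≤ T ^ 2 := by
        rw [pow_two]; exact Nat.mul_le_mul he.2 hk.2
      exact_mod_cast this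
    rcases Bool.eq_false_or_eq_true δ.2.2 with hb | hb
    · rcases (S.filter (fun p => φ p = (n, δ))).eq_empty_or_nonempty with hE | ⟨p₀, hp₀⟩
      · rw [hE]; simp
      apply fib1 hD (nm p₀.1)
        ⟨δ.1.1.2 * (δ.2.1 + a * δ.1.1.1 * n), δ.1.1.2 * δ.1.1.1⟩ hek.ne' hek2
      intro p hp
      have h1 := hF p hp
      have h0 := hF p₀ hp₀
      unfold FF at h1 h0
      rw [hb] at h1 h0
      simp only [true_and, Bool.true_eq_false, false_and, or_false] at h1 h0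
      refine ⟨(hS0 p (mem_filter.1 hp).1).1, ?_, h1.1⟩
      have h2 := h1.2.trans h0.2.symm
      have hg0 : 0 < δ.1.2.1 * δ.1.2.2 := Nat.mul_pos hg.1 hq.1
      apply Nat.eq_of_mul_eq_mul_right hg0
      linarith
    · apply fib2 hD (δ.1.2.1 * δ.1.2.2 * δ.2.1.natAbs)
        ⟨δ.1.1.2 * (δ.2.1 - b * δ.1.1.1 - a * δ.1.1.1 * n), δ.1.1.2 * δ.1.1.1⟩ hek.ne' hek2
      intro p hp
      have h1 := hF p hp
      unfold FF at h1
      rw [hb] at h1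
      simp only [true_and, Bool.false_eq_true, false_and, false_or] at h1
      exact ⟨(hS0 p (mem_filter.1 hp).1).2, h1.2, h1.1⟩
  -- summation
  have hsum : S.card ≤ ∑ n ∈ G, 2 * (4 * T ^ 2 + 1) * (DD a b c₀ T P n).card := by
    have h1 := Finset.card_eq_sum_card_fiberwise (f := fun p => (φ p).1) (s := S) (t := G)
      (fun p hp => hφ1 p hp)
    rw [h1]
    apply sum_le_sum
    intro n hn
    apply card_le_mul_card_image_of_maps_to (f := fun p => (φ p).2)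
    · intro p hp
      rw [mem_filter] at hp
      have := hφ2 p hp.1
      rwa [hp.2] at this
    · intro δ hδ
      refine le_trans (card_le_card ?_) (hfib n hn δ hδ)
      intro p hp
      rw [mem_filter, mem_filter] at hp
      rw [mem_filter]
      exact ⟨hp.1.1, Prod.ext hp.1.2 hp.2⟩
  have hsum2 : (S.card : ℝ) ≤ κ' * ∑ n ∈ G,
      (((T.factorial * (a * n ^ 2 + b * n + c₀)).natAbs.divisors.card : ℕ) : ℝ) := by
    have h1 : (S.card : ℝ) ≤ ((∑ n ∈ G, 2 * (4 * T ^ 2 + 1) * (DD a b c₀ T P n).card : ℕ) : ℝ) := by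
      exact_mod_cast hsum
    refine h1.trans ?_
    push_cast
    rw [mul_sum]
    apply sum_le_sum
    intro n _
    have h2 : ((DD a b c₀ T P n).card : ℝ) ≤ 4 * T ^ 4 * P *
        ((T.factorial * (a * n ^ 2 + b * n + c₀)).natAbs.divisors.card : ℝ) := by
      exact_mod_cast card_DD a b c₀ T P n
    have h3 : (0 : ℝ) ≤ ((T.factorial * (a * n ^ 2 + b * n + c₀)).natAbs.divisors.card : ℝ) :=
      Nat.cast_nonneg _
    have hP0 : (0 : ℝ) ≤ P := Nat.cast_nonneg _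
    calc 2 * (4 * (T : ℝ) ^ 2 + 1) * ((DD a b c₀ T P n).card : ℝ)
        ≤ 2 * (4 * (T : ℝ) ^ 2 + 1) * (4 * T ^ 4 * P *
        ((T.factorial * (a * n ^ 2 + b * n + c₀)).natAbs.divisors.card : ℝ)) :=
          mul_le_mul_of_nonneg_left h2 (by positivity)
      _ ≤ 2 * (4 * (T : ℝ) ^ 2 + 1) * (4 * T ^ 4 * (P + 1) *
        ((T.factorial * (a * n ^ 2 + b * n + c₀)).natAbs.divisors.card : ℝ)) := by
          gcongr; linarith
      _ = _ := by rw [hκ']; ring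
  rw [div_mul_eq_mul_div, div_le_iff₀ hκ'0]
  linarith

end Pool.Agent.W80.GB
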