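import Pool.Agent.W80.GB.Defs

/-!
Project GB (helper80): the system of elements restricted to primes not dividing `a`, and the
coefficient function `ga a`.
-/

set_option autoImplicit false

namespace Pool.Agent.W80.GB

open Finset Filter
open Pool.Agent.H376R2.MR
open Pool.Agent.W78.GA

variable {t c : ℤ}

lemma cf_ga (a : ℕ) : Cf (ga a : Qd t c → ℤ) := by
  constructor
  · intro z
    unfold ga
    split_ifs
    · rcases gl_eq z with h | h <;> rw [h] <;> norm_num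
    · norm_num
  · intro z
    unfold ga
    rw [nm_neg, gl_neg]

/-- trimmed predicate -/
def Tr (M : ℕ → Prop) (a : ℕ) (m : ℕ) : Prop := M m ∧ m.Coprime a

lemma inv_ga (hD : t ^ 2 < 4 * c) {Ap Bp M : ℕ → Prop} {E : ℕ} {ρ : ℕ → ℤ} {ϖ : ℕ → Qd t c}
    (hE : Ele t c Ap Bp M E ρ ϖ) (a : ℕ) : Inv (ga a : Qd t c → ℤ) (Tr M a) ϖ := by
  intro m hm n hn u z hu he
  obtain ⟨p, q, hp, hq, hpq, -, -⟩ := hE.fac m hm.1
  have hpp := (hE.prA p hp).1
  have hqp := (hE.prB q hq).1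
  have hm0 : 0 < m := by rw [hpq]; exact Nat.mul_pos hpp.pos hqp.pos
  have hn0 : 0 < n := Nat.pos_of_dvd_of_pos hn hm0
  have hϖ : nm (ϖ m) = m := (hE.elt m hm.1).1
  have hϖ0 : ϖ m ≠ 0 := by
    intro h
    rw [h, nm_zero] at hϖ
    omega
  have hl : gl (ϖ m) = 1 := by
    unfold gl
    rw [hϖ, hpq, lam_mul hpp.ne_zero hqp.ne_zero, lam_prime hpp, lam_prime hqp]
    norm_num
  have hnm : m * nm u = n ^ 2 * nm z := by
    have h1 := congrArg nm he
    rw [nm_mul, hϖ, nm_mul, nm_natCast] at h1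
    exact h1
  have hz : z ≠ 0 := by
    rintro rfl
    rw [nm_zero, mul_zero] at hnm
    have := Nat.mul_pos hm0 (nm_pos hD hu)
    omega
  have hgl : gl u = gl z := by
    have h4 : gl (ϖ m * u) = gl u := by
      rw [gl_mul hD hϖ0 hu, hl, one_mul]
    rw [← h4, he, gl_natCast_mul hn0 hD hz]
  have hca : n.Coprime a := Nat.Coprime.coprime_dvd_left hn hm.2
  have : (nm u).Coprime a ↔ (nm z).Coprime a := by
    have h1 : (m * nm u).Coprime a ↔ (nm u).Coprime a := by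
      rw [Nat.coprime_mul_iff_left]
      exact ⟨fun h => h.2, fun h => ⟨hm.2, h⟩⟩
    have h2 : (n ^ 2 * nm z).Coprime a ↔ (nm z).Coprime a := by
      rw [Nat.coprime_mul_iff_left]
      exact ⟨fun h => h.2, fun h => ⟨hca.pow_left 2, h⟩⟩
    rw [← h1, hnm, h2]
  unfold ga
  rw [hgl]
  simp only [this]

open scoped Classical in
lemma mem_cell {M : ℕ → Prop} {H v m : ℕ} : m ∈ cellM M H v ↔
    m ∈ range (⌊Real.exp (((v : ℝ) + 1) / H)⌋₊ + 1) ∧ M m ∧ (v : ℝ) / H ≤ Real.log m ∧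
      Real.log m < ((v : ℝ) + 1) / H := by
  unfold cellM
  rw [mem_filter]

lemma cell_once (M : ℕ → Prop) (H : ℕ) (hH : 1 ≤ H) {m v v' : ℕ} (h : m ∈ cellM M H v)
    (h' : m ∈ cellM M H v') : v = v' := by
  rw [mem_cell] at h h'
  have hH' : (0 : ℝ) < H := by exact_mod_cast hH
  obtain ⟨-, -, h1, h2⟩ := h
  obtain ⟨-, -, h3, h4⟩ := h'
  have e1 : (v : ℝ) / H < ((v' : ℝ) + 1) / H := by linarith
  have e2 : (v' : ℝ) / H < ((v : ℝ) + 1) / H := by linarith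
  rw [div_lt_div_iff_of_pos_right hH'] at e1 e2
  have e3 : v < v' + 1 := by exact_mod_cast e1
  have e4 : v' < v + 1 := by exact_mod_cast e2
  omega

lemma bad_sum (M : ℕ → Prop) (R : ℕ) (hM : ∀ m, M m → 1 ≤ m ∧ m ≤ R) (H v₀ v₁ : ℕ) (hH : 1 ≤ H) :
    ∑ v ∈ Ico v₀ v₁, mE M H v ≤ R := by
  classical
  unfold mE
  have h1 : ∑ v ∈ Ico v₀ v₁, ∑ m ∈ cellM M H v, 1 / (m : ℝ) =
      ∑ m ∈ (Ico v₀ v₁).biUnion (fun v => cellM M H v), 1 / (m : ℝ) := by
    rw [sum_biUnion]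
    intro v _ v' _ hne
    rw [Function.onFun, Finset.disjoint_left]
    intro m hm hm'
    exact hne (cell_once M H hH hm hm')
  rw [h1]
  have hsub : (Ico v₀ v₁).biUnion (fun v => cellM M H v) ⊆ Icc 1 R := by
    intro m hm
    rw [mem_biUnion] at hm
    obtain ⟨v, -, hm⟩ := hm
    rw [mem_cell] at hm
    rw [mem_Icc]
    exact hM m hm.2.1
  calc ∑ m ∈ (Ico v₀ v₁).biUnion (fun v => cellM M H v), 1 / (m : ℝ)
      ≤ ∑ m ∈ Icc 1 R, 1 / (m : ℝ) :=
        sum_le_sum_of_subset_of_nonneg hsub fun _ _ _ => by positivity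
    _ ≤ ∑ _m ∈ Icc 1 R, (1 : ℝ) := by
        refine sum_le_sum fun m hm => ?_
        rw [mem_Icc] at hm
        have : (1 : ℝ) ≤ m := by exact_mod_cast hm.1
        exact (div_le_one (by linarith)).2 this
    _ = R := by simp

lemma mE_split (M : ℕ → Prop) (a H v : ℕ) :
    mE M H v = mE (Tr M a) H v + mE (fun m => M m ∧ ¬ m.Coprime a) H v := by
  classical
  unfold mE
  rw [← sum_union]
  · congr 1
    ext m
    rw [mem_union, mem_cell, mem_cell, mem_cell]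
    unfold Tr
    tauto
  · rw [Finset.disjoint_left]
    intro m hm hm'
    rw [mem_cell] at hm hm'
    exact hm'.2.1.2 hm.2.1.2

theorem ele_trim {Ap Bp M : ℕ → Prop} {E : ℕ} {ρ : ℕ → ℤ} {ϖ : ℕ → Qd t c}
    (hE : Ele t c Ap Bp M E ρ ϖ) (a : ℕ) (ha : 1 ≤ a) : Ele t c Ap Bp (Tr M a) E ρ ϖ := by
  refine
    { pos := hE.pos, prA := hE.prA, prB := hE.prB, disj := hE.disj,
      fac := fun m hm => hE.fac m hm.1, root := hE.root, compat := hE.compat,
      elt := fun m hm => hE.elt m hm.1, rich := ?_ }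
  obtain ⟨c₀, hc₀, C, h⟩ := hE.rich
  refine ⟨c₀, hc₀, C + ((a ^ (E + 1) : ℕ) : ℝ), fun H v₀ v₁ hH hv hvv => ?_⟩
  have h1 := h H v₀ v₁ hH hv hvv
  have h2 := bad_sum (fun m => M m ∧ ¬ m.Coprime a) (a ^ (E + 1)) (fun m hm => by
    obtain ⟨p, q, hp, hq, hpq, h3, h4⟩ := hE.fac m hm.1
    have hpp := (hE.prA p hp).1
    have hqp := (hE.prB q hq).1
    refine ⟨by rw [hpq]; exact Nat.mul_pos hpp.pos hqp.pos, ?_⟩
    have hor : p ∣ a ∨ q ∣ a := by
      by_contra hcon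
      push Not at hcon
      apply hm.2
      rw [hpq, Nat.coprime_mul_iff_left]
      exact ⟨(Nat.Prime.coprime_iff_not_dvd hpp).2 hcon.1,
        (Nat.Prime.coprime_iff_not_dvd hqp).2 hcon.2⟩
    rw [hpq, pow_succ]
    rcases hor with h5 | h5
    · have hpa : p ≤ a := Nat.le_of_dvd ha h5
      rw [mul_comm]
      exact Nat.mul_le_mul (h4.trans (Nat.pow_le_pow_left hpa E)) hpa
    · have hqa : q ≤ a := Nat.le_of_dvd ha h5
      exact Nat.mul_le_mul (h3.trans (Nat.pow_le_pow_left hqa E)) hqa) H v₀ v₁ hH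
  have h3 : ∑ v ∈ Ico v₀ v₁, mE M H v = ∑ v ∈ Ico v₀ v₁, mE (Tr M a) H v +
      ∑ v ∈ Ico v₀ v₁, mE (fun m => M m ∧ ¬ m.Coprime a) H v := by
    rw [← sum_add_distrib]
    exact sum_congr rfl fun v _ => mE_split M a H v
  linarith

end Pool.Agent.W80.GB
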