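import Pool.Agent.W80.GB.MR
import Pool.Agent.W80.GB.Dec
import Pool.Agent.W80.GB.Trim
import Pool.Agent.W586.GA.Mach
import Pool.Agent.W240.GA.LevA
import Pool.Agent.W240.GA.LevB
import Pool.Agent.W397.GA.Cnt
import Pool.Agent.W45.GA.Lat
import Pool.Agent.W322.GA.Red
import Pool.Agent.W322.GA.LatI
import Pool.Agent.W327.GA.LS
import Pool.Agent.W327.GA.Ang1
import Pool.Agent.W397.GA.Ang2
import Pool.Agent.W191.GA.Sparse
import Pool.Agent.W573.GA.Ele
import Pool.Agent.W999.GA.TK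
import Pool.Agent.W109.GA.Fin
import Pool.Agent.W194.GA.Sele
import Pool.Agent.W586.GA.Celle

/-!
Project GB (helper80): the Matomaki-Radziwill theorem for the angles of the primitive elements
of norm prime to `a`.
-/

set_option autoImplicit false

namespace Pool.Agent.W80.GB

open Pool.Agent.W78.GA

variable {t c : ℤ}

theorem lat_all (hD : t ^ 2 < 4 * c) : S_LAT t c := Pool.Agent.W45.GA.lat hD

theorem lati_all (hD : t ^ 2 < 4 * c) : S_LATI t c :=
  Pool.Agent.W322.GA.lati_of hD (lat_all hD) (Pool.Agent.W322.GA.red hD)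

/-- the Matomaki-Radziwill theorem for the coefficient `ga a` -/
theorem mr_all (hD : t ^ 2 < 4 * c) (a : ℕ) (ha : 1 ≤ a) : S_MRg (ga a : Qd t c → ℤ) := by
  have hlat := lat_all hD
  have hlati := lati_all hD
  have hls : S_LS t c := Pool.Agent.W327.GA.ls hD
  have hang : S_ANG t c := Pool.Agent.W397.GA.ang_of (Pool.Agent.W327.GA.ang1 hD)
    (Pool.Agent.W397.GA.ang2 hD)
  have hangi : S_ANGI t c := Pool.Agent.W322.GA.angi_of hD hang (Pool.Agent.W322.GA.red hD)
  have hsp : S_SPARSE t c := Pool.Agent.W191.GA.sparse_of hD hang hlat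
  have htk : S_TK t c := Pool.Agent.W999.GA.tk_of hD hlat hlati
  have hselb : S_SELB t c := Pool.Agent.W109.GA.selb hD
  have hcell : S_CELLE t c := Pool.Agent.W586.GA.celle_of hD
    (Pool.Agent.W194.GA.sele_of hD hangi hlat hselb)
  have hmach : S_MACH := Pool.Agent.W586.GA.mach_of Pool.Agent.W240.GA.leva
    Pool.Agent.W240.GA.levb Pool.Agent.W397.GA.s_cnt Pool.Agent.W586.GA.upart
  obtain ⟨Ap, Bp, M, E, ρ, ϖ, hE⟩ := Pool.Agent.W573.GA.ele hD
  have hcf : Cf (ga a : Qd t c → ℤ) := cf_ga a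
  exact mr_of hcf hD hmach (ele_trim hE a ha) (inv_ga hD hE a) (dec_of hcf hD hlati htk)
    (mom0_of hcf hD hls hlat) (Pool.Agent.W822.GA.momp_of hD hls) (mom_of hcf hD hls hlat hlati)
    hsp hls hcell hlat

end Pool.Agent.W80.GB
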