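import Pool.Agent.W80.GB.Pell

/-!
Project GB (helper80): the final theorem.
-/

set_option autoImplicit false

namespace Pool.Agent.W80.GB

open Finset Filter
open Pool.Agent.H376R2.MR
open Pool.Agent.W78.GA

theorem many {a : ℕ} (ha : 1 ≤ a) {b c₀ : ℤ} (hD : b ^ 2 < 4 * (a * c₀)) (s : ℤ)
    (hs : s = 1 ∨ s = -1) (ε : ℝ) (hε : 0 < ε) : ∃ N₀ : ℕ, ∀ N : ℕ, N₀ ≤ N →
    (N : ℝ) ^ (1 - ε) ≤
      (((Icc (-(N : ℤ)) N).filter (fun n => lz (a * n ^ 2 + b * n + c₀) = s)).card : ℝ) := by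
  classical
  obtain ⟨T, C, κ, hC1, hκ, X₀, h⟩ := count ha hD s hs
  obtain ⟨C₂, hC₂, hdiv⟩ := Pool.Agent.H510R2.divisor_bound (ε / 4) (by positivity)
  set M₁ : ℝ := T.factorial * ((a : ℝ) + |(b : ℝ)| + |(c₀ : ℝ)|) with hM₁
  have hM₁0 : 0 ≤ M₁ := by positivity
  set C₃ : ℝ := C₂ * (M₁ + 1) ^ (ε / 4) with hC₃
  have hC₃0 : 0 < C₃ := by positivity
  have hC0 : 0 < C := by linarith
  set γ : ℝ := κ / (C * C₃) with hγ
  have hγ0 : 0 < γ := by positivity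
  have hev : ∀ᶠ N : ℕ in atTop, 1 / γ ≤ (N : ℝ) ^ (ε / 2) :=
    ((tendsto_rpow_atTop (by positivity : 0 < ε / 2)).comp tendsto_natCast_atTop_atTop).eventually_ge_atTop _
  obtain ⟨N₁, hN₁⟩ := eventually_atTop.1 hev
  refine ⟨max (max 1 N₁) ⌈C * X₀⌉₊, fun N hN => ?_⟩
  have hN1 : 1 ≤ N := ((le_max_left _ _).trans (le_max_left _ _)).trans hN
  have hN2 : N₁ ≤ N := ((le_max_right _ _).trans (le_max_left _ _)).trans hN
  have hN3 : C * X₀ ≤ N := (Nat.le_ceil _).trans (by exact_mod_cast (le_max_right _ _).trans hN)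
  have hNR : (1 : ℝ) ≤ N := by exact_mod_cast hN1
  have hN0 : (0 : ℝ) < N := by linarith
  have hX : X₀ ≤ N / C := by rw [le_div_iff₀ hC0]; linarith
  have h1 := h (N / C) hX
  have hCN : C * ((N : ℝ) / C) = N := by field_simp
  rw [hCN, Int.floor_natCast] at h1
  set G := (Icc (-(N : ℤ)) N).filter (fun n => lz (a * n ^ 2 + b * n + c₀) = s) with hG
  have hf0 : ∀ n : ℤ, (a : ℤ) * n ^ 2 + b * n + c₀ ≠ 0 := by
    intro n h0
    have h3 : 4 * (a : ℤ) * (a * n ^ 2 + b * n + c₀) = (2 * a * n + b) ^ 2 + (4 * (a * c₀) - b ^ 2) := by ring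
    rw [h0] at h3
    have := sq_nonneg (2 * (a : ℤ) * n + b)
    linarith
  have hτ : ∀ n ∈ G, (((T.factorial * (a * n ^ 2 + b * n + c₀)).natAbs.divisors.card : ℕ) : ℝ) ≤
      C₃ * (N : ℝ) ^ (ε / 2) := by
    intro n hn
    rw [hG, mem_filter, mem_Icc] at hn
    have hne : (T.factorial : ℤ) * (a * n ^ 2 + b * n + c₀) ≠ 0 :=
      mul_ne_zero (by exact_mod_cast (Nat.factorial_pos T).ne') (hf0 n)
    have h2 := hdiv _ (Nat.one_le_iff_ne_zero.2 (Int.natAbs_ne_zero.2 hne))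
    have hnN : |(n : ℝ)| ≤ N := by
      rw [abs_le]
      constructor
      · have : ((-(N : ℤ) : ℤ) : ℝ) ≤ (n : ℝ) := by exact_mod_cast hn.1.1
        push_cast at this; exact this
      · have : (n : ℝ) ≤ ((N : ℤ) : ℝ) := by exact_mod_cast hn.1.2
        push_cast at this; exact this
    have h3 : (((T.factorial : ℤ) * (a * n ^ 2 + b * n + c₀)).natAbs : ℝ) ≤ (M₁ + 1) * (N : ℝ) ^ 2 := by
      rw [Nat.cast_natAbs, Int.cast_abs]
      push_cast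
      have h4 : |(a : ℝ) * n ^ 2 + b * n + c₀| ≤ ((a : ℝ) + |(b : ℝ)| + |(c₀ : ℝ)|) * (N : ℝ) ^ 2 := by
        have g0 : |(n : ℝ)| ^ 2 ≤ (N : ℝ) ^ 2 := pow_le_pow_left₀ (abs_nonneg _) hnN 2
        have g1 : |(a : ℝ) * (n : ℝ) ^ 2| ≤ a * (N : ℝ) ^ 2 := by
          rw [abs_mul, abs_pow, abs_of_nonneg (Nat.cast_nonneg a : (0 : ℝ) ≤ a)]
          exact mul_le_mul_of_nonneg_left g0 (Nat.cast_nonneg _)
        have g2 : |(b : ℝ) * n| ≤ |(b : ℝ)| * (N : ℝ) ^ 2 := by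
          rw [abs_mul]
          apply mul_le_mul_of_nonneg_left _ (abs_nonneg _)
          calc |(n : ℝ)| ≤ N := hnN
            _ = N * 1 := by ring
            _ ≤ N * N := mul_le_mul_of_nonneg_left hNR hN0.le
            _ = (N : ℝ) ^ 2 := by ring
        have g3 : |(c₀ : ℝ)| ≤ |(c₀ : ℝ)| * (N : ℝ) ^ 2 :=
          le_mul_of_one_le_right (abs_nonneg _) (one_le_pow₀ hNR)
        calc |(a : ℝ) * n ^ 2 + b * n + c₀| ≤ |(a : ℝ) * n ^ 2 + b * n| + |(c₀ : ℝ)| := abs_add_le _ _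
          _ ≤ |(a : ℝ) * n ^ 2| + |(b : ℝ) * n| + |(c₀ : ℝ)| := by
              have := abs_add_le ((a : ℝ) * n ^ 2) (b * n)
              linarith
          _ ≤ _ := by linarith
      rw [abs_mul, abs_of_nonneg (Nat.cast_nonneg _ : (0 : ℝ) ≤ (T.factorial : ℝ))]
      have h5 := mul_le_mul_of_nonneg_left h4 (Nat.cast_nonneg T.factorial : (0 : ℝ) ≤ (T.factorial : ℝ))
      have h6 : 0 ≤ (N : ℝ) ^ 2 := by positivity
      calc _ ≤ (T.factorial : ℝ) * (((a : ℝ) + |(b : ℝ)| + |(c₀ : ℝ)|) * (N : ℝ) ^ 2) := h5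
        _ = M₁ * (N : ℝ) ^ 2 := by rw [hM₁]; ring
        _ ≤ (M₁ + 1) * (N : ℝ) ^ 2 := by linarith
    refine h2.trans ?_
    have h4 : (((T.factorial : ℤ) * (a * n ^ 2 + b * n + c₀)).natAbs : ℝ) ^ (ε / 4) ≤
        ((M₁ + 1) * (N : ℝ) ^ 2) ^ (ε / 4) :=
      Real.rpow_le_rpow (Nat.cast_nonneg _) h3 (by positivity)
    have h5 : ((M₁ + 1) * (N : ℝ) ^ 2) ^ (ε / 4) = (M₁ + 1) ^ (ε / 4) * (N : ℝ) ^ (ε / 2) := by
      rw [Real.mul_rpow (by positivity) (by positivity)]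
      congr 1
      rw [← Real.rpow_natCast, ← Real.rpow_mul hN0.le]
      congr 1
      push_cast
      ring
    rw [h5] at h4
    calc C₂ * (((T.factorial : ℤ) * (a * n ^ 2 + b * n + c₀)).natAbs : ℝ) ^ (ε / 4)
        ≤ C₂ * ((M₁ + 1) ^ (ε / 4) * (N : ℝ) ^ (ε / 2)) := mul_le_mul_of_nonneg_left h4 hC₂.le
      _ = C₃ * (N : ℝ) ^ (ε / 2) := by rw [hC₃]; ring
  have h2 : κ * (N / C) ≤ (G.card : ℝ) * (C₃ * (N : ℝ) ^ (ε / 2)) := by
    refine h1.trans ((sum_le_sum hτ).trans (le_of_eq ?_))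
    rw [sum_const, nsmul_eq_mul]
  have hNe0 : 0 < (N : ℝ) ^ (ε / 2) := by positivity
  have h3 : γ * (N : ℝ) ≤ (G.card : ℝ) * (N : ℝ) ^ (ε / 2) := by
    have e1 : γ * (N : ℝ) = κ * (N / C) / C₃ := by rw [hγ]; field_simp
    rw [e1, div_le_iff₀ hC₃0]
    linarith
  have h4 : 1 ≤ γ * (N : ℝ) ^ (ε / 2) := by
    have := hN₁ N hN2
    rw [div_le_iff₀ hγ0] at this
    linarith
  have h5 : (N : ℝ) ^ (1 - ε) * ((N : ℝ) ^ (ε / 2) * (N : ℝ) ^ (ε / 2)) = N := by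
    rw [← Real.rpow_add hN0, ← Real.rpow_add hN0]
    have : 1 - ε + (ε / 2 + ε / 2) = 1 := by ring
    rw [this, Real.rpow_one]
  have hNp : 0 < (N : ℝ) ^ (1 - ε) := by positivity
  have h6 : (N : ℝ) ^ (1 - ε) * (N : ℝ) ^ (ε / 2) ≤ (G.card : ℝ) * (N : ℝ) ^ (ε / 2) := by
    refine le_trans ?_ h3
    have h7 : (N : ℝ) ^ (1 - ε) * (N : ℝ) ^ (ε / 2) * 1 ≤
        (N : ℝ) ^ (1 - ε) * (N : ℝ) ^ (ε / 2) * (γ * (N : ℝ) ^ (ε / 2)) :=
      mul_le_mul_of_nonneg_left h4 (by positivity)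
    calc (N : ℝ) ^ (1 - ε) * (N : ℝ) ^ (ε / 2) = (N : ℝ) ^ (1 - ε) * (N : ℝ) ^ (ε / 2) * 1 := by ring
      _ ≤ _ := h7
      _ = γ * ((N : ℝ) ^ (1 - ε) * ((N : ℝ) ^ (ε / 2) * (N : ℝ) ^ (ε / 2))) := by ring
      _ = γ * N := by rw [h5]
  exact le_of_mul_le_mul_right h6 hNe0

theorem infinite_pos {a : ℕ} (ha : 1 ≤ a) {b c₀ : ℤ} (hD : b ^ 2 < 4 * (a * c₀)) (s : ℤ)
    (hs : s = 1 ∨ s = -1) (M : ℤ) : ∃ n : ℤ, M < n ∧ lz (a * n ^ 2 + b * n + c₀) = s := by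
  classical
  obtain ⟨N₀, h⟩ := many ha hD s hs (1 / 2) (by norm_num)
  -- an integer with the right sign outside of a finite set
  set R : ℤ := 4 * (a * c₀) + |b| with hR
  have hR0 : 0 ≤ R := by
    have := sq_nonneg b; have := abs_nonneg b
    rw [hR]; linarith
  set N : ℕ := max (N₀ + 1) ((2 * R.toNat + 2) ^ 2) with hN
  have h1 := h N ((Nat.le_succ _).trans (le_max_left _ _))
  have h2 : (2 * (R.toNat : ℝ) + 2) ≤ (N : ℝ) ^ ((1 : ℝ) - 1 / 2) := by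
    have h3 : ((2 * (R.toNat : ℝ) + 2) ^ 2) ≤ (N : ℝ) := by
      have : (2 * R.toNat + 2) ^ 2 ≤ N := le_max_right _ _
      exact_mod_cast this
    have h4 : (1 : ℝ) - 1 / 2 = 1 / 2 := by norm_num
    rw [h4, ← Real.sqrt_eq_rpow]
    exact Real.le_sqrt_of_sq_le h3
  have h3 : (2 * R.toNat + 2) ≤ ((Icc (-(N : ℤ)) N).filter
      (fun n => lz (a * n ^ 2 + b * n + c₀) = s)).card := by
    exact_mod_cast h2.trans h1
  have h4 : ∃ n ∈ (Icc (-(N : ℤ)) N).filter (fun n => lz (a * n ^ 2 + b * n + c₀) = s),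
      n ∉ Icc (-R) R := by
    by_contra hcon
    push Not at hcon
    have h5 := card_le_card (fun n hn => hcon n hn)
    rw [Int.card_Icc] at h5
    omega
  obtain ⟨n₀, hn₀, hn₀'⟩ := h4
  rw [mem_filter] at hn₀
  have h5 : R < |n₀| := by
    by_contra hcon
    push Not at hcon
    exact hn₀' (mem_Icc.2 (abs_le.1 hcon))
  obtain ⟨n, hn1, hn2⟩ := pell_values ha hD n₀ (not_square ha hD n₀ h5) M
  exact ⟨n, hn1, hn2.trans hn₀.2⟩

end Pool.Agent.W80.GB
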