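import Pool.Agent.W80.GB.Far

/-!
Project GB (helper80): near pairs give pairs of opposite sign with small determinant.
-/

set_option autoImplicit false

namespace Pool.Agent.W80.GB

open Finset Filter
open Pool.Agent.H376R2.MR
open Pool.Agent.W78.GA
open Pool.Agent.W803.GA (rd abs_rd_le rd_eq Fj_rd ang_mul ang_natCast_mul exists_primpart mul_ne_zero'
  geom_half geom_quarter pt_bound sin_add_two_pi_mul sqrt_disc dt_eq_sin dt_zero)

variable {t c : ℤ}

open scoped Classical in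
/-- pairs of opposite sign with small determinant, norms prime to `a` -/
noncomputable def spair (t c : ℤ) (a T : ℕ) (B X : ℝ) : Finset (Qd t c × Qd t c) :=
  (pball t c X ×ˢ pball t c X).filter (fun e => ((nm e.1).Coprime a ∧ (nm e.2).Coprime a) ∧
    (B ≤ nm e.1 ∧ B ≤ nm e.2) ∧ (1 ≤ dt e.1 e.2 ∧ dt e.1 e.2 ≤ T) ∧ gl e.1 ≠ gl e.2)

lemma near_map (hD : t ^ 2 < 4 * c) {a : ℕ} {X B δ : ℝ} {z z' u : Qd t c}
    (hz : z ∈ pball t c X) (hz' : z' ∈ pball t c X) (hu0 : u ≠ 0) (hca : (nm u).Coprime a)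
    (hcz : (nm z).Coprime a) (hcz' : (nm z').Coprime a) (hB0 : 0 ≤ B)
    (hBz : B ≤ nm z) (hBz' : B ≤ nm z')
    (hgl : gl z ≠ gl (u * z')) (hr : |rd (ang z - ang (u * z'))| ≤ δ) {T : ℕ}
    (hT : 2 * nm u * X * δ ≤ T) :
    ∃ (n : ℕ) (σ : ℤ) (y : Qd t c), (n ∈ Icc 1 (nm u)) ∧ (σ ∈ ({1, -1} : Finset ℤ)) ∧
      u * z' = (σ : Qd t c) * (n * y) ∧ (z, y) ∈ spair t c a T (B / nm u) (nm u * X) := by
  classical
  have hzp := (mem_pball hD).1 hz
  have hzp' := (mem_pball hD).1 hz'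
  have hz0 := prim_ne_zero hzp.1
  have hz0' := prim_ne_zero hzp'.1
  have hX0 : 0 ≤ X := (Nat.cast_nonneg _).trans hzp.2
  have hw0 : u * z' ≠ 0 := mul_ne_zero' hD hu0 hz0'
  obtain ⟨y, n, hn, hy, hw⟩ := exists_primpart hw0
  have hy0 := prim_ne_zero hy
  have hU0 : 0 < nm u := nm_pos hD hu0
  have hUR : (1 : ℝ) ≤ nm u := by exact_mod_cast hU0
  have h1 : nm u * nm z' = n ^ 2 * nm y := by rw [← nm_mul, hw, nm_mul, nm_natCast]
  -- `n ∣ nm u`
  have hnd : n ∣ nm u := by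
    have h2 : ((nm u : ℕ) : Qd t c) * z' = (n : Qd t c) * (star u * y) := by
      rw [← star_mul_self' hD u, mul_assoc, hw]
      ring
    have h3 : (n : Qd t c) ∣ ((nm u : ℕ) : Qd t c) * z' := ⟨_, h2⟩
    rw [natCast_dvd] at h3
    have hp := hzp'.1
    unfold prim at hp
    have h4 : (n : ℤ) ∣ (nm u : ℤ) * z'.re := by simpa using h3.1
    have h5 : (n : ℤ) ∣ (nm u : ℤ) * z'.im := by simpa using h3.2
    have h6 := Int.dvd_coe_gcd h4 h5
    rw [Int.gcd_mul_left, hp] at h6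
    have h7 : (n : ℤ) ∣ (nm u : ℤ) := by simpa using h6
    exact_mod_cast h7
  have hnU : n ≤ nm u := Nat.le_of_dvd hU0 hnd
  have hyle : nm y ≤ nm u * nm z' := by
    rw [h1]; exact Nat.le_mul_of_pos_left _ (by positivity)
  have hyR : (nm y : ℝ) ≤ nm u * nm z' := by exact_mod_cast hyle
  have hyX : (nm y : ℝ) ≤ nm u * X := hyR.trans (mul_le_mul_of_nonneg_left hzp'.2 (by positivity))
  have hylow : B / nm u ≤ (nm y : ℝ) := by
    rw [div_le_iff₀ (by linarith)]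
    have h2 : (nm u : ℝ) * nm z' = n ^ 2 * nm y := by exact_mod_cast h1
    have h3 : (n : ℝ) ≤ nm u := by exact_mod_cast hnU
    have h3' : (1 : ℝ) ≤ n := by exact_mod_cast hn
    have h4 : (0 : ℝ) ≤ nm y := Nat.cast_nonneg _
    have h5 : (n : ℝ) ^ 2 * nm y ≤ (nm u : ℝ) ^ 2 * nm y := by gcongr
    have h6 : (nm u : ℝ) * nm z' ≤ (nm u : ℝ) * (nm y * nm u) := by
      rw [h2]; calc (n : ℝ) ^ 2 * nm y ≤ (nm u : ℝ) ^ 2 * nm y := h5
        _ = _ := by ring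
    have h7 := le_of_mul_le_mul_left h6 (by linarith)
    linarith
  have hcy : (nm y).Coprime a := by
    have h2 : (nm u * nm z').Coprime a := Nat.Coprime.mul_left hca hcz'
    rw [h1] at h2
    exact Nat.Coprime.coprime_dvd_left (Dvd.intro_left _ rfl) h2
  have hang : ang (u * z') = ang y := by rw [hw, ang_natCast_mul hD hn]
  have hgly : gl (u * z') = gl y := by rw [hw, gl_natCast_mul hn hD hy0]
  rw [hgly] at hgl
  rw [hang] at hr
  obtain ⟨m, hm⟩ := rd_eq (ang z - ang y)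
  have hdt0 : dt z y ≠ 0 := by
    intro h0
    rcases dt_zero hzp.1 hy h0 with h | h
    · exact hgl (by rw [h])
    · exact hgl (by rw [h, gl_neg])
  have hdtb : |(dt z y : ℝ)| ≤ T := by
    have h2 := dt_eq_sin hD z y
    have hs1 := sqrt_disc hD
    have h3 : |Real.sin (ang y - ang z)| ≤ δ := by
      have h4 : Real.sin (ang y - ang z) = - Real.sin (rd (ang z - ang y)) := by
        rw [hm, sin_add_two_pi_mul, ← Real.sin_neg]
        congr 1; ring
      rw [h4, abs_neg]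
      exact (Real.abs_sin_le_abs).trans hr
    have h5 : ‖tc z‖ * ‖tc y‖ ≤ nm u * X := by
      rw [norm_tc hD, norm_tc hD]
      have h6 : Real.sqrt (nm z) ≤ Real.sqrt (nm u * X) :=
        Real.sqrt_le_sqrt (hzp.2.trans (by nlinarith))
      have h7 : Real.sqrt (nm y) ≤ Real.sqrt (nm u * X) := Real.sqrt_le_sqrt hyX
      have h8 : Real.sqrt (nm u * X) * Real.sqrt (nm u * X) = nm u * X :=
        Real.mul_self_sqrt (by positivity)
      calc _ ≤ Real.sqrt (nm u * X) * Real.sqrt (nm u * X) :=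
            mul_le_mul h6 h7 (Real.sqrt_nonneg _) (Real.sqrt_nonneg _)
        _ = _ := h8
    have h9 : |(dt z y : ℝ) * Real.sqrt (4 * c - t ^ 2) / 2| ≤ nm u * X * δ := by
      rw [h2, abs_mul, abs_mul, abs_norm, abs_norm]
      exact mul_le_mul h5 h3 (abs_nonneg _) (by positivity)
    rw [abs_div, abs_mul, abs_of_pos (by linarith : 0 < Real.sqrt (4 * (c : ℝ) - t ^ 2))] at h9
    have h10 : |(dt z y : ℝ)| ≤ |(dt z y : ℝ)| * Real.sqrt (4 * (c : ℝ) - t ^ 2) :=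
      le_mul_of_one_le_right (abs_nonneg _) hs1
    have h11 : |(2 : ℝ)| = 2 := by norm_num
    rw [h11] at h9
    linarith
  have hdtb' : |dt z y| ≤ (T : ℤ) := by
    have : ((|dt z y| : ℤ) : ℝ) ≤ ((T : ℤ) : ℝ) := by push_cast; exact hdtb
    exact_mod_cast this
  have hzX : (nm z : ℝ) ≤ nm u * X := hzp.2.trans (by nlinarith)
  have hBz2 : B / nm u ≤ (nm z : ℝ) := (div_le_self hB0 hUR).trans hBz
  have habs := abs_le.1 hdtb'
  rcases lt_or_gt_of_ne hdt0 with hneg | hpos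
  · refine ⟨n, -1, -y, mem_Icc.2 ⟨hn, hnU⟩, by simp, ?_, ?_⟩
    · rw [hw]; push_cast; ring
    · unfold spair
      rw [mem_filter, mem_product]
      have e1 : dt z (-y) = - dt z y := by
        unfold dt
        simp
        ring
      refine ⟨⟨(mem_pball hD).2 ⟨hzp.1, hzX⟩, (mem_pball hD).2 ⟨prim_neg.2 hy, by rw [nm_neg]; exact hyX⟩⟩,
        ⟨hcz, by rw [nm_neg]; exact hcy⟩, ⟨hBz2, by rw [nm_neg]; exact hylow⟩, ⟨?_, ?_⟩, ?_⟩
      · simp only [e1]; omega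
      · simp only [e1]; omega
      · rw [gl_neg]; exact hgl
  · refine ⟨n, 1, y, mem_Icc.2 ⟨hn, hnU⟩, by simp, ?_, ?_⟩
    · rw [hw]; push_cast; ring
    · unfold spair
      rw [mem_filter, mem_product]
      refine ⟨⟨(mem_pball hD).2 ⟨hzp.1, hzX⟩, (mem_pball hD).2 ⟨hy, hyX⟩⟩,
        ⟨hcz, hcy⟩, ⟨hBz2, hylow⟩, ⟨?_, ?_⟩, hgl⟩
      · simp only; omega
      · simp only; omega

theorem near_card (hD : t ^ 2 < 4 * c) {a : ℕ} {X B δ : ℝ} {u : Qd t c}
    (hu0 : u ≠ 0) (hca : (nm u).Coprime a) (hB0 : 0 ≤ B) {T : ℕ} (hT : 2 * nm u * X * δ ≤ T)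
    (S : Finset (Qd t c × Qd t c))
    (hS : ∀ e ∈ S, e.1 ∈ pball t c X ∧ e.2 ∈ pball t c X ∧ (nm e.1).Coprime a ∧ (nm e.2).Coprime a ∧
      B ≤ nm e.1 ∧ B ≤ nm e.2 ∧ gl e.1 ≠ gl (u * e.2) ∧ |rd (ang e.1 - ang (u * e.2))| ≤ δ) :
    S.card ≤ 2 * nm u * (spair t c a T (B / nm u) (nm u * X)).card := by
  classical
  have h : ∀ e : Qd t c × Qd t c, ∃ p : (Qd t c × ℕ) × ℤ, e ∈ S →
      p.1.2 ∈ Icc 1 (nm u) ∧ p.2 ∈ ({1, -1} : Finset ℤ) ∧
      u * e.2 = (p.2 : Qd t c) * (p.1.2 * p.1.1) ∧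
      (e.1, p.1.1) ∈ spair t c a T (B / nm u) (nm u * X) := by
    intro e
    by_cases he : e ∈ S
    · obtain ⟨h1, h2, h3, h4, h5, h6, h7, h8⟩ := hS e he
      obtain ⟨n, σ, y, hn, hσ, hw, hy⟩ := near_map hD h1 h2 hu0 hca h3 h4 hB0 h5 h6 h7 h8 hT
      exact ⟨((y, n), σ), fun _ => ⟨hn, hσ, hw, hy⟩⟩
    · exact ⟨((0, 0), 0), fun h => absurd h he⟩
  choose f hf using h
  have hcard : S.card ≤ ((spair t c a T (B / nm u) (nm u * X)) ×ˢ
      (Icc 1 (nm u) ×ˢ ({1, -1} : Finset ℤ))).card := by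
    refine Finset.card_le_card_of_injOn (fun e => ((e.1, (f e).1.1), ((f e).1.2, (f e).2))) ?_ ?_
    · intro e he
      obtain ⟨h1, h2, h3, h4⟩ := hf e he
      simp only [coe_product, Set.mem_prod, mem_coe]
      exact ⟨h4, h1, h2⟩
    · intro e he e' he' hee
      simp only [Prod.mk.injEq] at hee
      obtain ⟨⟨h1, h2⟩, h3, h4⟩ := hee
      have g1 := (hf e he).2.2.1
      have g2 := (hf e' he').2.2.1
      rw [h2, h3, h4, ← g2] at g1
      have g3 : u * (e.2 - e'.2) = 0 := by rw [mul_sub, g1, sub_self]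
      have g4 : e.2 - e'.2 = 0 := by
        by_contra hcon
        exact mul_ne_zero' hD hu0 hcon g3
      exact Prod.ext h1 (sub_eq_zero.1 g4)
  rw [card_product, card_product, Nat.card_Icc] at hcard
  have h2 : ({1, -1} : Finset ℤ).card = 2 := by decide
  rw [h2] at hcard
  calc S.card ≤ _ := hcard
    _ = _ := by rw [Nat.add_sub_cancel]; ring

end Pool.Agent.W80.GB
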