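import Pool.Agent.W80.GB.Fin

/-!
Project GB (helper80): infinitely many positive values via Pell equations.
-/

set_option autoImplicit false

namespace Pool.Agent.W80.GB

open Finset Filter
open Pool.Agent.H376R2.MR
open Pool.Agent.W78.GA

lemma lz_mul_sq {m y : ℤ} (hm : m ≠ 0) (hy : y ≠ 0) : lz (m * y ^ 2) = lz m := by
  rw [lz_mul hm (pow_ne_zero 2 hy), pow_two, lz_mul hy hy]
  rcases lz_eq y with h | h <;> rw [h] <;> norm_num

lemma pell_size {E D B U₀ x y : ℤ} (hE : 0 < E) (hD : 1 ≤ D) (hUE : U₀ ^ 2 + D = E)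
    (hxy : x ^ 2 - E * y ^ 2 = 1) (hy : 0 ≤ y) (hx : 2 * E * B + E + 1 ≤ x) (hB : 1 ≤ B) :
    B < U₀ * x + E * y := by
  have hEB : 0 < E * B := mul_pos hE (by linarith)
  have hx0 : 0 < x := by linarith
  have hEx : E + 1 ≤ x := by linarith
  have hprod : (U₀ * x + E * y) * (E * y - U₀ * x) = D * x ^ 2 - E := by
    have h2 : E * y ^ 2 = x ^ 2 - 1 := by linarith
    have h3 : U₀ ^ 2 = E - D := by linarith
    have h1 : (U₀ * x + E * y) * (E * y - U₀ * x) = E * (E * y ^ 2) - U₀ ^ 2 * x ^ 2 := by ring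
    rw [h1, h2, h3]; ring
  have hx2 : x * (E + 1) ≤ x ^ 2 := by
    rw [pow_two]; exact mul_le_mul_of_nonneg_left hEx hx0.le
  have hDx : x ^ 2 ≤ D * x ^ 2 := le_mul_of_one_le_left (sq_nonneg _) hD
  have hx1 : 1 ≤ x := hx0
  have hxE : E + 1 ≤ x * (E + 1) := le_mul_of_one_le_left (by linarith) hx1
  have hpos : 0 < D * x ^ 2 - E := by linarith
  have hsq : (U₀ * x) ^ 2 < (E * y) ^ 2 := by
    have h1 : (E * y) ^ 2 - (U₀ * x) ^ 2 = D * x ^ 2 - E := by rw [← hprod]; ring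
    linarith
  have hEy : 0 ≤ E * y := mul_nonneg hE.le hy
  have habs := abs_lt_of_sq_lt_sq hsq hEy
  have habs' := abs_lt.1 habs
  have hV0 : 0 < E * y - U₀ * x := by linarith [habs'.2]
  have hyx : y ≤ x := by
    have h1 : 1 * y ^ 2 ≤ E * y ^ 2 := mul_le_mul_of_nonneg_right hE (sq_nonneg _)
    have h2 : y ^ 2 ≤ x ^ 2 := by linarith
    exact (abs_le_of_sq_le_sq' h2 hx0.le).2
  have hV1 : E * y - U₀ * x ≤ 2 * (E * x) := by
    have h1 : E * y ≤ E * x := mul_le_mul_of_nonneg_left hyx hE.le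
    linarith [habs'.1]
  by_contra hcon
  push Not at hcon
  have h1 : D * x ^ 2 - E ≤ B * (2 * (E * x)) := by
    rw [← hprod]
    calc (U₀ * x + E * y) * (E * y - U₀ * x) ≤ B * (E * y - U₀ * x) :=
          mul_le_mul_of_nonneg_right hcon hV0.le
      _ ≤ B * (2 * (E * x)) := mul_le_mul_of_nonneg_left hV1 (by linarith)
  have h4 : x * (2 * E * B + E + 1) ≤ x * x := mul_le_mul_of_nonneg_left hx hx0.le
  have h5 : x * (2 * E * B + E + 1) = B * (2 * (E * x)) + x * (E + 1) := by ring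
  rw [h5, ← pow_two] at h4
  linarith

lemma pell_sol {E B : ℤ} (hE : 0 < E) (hB : 1 ≤ B) (hns : ¬ IsSquare E) :
    ∃ y x₂ y₂ : ℤ, x₂ ^ 2 - E * y₂ ^ 2 = 1 ∧ 0 ≤ y₂ ∧ 2 * E * B + E + 1 ≤ x₂ ∧
      x₂ = 1 + 2 * E * y ^ 2 := by
  have hB0 : 0 < B + 1 := by linarith
  obtain ⟨x, y, hxy, hy0⟩ := Pell.exists_of_not_isSquare (d := E * (B + 1) ^ 2) (by positivity) (by
    intro hsq
    apply hns
    obtain ⟨r, hr⟩ := hsq
    have h1 : (B + 1) ^ 2 ∣ r ^ 2 := ⟨E, by rw [pow_two r, ← hr]; ring⟩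
    have h2 : (B + 1) ∣ r := (Int.pow_dvd_pow_iff (by norm_num)).1 h1
    obtain ⟨r', rfl⟩ := h2
    refine ⟨r', ?_⟩
    have h3 : (B + 1) ^ 2 ≠ 0 := pow_ne_zero 2 (by linarith)
    apply mul_left_cancel₀ h3
    linear_combination hr)
  obtain ⟨x', hx'⟩ : ∃ x' : ℤ, x' = |x| := ⟨_, rfl⟩
  obtain ⟨y', hy'⟩ : ∃ y' : ℤ, y' = |y| * (B + 1) := ⟨_, rfl⟩
  have hxy' : x' ^ 2 - E * y' ^ 2 = 1 := by
    rw [hx', hy', sq_abs, mul_pow, sq_abs]; linear_combination hxy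
  have hy1 : 1 ≤ |y| := Int.one_le_abs hy0
  have hy'B : B + 1 ≤ y' := by rw [hy']; exact le_mul_of_one_le_left hB0.le hy1
  have hx'0 : 0 ≤ x' := by rw [hx']; exact abs_nonneg x
  clear hxy hy0 hx' hy' hy1
  refine ⟨y', x' ^ 2 + E * y' ^ 2, 2 * x' * y', ?_, ?_, ?_, by linarith⟩
  · have : (x' ^ 2 + E * y' ^ 2) ^ 2 - E * (2 * x' * y') ^ 2 = (x' ^ 2 - E * y' ^ 2) ^ 2 := by ring
    rw [this, hxy']; norm_num
  · have : 0 ≤ y' := by linarith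
    exact mul_nonneg (mul_nonneg (by norm_num) hx'0) this
  · have h1 : (B + 1) ^ 2 ≤ y' ^ 2 := pow_le_pow_left₀ hB0.le hy'B 2
    have h2 : E * (B + 1) ^ 2 ≤ E * y' ^ 2 := mul_le_mul_of_nonneg_left h1 hE.le
    have h3 : x' ^ 2 = 1 + E * y' ^ 2 := by linarith
    rw [h3]
    have h4 : 0 ≤ E * B ^ 2 := mul_nonneg hE.le (sq_nonneg _)
    have h5 : E * (B + 1) ^ 2 = E * B ^ 2 + 2 * E * B + E := by ring
    have h6 : 0 < E * B := mul_pos hE (by linarith)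
    linarith

/-- if `4 a f(n₀)` is not a square then `f(n) = f(n₀) y²` for infinitely many `n > 0` -/
theorem pell_values {a : ℕ} (ha : 1 ≤ a) {b c₀ : ℤ} (hD : b ^ 2 < 4 * (a * c₀)) (n₀ : ℤ)
    (hns : ¬ IsSquare (4 * a * (a * n₀ ^ 2 + b * n₀ + c₀))) (M : ℤ) :
    ∃ n : ℤ, M < n ∧ lz (a * n ^ 2 + b * n + c₀) = lz (a * n₀ ^ 2 + b * n₀ + c₀) := by
  have haz : (0 : ℤ) < a := by exact_mod_cast ha
  have hf0 : ∀ n : ℤ, 0 < (a : ℤ) * n ^ 2 + b * n + c₀ := by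
    intro n
    have h3 : 4 * (a : ℤ) * (a * n ^ 2 + b * n + c₀) = (2 * a * n + b) ^ 2 + (4 * (a * c₀) - b ^ 2) := by ring
    by_contra hcon
    push Not at hcon
    have h4 : 4 * (a : ℤ) * (a * n ^ 2 + b * n + c₀) ≤ 0 :=
      mul_nonpos_of_nonneg_of_nonpos (by linarith) hcon
    have := sq_nonneg (2 * (a : ℤ) * n + b)
    linarith
  obtain ⟨F, hF⟩ : ∃ F : ℤ, F = a * n₀ ^ 2 + b * n₀ + c₀ := ⟨_, rfl⟩
  rw [← hF] at hns ⊢
  have hF0 : 0 < F := by rw [hF]; exact hf0 n₀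
  obtain ⟨E, hE⟩ : ∃ E : ℤ, E = 4 * a * F := ⟨_, rfl⟩
  rw [← hE] at hns
  have hE0 : 0 < E := by rw [hE]; positivity
  obtain ⟨U₀, hU₀⟩ : ∃ U₀ : ℤ, U₀ = 2 * a * n₀ + b := ⟨_, rfl⟩
  obtain ⟨D, hDd⟩ : ∃ D : ℤ, D = 4 * (a * c₀) - b ^ 2 := ⟨_, rfl⟩
  have hD1 : 1 ≤ D := by rw [hDd]; linarith
  have hUE : U₀ ^ 2 + D = E := by rw [hU₀, hDd, hE, hF]; ring
  obtain ⟨B, hB⟩ : ∃ B : ℤ, B = 2 * a * |M| + |b| + 1 := ⟨_, rfl⟩
  have hB1 : 1 ≤ B := by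
    have h1 := abs_nonneg M
    have h2 := abs_nonneg b
    have h3 : 0 ≤ 2 * (a : ℤ) * |M| := mul_nonneg (by linarith) h1
    rw [hB]; linarith
  obtain ⟨y, x₂, y₂, hp2, hy₂0, hx₂big, hx₂⟩ := pell_sol hE0 hB1 hns
  have hUB := pell_size hE0 hD1 hUE hp2 hy₂0 hx₂big hB1
  have hid : (U₀ * x₂ + E * y₂) ^ 2 + D = E * (x₂ + U₀ * y₂) ^ 2 := by
    have h1 : (U₀ * x₂ + E * y₂) ^ 2 - E * (x₂ + U₀ * y₂) ^ 2 =
      (U₀ ^ 2 - E) * (x₂ ^ 2 - E * y₂ ^ 2) := by ring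
    rw [hp2] at h1
    linarith
  have hnU : 2 * a * (n₀ + 2 * F * y₂ + 2 * E * y ^ 2 * n₀ + b * (4 * F * y ^ 2)) + b =
      U₀ * x₂ + E * y₂ := by
    rw [hx₂, hU₀, hE]; ring
  refine ⟨n₀ + 2 * F * y₂ + 2 * E * y ^ 2 * n₀ + b * (4 * F * y ^ 2), ?_, ?_⟩
  · generalize n₀ + 2 * F * y₂ + 2 * E * y ^ 2 * n₀ + b * (4 * F * y ^ 2) = n at hnU ⊢
    have h1 : 2 * a * |M| + |b| + 1 < 2 * a * n + b := by rw [hnU, ← hB]; exact hUB
    have h2 : b ≤ |b| := le_abs_self b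
    have h3 : M ≤ |M| := le_abs_self M
    have h4 : 2 * (a : ℤ) * M ≤ 2 * a * |M| := mul_le_mul_of_nonneg_left h3 (by linarith)
    have h5 : 2 * (a : ℤ) * M < 2 * a * n := by linarith
    exact lt_of_mul_lt_mul_left h5 (by linarith)
  · generalize n₀ + 2 * F * y₂ + 2 * E * y ^ 2 * n₀ + b * (4 * F * y ^ 2) = n at hnU ⊢
    generalize x₂ + U₀ * y₂ = Y at hid
    have h1 : a * n ^ 2 + b * n + c₀ = F * Y ^ 2 := by
      have h2 : (4 * a : ℤ) ≠ 0 := by linarith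
      apply mul_left_cancel₀ h2
      have h3 : 4 * (a : ℤ) * (a * n ^ 2 + b * n + c₀) = (2 * a * n + b) ^ 2 + D := by rw [hDd]; ring
      rw [h3, hnU, hid, hE]; ring
    have hY0 : Y ≠ 0 := by
      intro h0
      have h4 := hf0 n
      rw [h1, h0] at h4
      simp at h4
    rw [h1, lz_mul_sq hF0.ne' hY0]

/-- `4 a f(n)` is a square for small `n` only -/
lemma not_square {a : ℕ} (ha : 1 ≤ a) {b c₀ : ℤ} (hD : b ^ 2 < 4 * (a * c₀)) (n : ℤ)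
    (hn : 4 * (a * c₀) + |b| < |n|) : ¬ IsSquare (4 * a * (a * n ^ 2 + b * n + c₀)) := by
  have haz : (1 : ℤ) ≤ a := by exact_mod_cast ha
  rintro ⟨r, hr⟩
  have h3 : 4 * (a : ℤ) * (a * n ^ 2 + b * n + c₀) = (2 * a * n + b) ^ 2 + (4 * (a * c₀) - b ^ 2) := by ring
  rw [h3] at hr
  have hUn : |(2 * (a : ℤ) * n + b) - b| = 2 * a * |n| := by
    have e : (2 * (a : ℤ) * n + b) - b = (2 * a) * n := by ring
    rw [e, abs_mul, abs_of_nonneg (by linarith : (0 : ℤ) ≤ 2 * a)]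
  generalize 2 * (a : ℤ) * n + b = U at hr hUn
  have hr' : |r| ^ 2 = |U| ^ 2 + (4 * (a * c₀) - b ^ 2) := by rw [sq_abs, sq_abs]; linarith
  have h1 : |U| < |r| := by
    by_contra hcon
    push Not at hcon
    have : |r| ^ 2 ≤ |U| ^ 2 := pow_le_pow_left₀ (abs_nonneg _) hcon 2
    linarith
  have h2 : (|U| + 1) ^ 2 ≤ |r| ^ 2 := pow_le_pow_left₀ (by positivity) (by omega) 2
  have h2' : (|U| + 1) ^ 2 = |U| ^ 2 + 2 * |U| + 1 := by ring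
  have hb2 := sq_nonneg b
  have h4 : 2 * |U| ≤ 4 * (a * c₀) - b ^ 2 := by linarith
  have h5 : |n| ≤ |U| + |b| := by
    have h6 := abs_sub U b
    rw [hUn] at h6
    have h7 : 1 * |n| ≤ 2 * a * |n| := mul_le_mul_of_nonneg_right (by linarith) (abs_nonneg n)
    linarith
  have h8 := abs_nonneg U
  linarith

end Pool.Agent.W80.GB
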