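import Pool.Agent.W78.GA.Basic
import Pool.Agent.H98R3.OM.A1

/-!
Project GB (helper80): for all but `δ X` elements `z` of the ball, the norm of `z` has a small
prime factor in every residue class modulo `A` up to sign.
-/

set_option autoImplicit false

namespace Pool.Agent.W80.GB

open Finset Filter
open Pool.Agent.H376R2.MR
open Pool.Agent.W78.GA

variable {t c : ℤ}

lemma kap_pos' (hD : t ^ 2 < 4 * c) : 0 < kap t c := by
  unfold kap
  have := disc_pos hD
  have := Real.sqrt_pos.2 this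
  positivity

lemma lat_one' (z : Qd t c) : lat 1 0 z := by
  unfold lat
  simp

/-- pairs of coprime moduli -/
theorem two_lat' {p q : ℕ} (hpq : Nat.Coprime p q) (r s : ℤ) : ∃ u : ℤ, ∀ z : Qd t c,
    lat p r z → lat q s z → lat (p * q) u z := by
  have h := Nat.isCoprime_iff_coprime.2 hpq
  obtain ⟨a, b, hab⟩ := h
  refine ⟨r * (b * q) + s * (a * p), fun z h1 h2 => ?_⟩
  unfold lat at *
  push_cast
  apply IsCoprime.mul_dvd ⟨a, b, hab⟩
  · have e : z.re + (r * (b * q) + s * (a * p)) * z.im =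
      (z.re + r * z.im) + p * (a * (s - r) * z.im) := by
      have : b * (q : ℤ) = 1 - a * p := by linarith
      rw [this]; ring
    rw [e]
    exact dvd_add h1 (dvd_mul_right _ _)
  · have e : z.re + (r * (b * q) + s * (a * p)) * z.im =
      (z.re + s * z.im) + q * (b * (r - s) * z.im) := by
      have : a * (p : ℤ) = 1 - b * q := by linarith
      rw [this]; ring
    rw [e]
    exact dvd_add h2 (dvd_mul_right _ _)

/-- the second moment, one row -/
theorem row_le' {C X : ℝ} (hD : t ^ 2 < 4 * c) (hX : 1 ≤ X) (hC : 0 < C)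
    (hball : ∀ (d : ℕ) (r : ℤ), 1 ≤ d →
      |(((ball t c X).filter (lat d r)).card : ℝ) - kap t c * X / d| ≤ C * Real.sqrt X)
    (T : Finset ℕ) (hT : ∀ q ∈ T, q.Prime) (ρ : ℕ → ℤ) (p : ℕ) (hp : p ∈ T) :
    ∑ q ∈ T, (((ball t c X).filter (fun z => lat p (ρ p) z ∧ lat q (ρ q) z)).card : ℝ) ≤
      kap t c * X / p * (∑ q ∈ T, 1 / (q : ℝ)) + T.card * (C * Real.sqrt X) +
      (((ball t c X).filter (lat p (ρ p))).card : ℝ) := by
  have hk := kap_pos' hD
  have hE : 0 ≤ C * Real.sqrt X := by positivity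
  have hpp := hT p hp
  have hp0 : (0 : ℝ) < p := by exact_mod_cast hpp.pos
  have h1 : ∀ q ∈ T,
      (((ball t c X).filter (fun z => lat p (ρ p) z ∧ lat q (ρ q) z)).card : ℝ) ≤
      (kap t c * X / p * (1 / (q : ℝ)) + C * Real.sqrt X) +
      (if q = p then (((ball t c X).filter (lat p (ρ p))).card : ℝ) else 0) := by
    intro q hq
    have hqp := hT q hq
    have hq0 : (0 : ℝ) < q := by exact_mod_cast hqp.pos
    by_cases h : q = p
    · rw [if_pos h]
      have h2 : (((ball t c X).filter (fun z => lat p (ρ p) z ∧ lat q (ρ q) z)).card : ℝ) ≤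
        (((ball t c X).filter (lat p (ρ p))).card : ℝ) := by
        exact_mod_cast card_le_card (fun z hz => by
          rw [mem_filter] at hz ⊢
          exact ⟨hz.1, hz.2.1⟩)
      have h3 : 0 ≤ kap t c * X / p * (1 / (q : ℝ)) := by positivity
      linarith
    · rw [if_neg h, add_zero]
      obtain ⟨u, hu⟩ := two_lat' (t := t) (c := c)
        ((Nat.coprime_primes hpp hqp).2 (fun h5 => h h5.symm)) (ρ p) (ρ q)
      have h2 : (((ball t c X).filter (fun z => lat p (ρ p) z ∧ lat q (ρ q) z)).card : ℝ) ≤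
        (((ball t c X).filter (lat (p * q) u)).card : ℝ) := by
        exact_mod_cast card_le_card (fun z hz => by
          rw [mem_filter] at hz ⊢
          exact ⟨hz.1, hu z hz.2.1 hz.2.2⟩)
      have h3 := (abs_le.1 (hball (p * q) u (Nat.mul_pos hpp.pos hqp.pos))).2
      have h4 : kap t c * X / ((p * q : ℕ) : ℝ) = kap t c * X / p * (1 / (q : ℝ)) := by
        push_cast
        field_simp
      rw [h4] at h3
      linarith
  refine (sum_le_sum h1).trans ?_
  rw [sum_add_distrib, sum_add_distrib, ← mul_sum, sum_const, nsmul_eq_mul, ← sum_filter,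
    sum_const, nsmul_eq_mul]
  have h2 : ((T.filter (fun q => q = p)).card : ℝ) ≤ 1 := by
    have : (T.filter (fun q => q = p)) ⊆ {p} := by
      intro q hq
      rw [mem_filter] at hq
      rw [mem_singleton]
      exact hq.2
    exact_mod_cast (card_le_card this).trans (by simp)
  have h3 : (0 : ℝ) ≤ (((ball t c X).filter (lat p (ρ p))).card : ℝ) := by positivity
  have h4 := mul_le_mul_of_nonneg_right h2 h3
  linarith

theorem var_le' {C X : ℝ} (hD : t ^ 2 < 4 * c) (hX : 1 ≤ X) (hC : 0 < C)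
    (hball : ∀ (d : ℕ) (r : ℤ), 1 ≤ d →
      |(((ball t c X).filter (lat d r)).card : ℝ) - kap t c * X / d| ≤ C * Real.sqrt X)
    (T : Finset ℕ) (hT : ∀ q ∈ T, q.Prime) (ρ : ℕ → ℤ) :
    ∑ z ∈ ball t c X, (((T.filter (fun q => lat q (ρ q) z)).card : ℝ) -
      ∑ q ∈ T, 1 / (q : ℝ)) ^ 2 ≤
      kap t c * X * (∑ q ∈ T, 1 / (q : ℝ)) +
        4 * (C * Real.sqrt X) * ((T.card : ℝ) + 1) ^ 2 := by
  classical
  have hk := kap_pos' hD
  set W : ℝ := ∑ q ∈ T, 1 / (q : ℝ) with hW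
  set E : ℝ := C * Real.sqrt X with hEdef
  have hE : 0 ≤ E := by rw [hEdef]; positivity
  set n : ℝ := (T.card : ℝ) with hn
  have hn0 : 0 ≤ n := by rw [hn]; positivity
  have hW0 : 0 ≤ W := sum_nonneg fun e _ => by positivity
  have hWn : W ≤ n := by
    rw [hW, hn, Finset.card_eq_sum_ones]
    push_cast
    refine sum_le_sum fun e he => ?_
    have h1 : (1 : ℝ) ≤ e := by exact_mod_cast (hT e he).pos
    rw [div_le_one (by linarith)]
    exact h1
  set f : Qd t c → ℝ := fun z => ((T.filter (fun q => lat q (ρ q) z)).card : ℝ) with hf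
  -- the number of points
  have hN : ((ball t c X).card : ℝ) ≤ kap t c * X + E := by
    have h1 := (abs_le.1 (hball 1 0 le_rfl)).2
    have h2 : (ball t c X).filter (lat 1 0) = ball t c X := by
      apply filter_true_of_mem
      intro z _
      exact lat_one' z
    rw [h2] at h1
    push_cast at h1
    rw [div_one] at h1
    linarith
  have hf1 : ∀ z, f z = ∑ q ∈ T, (if lat q (ρ q) z then (1 : ℝ) else 0) := by
    intro z
    rw [hf]
    simp only [card_filter]
    push_cast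
    rfl
  -- first moment
  have hS1 : ∑ z ∈ ball t c X, f z = ∑ q ∈ T, (((ball t c X).filter (lat q (ρ q))).card : ℝ) := by
    simp_rw [hf1]
    rw [sum_comm]
    refine sum_congr rfl fun q _ => ?_
    rw [card_filter]
    push_cast
    rfl
  have hL : ∑ q ∈ T, kap t c * X / (q : ℝ) = kap t c * X * W := by
    rw [hW, mul_sum]
    refine sum_congr rfl fun e _ => ?_
    ring
  have hS1lo : kap t c * X * W - n * E ≤ ∑ z ∈ ball t c X, f z := by
    rw [hS1]
    have h1 : ∑ q ∈ T, (kap t c * X / (q : ℝ) - E) ≤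
        ∑ q ∈ T, (((ball t c X).filter (lat q (ρ q))).card : ℝ) := by
      refine sum_le_sum fun e he => ?_
      have := (abs_le.1 (hball e (ρ e) (hT e he).pos)).1
      linarith
    rw [sum_sub_distrib, hL, sum_const, nsmul_eq_mul] at h1
    exact h1
  have hS1up : ∑ q ∈ T, (((ball t c X).filter (lat q (ρ q))).card : ℝ) ≤
      kap t c * X * W + n * E := by
    have h1 : ∑ q ∈ T, (((ball t c X).filter (lat q (ρ q))).card : ℝ) ≤
        ∑ q ∈ T, (kap t c * X / (q : ℝ) + E) := by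
      refine sum_le_sum fun e he => ?_
      have := (abs_le.1 (hball e (ρ e) (hT e he).pos)).2
      linarith
    rw [sum_add_distrib, hL, sum_const, nsmul_eq_mul] at h1
    exact h1
  -- second moment
  have hS2 : ∑ z ∈ ball t c X, f z ^ 2 ≤
      kap t c * X * W ^ 2 + n ^ 2 * E + (kap t c * X * W + n * E) := by
    have h1 : ∑ z ∈ ball t c X, f z ^ 2 = ∑ p ∈ T, ∑ q ∈ T,
        (((ball t c X).filter (fun z => lat p (ρ p) z ∧ lat q (ρ q) z)).card : ℝ) := by
      have h2 : ∀ z, f z ^ 2 = ∑ p ∈ T, ∑ q ∈ T,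
          (if lat p (ρ p) z ∧ lat q (ρ q) z then (1 : ℝ) else 0) := by
        intro z
        rw [sq, hf1 z, sum_mul_sum]
        refine sum_congr rfl fun p _ => sum_congr rfl fun q _ => ?_
        by_cases ha : lat p (ρ p) z <;> by_cases hb : lat q (ρ q) z <;> simp [ha, hb]
      simp_rw [h2]
      rw [sum_comm]
      refine sum_congr rfl fun e _ => ?_
      rw [sum_comm]
      refine sum_congr rfl fun e' _ => ?_
      rw [card_filter]
      push_cast
      rfl
    rw [h1]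
    refine (sum_le_sum fun e he => row_le' hD hX hC hball T hT ρ e he).trans ?_
    rw [sum_add_distrib, sum_add_distrib, ← sum_mul, sum_const, nsmul_eq_mul]
    change (∑ e ∈ T, kap t c * X / (e : ℝ)) * W + n * (n * E) +
      ∑ e ∈ T, (((ball t c X).filter (lat e (ρ e))).card : ℝ) ≤ _
    rw [hL]
    nlinarith [hS1up]
  have h1 : ∑ z ∈ ball t c X, (f z - W) ^ 2 = ∑ z ∈ ball t c X, f z ^ 2 -
      2 * W * ∑ z ∈ ball t c X, f z + W ^ 2 * ((ball t c X).card : ℝ) := by
    have : ∀ z, (f z - W) ^ 2 = f z ^ 2 - 2 * W * f z + W ^ 2 := fun z => by ring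
    simp_rw [this]
    rw [sum_add_distrib, sum_sub_distrib, ← mul_sum, sum_const, nsmul_eq_mul]
    ring
  change ∑ z ∈ ball t c X, (f z - W) ^ 2 ≤ kap t c * X * W + 4 * E * (n + 1) ^ 2
  rw [h1]
  have h2 : 2 * W * (kap t c * X * W - n * E) ≤ 2 * W * ∑ z ∈ ball t c X, f z :=
    mul_le_mul_of_nonneg_left hS1lo (by positivity)
  have h3 : W ^ 2 * ((ball t c X).card : ℝ) ≤ W ^ 2 * (kap t c * X + E) :=
    mul_le_mul_of_nonneg_left hN (by positivity)
  have h4 : W * (n * E) ≤ n * (n * E) := mul_le_mul_of_nonneg_right hWn (by positivity)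
  have h5 : W ^ 2 * E ≤ n ^ 2 * E :=
    mul_le_mul_of_nonneg_right (pow_le_pow_left₀ hW0 hWn 2) hE
  nlinarith [mul_nonneg hn0 hE]

/-- few elements of the ball avoid all the lattices `lat q (ρ q)`, `q ∈ T` -/
theorem avoid_le {C X : ℝ} (hD : t ^ 2 < 4 * c) (hX : 1 ≤ X) (hC : 0 < C)
    (hball : ∀ (d : ℕ) (r : ℤ), 1 ≤ d →
      |(((ball t c X).filter (lat d r)).card : ℝ) - kap t c * X / d| ≤ C * Real.sqrt X)
    (T : Finset ℕ) (hT : ∀ q ∈ T, q.Prime) (ρ : ℕ → ℤ) :
    (open scoped Classical in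
      (((ball t c X).filter (fun z => ∀ q ∈ T, ¬ lat q (ρ q) z)).card : ℝ)) *
      (∑ q ∈ T, 1 / (q : ℝ)) ^ 2 ≤
      kap t c * X * (∑ q ∈ T, 1 / (q : ℝ)) +
        4 * (C * Real.sqrt X) * ((T.card : ℝ) + 1) ^ 2 := by
  classical
  refine le_trans ?_ (var_le' hD hX hC hball T hT ρ)
  rw [← nsmul_eq_mul, ← sum_const]
  refine (sum_le_sum fun z hz => ?_).trans (sum_le_sum_of_subset_of_nonneg (filter_subset _ _)
    fun _ _ _ => sq_nonneg _)
  rw [mem_filter] at hz
  have : T.filter (fun q => lat q (ρ q) z) = ∅ := by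
    rw [filter_eq_empty_iff]
    exact hz.2
  rw [this, card_empty]
  push_cast
  rw [zero_sub, neg_sq]

/-! ### residue classes of split primes -/

lemma jac_neg (d : ℕ) (hd : 0 < d) : jacobiSym (-(d : ℤ)) (4 * d - 1) = -1 := by
  have hodd : Odd (4 * d - 1) := ⟨2 * d - 1, by omega⟩
  have h1 : jacobiSym 4 (4 * d - 1) = 1 := by
    have : (4 : ℤ) = 2 ^ 2 := by norm_num
    rw [this, jacobiSym.pow_left]
    have h2 : jacobiSym 2 (4 * d - 1) = 1 ∨ jacobiSym 2 (4 * d - 1) = -1 := by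
      apply jacobiSym.eq_one_or_neg_one
      rw [Int.gcd_comm]
      have := Nat.Coprime.symm (Nat.coprime_two_left.2 hodd)
      exact_mod_cast this
    rcases h2 with h | h <;> rw [h] <;> norm_num
  have h2 : jacobiSym (4 * (-(d : ℤ))) (4 * d - 1) = jacobiSym (-1) (4 * d - 1) := by
    apply jacobiSym.mod_left'
    apply Int.ModEq.eq
    rw [Int.modEq_iff_dvd]
    have : ((4 * d - 1 : ℕ) : ℤ) = 4 * d - 1 := by
      have : 1 ≤ 4 * d := by omega
      push_cast [Nat.cast_sub this]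
      ring
    rw [this]
    exact ⟨1, by ring⟩
  rw [jacobiSym.mul_left, h1, one_mul] at h2
  rw [h2, jacobiSym.at_neg_one hodd]
  exact ZMod.χ₄_nat_three_mod_four (by omega)

lemma jac_congr (d : ℕ) {b b' : ℕ} (hb : Odd b) (hb' : Odd b') (h : b % (4 * d) = b' % (4 * d)) :
    jacobiSym (-(d : ℤ)) b = jacobiSym (-(d : ℤ)) b' := by
  rw [jacobiSym.mod_right _ hb, jacobiSym.mod_right _ hb']
  have : (-(d : ℤ)).natAbs = d := by simp
  rw [this, h]

lemma mod_of_dvd {A q b m : ℕ} (hm : m ∣ A) (h : (A : ℤ) ∣ (q : ℤ) - b) : q % m = b % m := by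
  have h1 : (m : ℤ) ∣ (q : ℤ) - b := (Int.natCast_dvd_natCast.2 hm).trans h
  have h2 : (b : ℤ) ≡ q [ZMOD m] := Int.modEq_iff_dvd.2 h1
  exact ((Int.natCast_modEq_iff).1 h2).symm

theorem class_sign (d : ℕ) (hd : 0 < d) (A : ℕ) (hA : 4 * d ∣ A) (hA0 : 0 < A) (r : ℤ)
    (hr : IsCoprime r A) : ∃ σ : ℤ, (σ = 1 ∨ σ = -1) ∧ ∀ q : ℕ, q.Prime →
      (A : ℤ) ∣ q - σ * r → jacobiSym (-(d : ℤ)) q = 1 := by
  have h4A : 4 ∣ A := (Dvd.intro _ rfl).trans hA
  have hA4 : 4 ≤ A := Nat.le_of_dvd hA0 h4A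
  have hAz : (0 : ℤ) < A := by exact_mod_cast hA0
  obtain ⟨b, hb⟩ : ∃ b : ℕ, (b : ℤ) = r % A :=
    ⟨(r % A).toNat, Int.toNat_of_nonneg (Int.emod_nonneg _ hAz.ne')⟩
  have hbr : (A : ℤ) ∣ r - b := by
    rw [hb]
    exact Int.dvd_self_sub_emod
  have hbA : Nat.Coprime b A := by
    rw [← Nat.isCoprime_iff_coprime, hb]
    have h1 : r % A = r + A * (-(r / A)) := by
      have := Int.emod_add_mul_ediv r A
      linarith
    rw [h1]
    exact IsCoprime.add_mul_left_left hr _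
  have hb4d : Nat.Coprime b (4 * d) := Nat.Coprime.coprime_dvd_right hA hbA
  have hbodd : Odd b := by
    rw [← Nat.coprime_two_right]
    exact Nat.Coprime.coprime_dvd_right ((by norm_num : 2 ∣ 4).trans h4A) hbA
  have hbd : Nat.Coprime b d := Nat.Coprime.coprime_dvd_right (Dvd.intro_left 4 rfl) hb4d
  have hbne : b ≠ 0 := by
    rintro rfl
    exact (Nat.not_odd_zero) hbodd
  have hJ : jacobiSym (-(d : ℤ)) b = 1 ∨ jacobiSym (-(d : ℤ)) b = -1 := by
    apply jacobiSym.eq_one_or_neg_one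
    rw [Int.neg_gcd, Int.gcd_comm]
    exact hbd
  have hqodd : ∀ (q : ℕ) (σ : ℤ), (σ = 1 ∨ σ = -1) → (A : ℤ) ∣ q - σ * r → Odd q := by
    intro q σ hσ hq
    have h1 : (4 : ℤ) ∣ (A : ℤ) := by exact_mod_cast h4A
    have h2 := h1.trans hq
    have h3 := h1.trans hbr
    obtain ⟨x, hx⟩ := h2
    obtain ⟨y, hy⟩ := h3
    obtain ⟨u, hu⟩ := hbodd
    have hu' : (b : ℤ) = 2 * u + 1 := by exact_mod_cast hu
    have : Odd (q : ℤ) := by
      rcases hσ with rfl | rfl
      · exact ⟨2 * x + 2 * y + u, by linarith⟩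
      · exact ⟨2 * x - 2 * y - u - 1, by linarith⟩
    exact_mod_cast this
  rcases hJ with hJ | hJ
  · refine ⟨1, Or.inl rfl, fun q hq hqr => ?_⟩
    have hq1 := hqodd q 1 (Or.inl rfl) hqr
    rw [jac_congr d hq1 hbodd, hJ]
    apply mod_of_dvd hA
    have : (q : ℤ) - b = (q - 1 * r) + (r - b) := by ring
    rw [this]
    exact dvd_add hqr hbr
  · refine ⟨-1, Or.inr rfl, fun q hq hqr => ?_⟩
    have hq1 := hqodd q (-1) (Or.inr rfl) hqr
    have hd1 : 1 ≤ 4 * d := by omega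
    have hodd4 : Odd (4 * d - 1) := ⟨2 * d - 1, by omega⟩
    haveI : NeZero b := ⟨hbne⟩
    haveI : NeZero q := ⟨hq.ne_zero⟩
    haveI : NeZero (4 * d - 1) := ⟨by omega⟩
    have h1 : jacobiSym (-(d : ℤ)) (q * b) = jacobiSym (-(d : ℤ)) ((b * b) * (4 * d - 1)) := by
      apply jac_congr d (hq1.mul hbodd) ((hbodd.mul hbodd).mul hodd4)
      have h4dA : ((4 * d : ℕ) : ℤ) ∣ (A : ℤ) := Int.natCast_dvd_natCast.2 hA
      have h2 : ((4 * d : ℕ) : ℤ) ∣ ((q * b : ℕ) : ℤ) - (((b * b) * (4 * d - 1) : ℕ) : ℤ) := by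
        have h3 := h4dA.trans hqr
        have h5 := h4dA.trans hbr
        push_cast [Nat.cast_sub hd1]
        have : (q : ℤ) * b - b * b * (4 * d - 1) = (q - -1 * r) * b + (b - r) * b +
          (4 * d) * (-(b * b)) := by ring
        rw [this]
        push_cast at h3 h5
        have h5' : (4 * (d : ℤ)) ∣ (b : ℤ) - r := by
          rw [← dvd_neg]
          have : -((b : ℤ) - r) = r - b := by ring
          rw [this]; exact h5
        exact dvd_add (dvd_add (Dvd.dvd.mul_right h3 _) (Dvd.dvd.mul_right h5' _))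
          (Dvd.intro _ rfl)
      exact mod_of_dvd (dvd_refl _) h2
    rw [jacobiSym.mul_right, jacobiSym.mul_right, jacobiSym.mul_right, hJ, jac_neg d hd] at h1
    linarith

theorem split_root (hD : t ^ 2 < 4 * c) {d : ℕ} (hd : (d : ℤ) = 4 * c - t ^ 2) {q : ℕ}
    (hq : q.Prime) (hq2 : Odd q) (hJ : jacobiSym (-(d : ℤ)) q = 1) :
    ∃ ρ : ℤ, (q : ℤ) ∣ ρ ^ 2 - t * ρ + c := by
  haveI : Fact q.Prime := ⟨hq⟩
  rw [← jacobiSym.legendreSym.to_jacobiSym] at hJ
  have h0 : ((-(d : ℤ) : ℤ) : ZMod q) ≠ 0 := by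
    intro h
    rw [(legendreSym.eq_zero_iff q _).2 h] at hJ
    norm_num at hJ
  obtain ⟨y, hy⟩ := (legendreSym.eq_one_iff q h0).1 hJ
  obtain ⟨k, hk⟩ := hq2
  have hx : ((y.val : ℤ) : ZMod q) = y := by simp
  have h1 : (q : ℤ) ∣ (y.val : ℤ) ^ 2 + d := by
    rw [← ZMod.intCast_zmod_eq_zero_iff_dvd _ q]
    push_cast
    rw [ZMod.natCast_val, ZMod.cast_id]
    push_cast at hy
    have : (y : ZMod q) ^ 2 = y * y := sq y
    rw [this, ← hy]
    ring
  refine ⟨((y.val : ℤ) + t) * (k + 1), ?_⟩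
  have hk' : (q : ℤ) = 2 * k + 1 := by exact_mod_cast hk
  have hcop : IsCoprime (q : ℤ) 4 := by
    rw [hk']
    exact ⟨(2 * k + 1), -(k ^ 2 + k), by ring⟩
  apply hcop.dvd_of_dvd_mul_left
  have e : 4 * ((((y.val : ℤ) + t) * (k + 1)) ^ 2 - t * (((y.val : ℤ) + t) * (k + 1)) + c) =
      ((y.val : ℤ) ^ 2 + d) + (q : ℤ) * (((y.val : ℤ) + t) ^ 2 * (2 * k + 3) -
        2 * t * ((y.val : ℤ) + t)) := by
    rw [hk', hd]
    ring
  rw [e]
  exact dvd_add h1 (dvd_mul_right _ _)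

end Pool.Agent.W80.GB
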