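import Pool.Agent.W80.GB.Near
import Pool.Agent.W78.GA.SC

/-!
Project GB (helper80): a positive proportion of pairs of opposite sign with small determinant
(after W78/GA/SC).
-/

set_option autoImplicit false

namespace Pool.Agent.W80.GB

open Finset Filter
open Pool.Agent.H376R2.MR
open Pool.Agent.W78.GA
open Pool.Agent.W803.GA (rd abs_rd_le rd_eq Fj_rd ang_mul ang_natCast_mul exists_primpart mul_ne_zero'
  geom_half geom_quarter pt_bound sin_add_two_pi_mul sqrt_disc dt_eq_sin dt_zero)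

variable {t c : ℤ}

/-- the indicator of the norms prime to `a` -/
def ca (a : ℕ) (z : Qd t c) : ℤ := if (nm z).Coprime a then 1 else 0

/-- A0 for norms prime to `a` -/
def S_A0c (t c : ℤ) (a : ℕ) : Prop := ∃ c₀ : ℝ, 0 < c₀ ∧ ∃ Y₀ : ℝ, ∀ Y : ℝ, Y₀ ≤ Y →
  c₀ ≤ ∑ z ∈ pball t c (Real.exp 1 * Y), (ca a z : ℝ) * bg Y z

/-- U0 for norms prime to `a` -/
def S_U0c (t c : ℤ) (a : ℕ) : Prop := ∃ u : Qd t c, u ≠ 0 ∧ gl u = -1 ∧ (nm u).Coprime a

/-- many pairs of opposite sign with small determinant -/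
def S_SCP (t c : ℤ) (a : ℕ) : Prop := ∃ (T : ℕ) (c₁ ε : ℝ), 0 < c₁ ∧ 0 < ε ∧ ∃ X₀ : ℝ,
  ∀ X : ℝ, X₀ ≤ X → ε * X ≤ ((spair t c a T (c₁ * X) X).card : ℝ)

lemma ca_mul_gl (a : ℕ) (z : Qd t c) : (ca a z : ℝ) * (gl z : ℝ) = (ga a z : ℝ) := by
  unfold ca ga
  split_ifs <;> simp

lemma rsum_eq' (hD : t ^ 2 < 4 * c) (a : ℕ) (Y : ℝ) {u : Qd t c} (hu : u ≠ 0) (K : ℕ) :
    ∑ z ∈ pball t c (Real.exp 1 * Y), ∑ z' ∈ pball t c (Real.exp 1 * Y),
      ((ca a z : ℝ) * bg Y z) * ((ca a z' : ℝ) * bg Y z') *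
        (1 - (gl z : ℝ) * (gl (u * z') : ℝ)) * Fj K (ang z - ang (u * z')) =
    ∑ k ∈ FK K, (1 - |(k : ℝ)| / K) * ((ps k u).re *
      (‖GGg (ca a : Qd t c → ℤ) Y k‖ ^ 2 - (gl u : ℝ) * ‖GGg (ga a : Qd t c → ℤ) Y k‖ ^ 2)) := by
  set s := pball t c (Real.exp 1 * Y) with hs
  have hs0 : ∀ z ∈ s, z ≠ 0 := fun z hz => pball_ne hD hz
  have h1 := dsum_eq hD s hs0 (fun z => (ca a z : ℝ) * bg Y z) (fun z => (ca a z : ℝ) * bg Y z) hu K
  have h2 := dsum_eq hD s hs0 (fun z => (ga a z : ℝ) * bg Y z) (fun z => (ga a z : ℝ) * bg Y z) hu K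
  have h3 : ∑ z ∈ s, ∑ z' ∈ s,
      ((ca a z : ℝ) * bg Y z) * ((ca a z' : ℝ) * bg Y z') *
        (1 - (gl z : ℝ) * (gl (u * z') : ℝ)) * Fj K (ang z - ang (u * z')) =
      ∑ z ∈ s, ∑ z' ∈ s, ((ca a z : ℝ) * bg Y z) * ((ca a z' : ℝ) * bg Y z') *
        Fj K (ang z - ang (u * z')) -
      (gl u : ℝ) * ∑ z ∈ s, ∑ z' ∈ s, ((ga a z : ℝ) * bg Y z) * ((ga a z' : ℝ) * bg Y z') *
        Fj K (ang z - ang (u * z')) := by
    rw [mul_sum, ← sum_sub_distrib]
    refine sum_congr rfl fun z hz => ?_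
    rw [mul_sum, ← sum_sub_distrib]
    refine sum_congr rfl fun z' hz' => ?_
    rw [gl_mul hD hu (hs0 z' hz'), ← ca_mul_gl a z, ← ca_mul_gl a z']
    push_cast
    ring
  rw [h3, h1, h2, mul_sum, ← sum_sub_distrib]
  refine sum_congr rfl fun k _ => ?_
  have h4 : ∀ D : ℂ, (D * (starRingEnd ℂ) D * (starRingEnd ℂ) (ps k u)).re =
      (ps k u).re * ‖D‖ ^ 2 := by
    intro D
    rw [Complex.mul_conj, Complex.normSq_eq_norm_sq, Complex.re_ofReal_mul, Complex.conj_re]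
    ring
  have h5 : DPG s (fun z => (((ga a z : ℝ) * bg Y z : ℝ) : ℂ)) k = GGg (ga a : Qd t c → ℤ) Y k := by
    unfold GGg
    congr 1
    funext z
    push_cast
    rfl
  have h6 : DPG s (fun z => (((ca a z : ℝ) * bg Y z : ℝ) : ℂ)) k = GGg (ca a : Qd t c → ℤ) Y k := by
    unfold GGg
    congr 1
    funext z
    push_cast
    rfl
  rw [h4, h4, h5, h6]
  ring

open scoped Classical in
/-- the condition on the pairs -/
def cnd (a : ℕ) (B : ℝ) (u z z' : Qd t c) : Prop := (nm z).Coprime a ∧ (nm z').Coprime a ∧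
  B ≤ nm z ∧ B ≤ nm z' ∧ gl z ≠ gl (u * z')

lemma rsum_le' (hD : t ^ 2 < 4 * c) (a : ℕ) {Y : ℝ} (hY : 0 < Y) (u : Qd t c) (K : ℕ) :
    ∑ z ∈ pball t c (Real.exp 1 * Y), ∑ z' ∈ pball t c (Real.exp 1 * Y),
      ((ca a z : ℝ) * bg Y z) * ((ca a z' : ℝ) * bg Y z') *
        (1 - (gl z : ℝ) * (gl (u * z') : ℝ)) * Fj K (ang z - ang (u * z')) ≤
    2 * (Real.exp 1 / Y) ^ 2 * (open scoped Classical in
    ∑ z ∈ pball t c (Real.exp 1 * Y), ∑ z' ∈ pball t c (Real.exp 1 * Y),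
      (if cnd a (Y / Real.exp 1) u z z' then Fj K (ang z - ang (u * z')) else 0)) := by
  classical
  rw [mul_sum]
  refine sum_le_sum fun z hz => ?_
  rw [mul_sum]
  refine sum_le_sum fun z' hz' => ?_
  have hF := Fj_nonneg K (ang z - ang (u * z'))
  have ha := bg_le' hD hY (pball_ne hD hz)
  have hb := bg_le' hD hY (pball_ne hD hz')
  have ha0 := bg_nonneg Y z
  have hb0 := bg_nonneg Y z'
  have hab : bg Y z * bg Y z' ≤ (Real.exp 1 / Y) ^ 2 := by
    rw [pow_two]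
    exact mul_le_mul ha hb hb0 (ha0.trans ha)
  have hab0 : 0 ≤ bg Y z * bg Y z' := mul_nonneg ha0 hb0
  have hg : gl z = 1 ∨ gl z = -1 := lam_eq _
  have hg' : gl (u * z') = 1 ∨ gl (u * z') = -1 := lam_eq _
  have hsame : gl z = gl (u * z') → (1 - (gl z : ℝ) * (gl (u * z') : ℝ)) = 0 := by
    intro h
    rw [h]
    have : (gl (u * z') : ℝ) * (gl (u * z') : ℝ) = 1 := by
      rcases hg' with h | h <;> rw [h] <;> norm_num
    rw [this]; ring
  by_cases h : cnd a (Y / Real.exp 1) u z z'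
  · rw [if_pos h]
    obtain ⟨h1, h2, h3, h4, h5⟩ := h
    have e1 : (ca a z : ℝ) = 1 := by unfold ca; rw [if_pos h1]; norm_num
    have e2 : (ca a z' : ℝ) = 1 := by unfold ca; rw [if_pos h2]; norm_num
    have : (gl z : ℝ) * (gl (u * z') : ℝ) = -1 := by
      rcases hg with h1 | h1 <;> rcases hg' with h2 | h2
      · exact absurd (h1.trans h2.symm) h5
      · rw [h1, h2]; norm_num
      · rw [h1, h2]; norm_num
      · exact absurd (h1.trans h2.symm) h5
    rw [this, e1, e2, one_mul, one_mul]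
    have := mul_le_mul_of_nonneg_right hab hF
    nlinarith
  · rw [if_neg h, mul_zero]
    apply le_of_eq
    by_cases h1 : (nm z).Coprime a
    · by_cases h2 : (nm z').Coprime a
      · by_cases h3 : Y / Real.exp 1 ≤ (nm z : ℝ)
        · by_cases h4 : Y / Real.exp 1 ≤ (nm z' : ℝ)
          · have h5 : gl z = gl (u * z') := by
              by_contra hcon
              exact h ⟨h1, h2, h3, h4, hcon⟩
            rw [hsame h5]; ring
          · have : bg Y z' = 0 := by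
              by_contra hcon
              exact h4 (bg_ne hD hY (pball_ne hD hz') hcon).1
            rw [this]; ring
        · have : bg Y z = 0 := by
            by_contra hcon
            exact h3 (bg_ne hD hY (pball_ne hD hz) hcon).1
          rw [this]; ring
      · have e2 : (ca a z' : ℝ) = 0 := by unfold ca; rw [if_neg h2]; norm_num
        rw [e2]; ring
    · have e2 : (ca a z : ℝ) = 0 := by unfold ca; rw [if_neg h1]; norm_num
      rw [e2]; ring

lemma low_bound' (A G : ℤ → ℂ) {u₀ : Qd t c} (hgu : gl u₀ = -1) {K : ℕ} (hKpos : (0 : ℝ) < K) :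
    2 * ‖A 0‖ ^ 2 ≤ ∑ k ∈ FK K, (1 - |(k : ℝ)| / K) * ((ps k (1 : Qd t c)).re *
      (‖A k‖ ^ 2 - (gl (1 : Qd t c) : ℝ) * ‖G k‖ ^ 2)) +
      ∑ k ∈ FK K, (1 - |(k : ℝ)| / K) * ((ps k u₀).re *
      (‖A k‖ ^ 2 - (gl u₀ : ℝ) * ‖G k‖ ^ 2)) +
      2 * ∑ k ∈ (FK K).erase 0, ‖G k‖ ^ 2 := by
  have hKn : 1 ≤ K := by exact_mod_cast hKpos
  rw [← sum_add_distrib]
  have h0 : (0 : ℤ) ∈ FK K := by
    rw [FK, Finset.mem_Ioo]
    omega
  rw [← Finset.add_sum_erase _ _ h0, mul_sum, add_assoc, ← sum_add_distrib]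
  have h1 : (1 - |((0 : ℤ) : ℝ)| / K) * ((ps 0 (1 : Qd t c)).re *
    (‖A 0‖ ^ 2 - (gl (1 : Qd t c) : ℝ) * ‖G 0‖ ^ 2)) +
    (1 - |((0 : ℤ) : ℝ)| / K) * ((ps 0 u₀).re *
    (‖A 0‖ ^ 2 - (gl u₀ : ℝ) * ‖G 0‖ ^ 2)) = 2 * ‖A 0‖ ^ 2 := by
    rw [gl_one, hgu, ps_zero, ps_zero]
    simp
    ring
  rw [h1]
  refine le_add_of_nonneg_right (sum_nonneg fun k hk => ?_)
  rw [mem_erase, FK, Finset.mem_Ioo] at hk
  have hw0 : 0 ≤ 1 - |(k : ℝ)| / K := by
    rw [sub_nonneg, div_le_one hKpos]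
    rw [abs_le]
    constructor
    · have : ((-(K : ℤ) : ℤ) : ℝ) < (k : ℝ) := by exact_mod_cast hk.2.1
      push_cast at this
      linarith
    · have : (k : ℝ) < ((K : ℤ) : ℝ) := by exact_mod_cast hk.2.2
      push_cast at this
      linarith
  have hw1 : 1 - |(k : ℝ)| / K ≤ 1 := by
    have : 0 ≤ |(k : ℝ)| / K := by positivity
    linarith
  have hps1 : ps k (1 : Qd t c) = 1 := by
    have := ps_natCast (t := t) (c := c) (n := 1) one_pos k
    simpa using this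
  have hc1 : (ps k u₀).re ≤ 1 := by
    have := (Complex.abs_re_le_norm (ps k u₀)).trans (norm_ps_le _ k)
    exact (abs_le.1 this).2
  have hc2 : -1 ≤ (ps k u₀).re := by
    have := (Complex.abs_re_le_norm (ps k u₀)).trans (norm_ps_le _ k)
    exact (abs_le.1 this).1
  rw [gl_one, hgu, hps1]
  push_cast
  rw [Complex.one_re]
  set γ := (ps k u₀).re
  set W := 1 - |(k : ℝ)| / K
  have hA : 0 ≤ ‖A k‖ ^ 2 := by positivity
  have hB : 0 ≤ ‖G k‖ ^ 2 := by positivity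
  have e : W * (1 * (‖A k‖ ^ 2 - 1 * ‖G k‖ ^ 2)) +
      W * (γ * (‖A k‖ ^ 2 - -1 * ‖G k‖ ^ 2)) + 2 * ‖G k‖ ^ 2 =
      W * (1 + γ) * ‖A k‖ ^ 2 + (W * (1 + γ) + 2 * (1 - W)) * ‖G k‖ ^ 2 := by
    ring
  rw [e]
  have : 0 ≤ W * (1 + γ) := mul_nonneg hw0 (by linarith)
  have : 0 ≤ W * (1 + γ) + 2 * (1 - W) := by linarith
  positivity

/-- the sum over the pairs is at most the near pairs plus a small contribution -/
lemma pairs_le (hD : t ^ 2 < 4 * c) : ∃ C : ℝ, 0 < C ∧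
    ∀ (a : ℕ) (B X T : ℝ) (K : ℕ) (u : Qd t c), 1 ≤ X → 1 ≤ T → 1 ≤ K → u ≠ 0 →
    (nm u).Coprime a → 0 ≤ B → ∀ T' : ℕ, 2 * nm u * X * (T / K) ≤ T' →
    (open scoped Classical in
    ∑ z ∈ pball t c X, ∑ z' ∈ pball t c X,
      (if cnd a B u z z' then Fj K (ang z - ang (u * z')) else 0)) ≤
    K * (2 * nm u * (spair t c a T' (B / nm u) (nm u * X)).card) +
      C * (X ^ 2 / T + X * K / T ^ 2) := by
  classical
  obtain ⟨C, hC, hfar⟩ := far_le hD (Pool.Agent.W803.GA.sect hD) (lat_all hD)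
  refine ⟨C, hC, ?_⟩
  intro a B X T K u hX hT hK hu0 hca hB T' hT'
  have hT0 : 0 < T := by linarith
  have hpt : ∀ z ∈ pball t c X, ∀ z' ∈ pball t c X,
      (if cnd a B u z z' then Fj K (ang z - ang (u * z')) else 0) ≤
      (if cnd a B u z z' ∧ |rd (ang z - ang (u * z'))| ≤ T / K then (K : ℝ) else 0) +
      ∑ j ∈ range (K + 2), (if |rd (ang z - ang (u * z'))| ≤ 2 ^ (j + 1) * T / K then
        Real.pi ^ 2 * K / (T ^ 2) * (1 / 4) ^ j else 0) := by
    intro z _ z' _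
    have h1 := pt_bound hK hT (abs_rd_le (ang z - ang (u * z')))
    have h2 : 0 ≤ ∑ j ∈ range (K + 2), (if |rd (ang z - ang (u * z'))| ≤ 2 ^ (j + 1) * T / K then
        Real.pi ^ 2 * K / (T ^ 2) * (1 / 4) ^ j else 0) := by
      apply Finset.sum_nonneg
      intro j _
      split_ifs
      · positivity
      · exact le_rfl
    by_cases hg : cnd a B u z z'
    · rw [if_pos hg, Fj_rd]
      refine h1.trans ?_
      apply add_le_add _ le_rfl
      by_cases hn : |rd (ang z - ang (u * z'))| ≤ T / K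
      · rw [if_pos hn, if_pos ⟨hg, hn⟩]
      · rw [if_neg hn]
        split_ifs
        · positivity
        · exact le_rfl
    · rw [if_neg hg]
      have : 0 ≤ (if cnd a B u z z' ∧ |rd (ang z - ang (u * z'))| ≤ T / K then (K : ℝ) else 0) := by
        split_ifs
        · positivity
        · exact le_rfl
      linarith
  have hnear : ∑ z ∈ pball t c X, ∑ z' ∈ pball t c X,
      (if cnd a B u z z' ∧ |rd (ang z - ang (u * z'))| ≤ T / K then (K : ℝ) else 0) ≤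
      K * (2 * nm u * (spair t c a T' (B / nm u) (nm u * X)).card) := by
    rw [← Finset.sum_product', ← Finset.sum_filter, Finset.sum_const, nsmul_eq_mul, mul_comm]
    apply mul_le_mul_of_nonneg_left _ (Nat.cast_nonneg _)
    have := near_card hD hu0 hca hB hT' ((pball t c X ×ˢ pball t c X).filter
        (fun p : Qd t c × Qd t c => cnd a B u p.1 p.2 ∧ |rd (ang p.1 - ang (u * p.2))| ≤ T / K)) (by
      intro e he
      rw [mem_filter, mem_product] at he
      obtain ⟨⟨h1, h2⟩, ⟨h3, h4, h5, h6, h7⟩, h8⟩ := he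
      exact ⟨h1, h2, h3, h4, h5, h6, h7, h8⟩)
    exact_mod_cast this
  refine (Finset.sum_le_sum fun z hz => Finset.sum_le_sum fun z' hz' => hpt z hz z' hz').trans ?_
  have h := hfar X T K u hX hT hK hu0
  simp only [Finset.sum_add_distrib] at hnear h ⊢
  linarith

lemma spair_mono {a T : ℕ} {B B' X X' : ℝ} (hD : t ^ 2 < 4 * c) (hB : B' ≤ B) (hX : X ≤ X') :
    spair t c a T B X ⊆ spair t c a T B' X' := by
  classical
  intro e he
  unfold spair at he ⊢
  rw [mem_filter, mem_product] at he ⊢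
  obtain ⟨⟨h1, h2⟩, h3, ⟨h4, h5⟩, h6⟩ := he
  rw [mem_pball hD] at h1 h2
  exact ⟨⟨(mem_pball hD).2 ⟨h1.1, h1.2.trans hX⟩, (mem_pball hD).2 ⟨h2.1, h2.2.trans hX⟩⟩, h3,
    ⟨hB.trans h4, hB.trans h5⟩, h6⟩

theorem scp_of (hD : t ^ 2 < 4 * c) {a : ℕ} (ha : 1 ≤ a) (hA0 : S_A0c t c a)
    (hu0 : S_U0c t c a) : S_SCP t c a := by
  classical
  have hmr := mr_all hD a ha
  obtain ⟨u₀, hu₀, hgu, hcu⟩ := hu0
  have hn1 : 1 ≤ nm u₀ := nm_pos hD hu₀
  set U : ℝ := (nm u₀ : ℝ) with hU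
  have hU1 : 1 ≤ U := by rw [hU]; exact_mod_cast hn1
  obtain ⟨C', hC', hpair⟩ := pairs_le hD
  set C : ℝ := C' + 2 * U with hCdef
  have hC : 0 < C := by rw [hCdef]; linarith
  obtain ⟨c₀, hc₀, YA, hA0⟩ := hA0
  obtain ⟨h, hh, YM, hmr⟩ := hmr (c₀ ^ 2 / 4) (by positivity)
  set T : ℝ := 16 * Real.exp 4 * C / c₀ ^ 2 + 1 with hT
  have hT1 : 1 ≤ T := by
    rw [hT]
    have : 0 ≤ 16 * Real.exp 4 * C / c₀ ^ 2 := by positivity
    linarith
  have he1 : (0 : ℝ) < Real.exp 1 := Real.exp_pos 1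
  have hhp : 0 < h := by linarith
  have hUp : 0 < U := by linarith
  set T' : ℕ := ⌈4 * U * Real.exp 1 * T * h⌉₊ with hT'
  have hT'1 : 4 * U * Real.exp 1 * T * h ≤ T' := Nat.le_ceil _
  refine ⟨T', 1 / (U ^ 2 * Real.exp 1 ^ 2), c₀ ^ 2 / (32 * Real.exp 5 * C * h * T ^ 2 * U),
    by positivity, by positivity,
    U * Real.exp 1 * (|YA| + |YM| + 4 * h * T + 2), fun X' hX' => ?_⟩
  set Y : ℝ := X' / (U * Real.exp 1) with hYdef
  have hYbig : |YA| + |YM| + 4 * h * T + 2 ≤ Y := by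
    rw [hYdef, le_div_iff₀ (by positivity)]
    linarith
  have hYA : YA ≤ Y := by
    have := le_abs_self YA
    have := abs_nonneg YM
    have := mul_pos hhp (by linarith : 0 < T)
    linarith
  have hYM : YM ≤ Y := by
    have := le_abs_self YM
    have := abs_nonneg YA
    have := mul_pos hhp (by linarith : 0 < T)
    linarith
  have hY4 : 4 * h * T ≤ Y := by
    have := abs_nonneg YM
    have := abs_nonneg YA
    linarith
  have hhT : 1 ≤ h * T := one_le_mul_of_one_le_of_one_le hh hT1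
  have hYpos : 0 < Y := by linarith
  set K : ℕ := ⌊Y / h⌋₊ with hK
  have hYh : 4 * T ≤ Y / h := by
    rw [le_div_iff₀ hhp]; linarith
  have hK1 : (K : ℝ) ≤ Y / h := Nat.floor_le (by positivity)
  have hK2 : Y / h - 1 < K := Nat.sub_one_lt_floor _
  have hK3 : Y / (2 * h) ≤ K := by
    have : Y / (2 * h) = (Y / h) / 2 := by field_simp
    rw [this]
    linarith
  have hK4 : 2 * T ≤ K := by linarith
  have hKpos : (0 : ℝ) < K := by linarith
  have hKn : 1 ≤ K := by exact_mod_cast hKpos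
  have hKY : (K : ℝ) ≤ Y := hK1.trans (div_le_self hYpos.le hh)
  set X : ℝ := Real.exp 1 * Y with hXdef
  have he : 1 ≤ Real.exp 1 := Real.one_le_exp (by norm_num)
  have hYX : Y ≤ X := by rw [hXdef]; exact le_mul_of_one_le_left hYpos.le he
  have hX1 : 1 ≤ X := by linarith
  have h2X : U * X = X' := by
    rw [hXdef, hYdef]; field_simp
  have hBB : 1 / (U ^ 2 * Real.exp 1 ^ 2) * X' = Y / Real.exp 1 / U := by
    rw [← h2X, hXdef]; field_simp
  -- the two inequalities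
  have hR : ∀ u : Qd t c, (u = 1 ∨ u = u₀) →
      ∑ k ∈ FK K, (1 - |(k : ℝ)| / K) * ((ps k u).re *
      (‖GGg (ca a : Qd t c → ℤ) Y k‖ ^ 2 - (gl u : ℝ) * ‖GGg (ga a : Qd t c → ℤ) Y k‖ ^ 2)) ≤
      16 * Real.exp 4 * C * h * T ^ 2 *
        ((spair t c a T' (1 / (U ^ 2 * Real.exp 1 ^ 2) * X') X').card : ℝ) / Y +
        4 * Real.exp 4 * C / T := by
    intro u hu
    have hu0 : u ≠ 0 ∧ (nm u : ℝ) ≤ U ∧ (nm u).Coprime a := by
      rcases hu with rfl | rfl
      · refine ⟨?_, by rw [nm_one]; exact_mod_cast hU1, by rw [nm_one]; exact Nat.coprime_one_left _⟩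
        rw [← one_le_nm hD, nm_one]
      · exact ⟨hu₀, le_rfl, hcu⟩
    have hnu1 : (1 : ℝ) ≤ nm u := by exact_mod_cast nm_pos hD hu0.1
    rw [← rsum_eq' hD a Y hu0.1 K]
    refine (rsum_le' hD a hYpos u K).trans ?_
    have hTT : 2 * nm u * X * (T / K) ≤ T' := by
      refine le_trans ?_ hT'1
      have h1 : T / K ≤ T / (Y / (2 * h)) := div_le_div_of_nonneg_left (by linarith) (by positivity) hK3
      have h2 : T / (Y / (2 * h)) = 2 * h * T / Y := by field_simp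
      rw [h2] at h1
      calc 2 * nm u * X * (T / K) ≤ 2 * U * X * (2 * h * T / Y) := by gcongr; exact hu0.2.1
        _ = 4 * U * Real.exp 1 * T * h := by rw [hXdef]; field_simp; ring
    have h1 := hpair a (Y / Real.exp 1) X T K u hX1 hT1 hKn hu0.1 hu0.2.2 (by positivity) T' hTT
    have hcard : ((spair t c a T' (Y / Real.exp 1 / nm u) (nm u * X)).card : ℝ) ≤
        ((spair t c a T' (1 / (U ^ 2 * Real.exp 1 ^ 2) * X') X').card : ℝ) := by
      have : (spair t c a T' (Y / Real.exp 1 / nm u) (nm u * X)).card ≤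
        (spair t c a T' (1 / (U ^ 2 * Real.exp 1 ^ 2) * X') X').card := by
        apply Finset.card_le_card
        apply spair_mono hD
        · rw [hBB]
          exact div_le_div_of_nonneg_left (by positivity) (by linarith) hu0.2.1
        · rw [← h2X]
          exact mul_le_mul_of_nonneg_right hu0.2.1 (by linarith)
      exact_mod_cast this
    set S : ℝ := ((spair t c a T' (1 / (U ^ 2 * Real.exp 1 ^ 2) * X') X').card : ℝ) with hS
    have hs : (0 : ℝ) ≤ S := Nat.cast_nonneg _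
    have h2 : 0 ≤ 2 * (Real.exp 1 / Y) ^ 2 := by positivity
    have h3 : K * (2 * nm u * (spair t c a T' (Y / Real.exp 1 / nm u) (nm u * X)).card) +
      C' * (X ^ 2 / T + X * K / T ^ 2) ≤
      C * (K * (T * X / K + 1) ^ 2 * S + X ^ 2 / T + X * K / T ^ 2) := by
      have h4 : (K : ℝ) * (2 * nm u * (spair t c a T' (Y / Real.exp 1 / nm u) (nm u * X)).card) ≤
          K * (2 * U * S) := by
        apply mul_le_mul_of_nonneg_left _ hKpos.le
        exact mul_le_mul (by linarith [hu0.2.1]) hcard (Nat.cast_nonneg _) (by linarith)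
      have h5 : 1 ≤ (T * X / K + 1) ^ 2 := by
        apply one_le_pow₀
        have : 0 ≤ T * X / K := by positivity
        linarith
      have h6 : K * (2 * U * S) ≤ 2 * U * (K * (T * X / K + 1) ^ 2 * S) := by
        have : K * S ≤ K * (T * X / K + 1) ^ 2 * S := by
          calc K * S = K * 1 * S := by ring
            _ ≤ K * (T * X / K + 1) ^ 2 * S := by gcongr
        calc K * (2 * U * S) = 2 * U * (K * S) := by ring
          _ ≤ 2 * U * (K * (T * X / K + 1) ^ 2 * S) := mul_le_mul_of_nonneg_left this (by linarith)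
      have h7 : 0 ≤ X ^ 2 / T + X * K / T ^ 2 := by positivity
      have h8 : 0 ≤ K * (T * X / K + 1) ^ 2 * S := by positivity
      have e1 : C * (K * (T * X / K + 1) ^ 2 * S + X ^ 2 / T + X * K / T ^ 2) =
        C' * (X ^ 2 / T + X * K / T ^ 2) + 2 * U * (K * (T * X / K + 1) ^ 2 * S) +
        C' * (K * (T * X / K + 1) ^ 2 * S) + 2 * U * (X ^ 2 / T + X * K / T ^ 2) := by
        rw [hCdef]; ring
      rw [e1]
      have h9 := mul_nonneg hC'.le h8
      have h10 : 0 ≤ 2 * U * (X ^ 2 / T + X * K / T ^ 2) := by positivity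
      linarith
    refine (mul_le_mul_of_nonneg_left (h1.trans h3) h2).trans ?_
    exact final_bound hC hh hT1 hYpos hKpos hK3 hKY hs
  have hR1 := hR 1 (Or.inl rfl)
  have hR2 := hR u₀ (Or.inr rfl)
  have hG := hmr Y hYM
  rw [← hK] at hG
  have hlow := low_bound' (GGg (ca a : Qd t c → ℤ) Y) (GGg (ga a : Qd t c → ℤ) Y) hgu hKpos
  have hA1 : c₀ ^ 2 ≤ ‖GGg (ca a : Qd t c → ℤ) Y 0‖ ^ 2 := by
    have h1 : GGg (ca a : Qd t c → ℤ) Y 0 =
        ((∑ z ∈ pball t c (Real.exp 1 * Y), (ca a z : ℝ) * bg Y z : ℝ) : ℂ) := by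
      unfold GGg DPG
      simp
    have h2 := hA0 Y hYA
    rw [h1, Complex.norm_real, Real.norm_of_nonneg (by linarith)]
    exact pow_le_pow_left₀ hc₀.le h2 2
  have hT2 : 4 * Real.exp 4 * C / T ≤ c₀ ^ 2 / 4 := by
    rw [div_le_div_iff₀ (by linarith) (by norm_num)]
    have : c₀ ^ 2 * T = 16 * Real.exp 4 * C + c₀ ^ 2 := by
      rw [hT]; field_simp
    have := sq_nonneg c₀
    linarith
  generalize ((spair t c a T' (1 / (U ^ 2 * Real.exp 1 ^ 2) * X') X').card : ℝ) = S at hR1 hR2 ⊢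
  have hfin : c₀ ^ 2 ≤ 32 * Real.exp 4 * C * h * T ^ 2 * S / Y := by
    have h2 : 32 * Real.exp 4 * C * h * T ^ 2 * S / Y =
      16 * Real.exp 4 * C * h * T ^ 2 * S / Y +
      16 * Real.exp 4 * C * h * T ^ 2 * S / Y := by ring
    rw [h2]
    linarith
  rw [le_div_iff₀ hYpos] at hfin
  have hXY : X' = U * Real.exp 1 * Y := by
    rw [hYdef]; field_simp
  have e5 : Real.exp 5 = Real.exp 4 * Real.exp 1 := by
    rw [← Real.exp_add]; norm_num
  rw [hXY, e5, div_mul_eq_mul_div, div_le_iff₀ (by positivity)]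
  calc c₀ ^ 2 * (U * Real.exp 1 * Y) = U * Real.exp 1 * (c₀ ^ 2 * Y) := by ring
    _ ≤ U * Real.exp 1 * (32 * Real.exp 4 * C * h * T ^ 2 * S) :=
        mul_le_mul_of_nonneg_left hfin (by positivity)
    _ = S * (32 * (Real.exp 4 * Real.exp 1) * C * h * T ^ 2 * U) := by ring

end Pool.Agent.W80.GB
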